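import Pool.Agent.MP_b5e119_nt.G60.Defs
import Pool.Agent.MP_48b1c3_nt.H54.Siegel

/-! Row SIEG of campaign h60g: Siegel's bound for the series `∑ (n / p) / n`. -/

namespace Pool.Agent.G60

open Finset Filter Topology Pool.Agent.MP_48b1c3_nt.H54

theorem sieg_exp (x : ℝ) (hx : 0 < x) : Complex.exp (-1 * (Real.log x : ℂ)) = ((x : ℂ))⁻¹ := by
  rw [neg_one_mul, Complex.exp_neg, ← Complex.ofReal_exp, Real.exp_log hx]

theorem sieg_d (n : ℕ) : lbound_d n 1 = ((n : ℂ) + 1)⁻¹ - ((n : ℂ) + 1 + 1)⁻¹ := by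
  unfold lbound_d
  rw [sieg_exp _ (by positivity), sieg_exp _ (by positivity)]
  push_cast
  rfl

theorem sieg_tend {a : ℕ → ℂ} {Q : ℝ} (hQ : ∀ N, ‖∑ m ∈ range N, a (m + 1)‖ ≤ Q) :
    Tendsto (fun N : ℕ => ∑ n ∈ Icc 1 N, a n / n) atTop (𝓝 (lbound_G a 1)) := by
  have hz : Summable fun n => (∑ m ∈ range (n + 1), a (m + 1)) * lbound_d n 1 :=
    ((lbound_summable one_pos).mul_left (Q * ‖(1 : ℂ)‖)).of_norm_bounded
      fun n => lbound_term_le hQ one_pos (by simp) n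
  have t1 := hz.hasSum.tendsto_sum_nat
  have t3 : Tendsto (fun N : ℕ => (∑ m ∈ range N, a (m + 1)) * ((N : ℂ) + 1)⁻¹) atTop (𝓝 0) := by
    rw [tendsto_zero_iff_norm_tendsto_zero]
    have := (tendsto_one_div_add_atTop_nhds_zero_nat (𝕜 := ℝ)).const_mul Q
    rw [mul_zero] at this
    refine squeeze_zero (fun _ => norm_nonneg _) (fun n => ?_) this
    have e : ‖((n : ℂ) + 1)⁻¹‖ = 1 / ((n : ℝ) + 1) := by
      rw [norm_inv, one_div]
      congr 1
      exact_mod_cast Complex.norm_natCast (n + 1)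
    rw [norm_mul, e]
    exact mul_le_mul_of_nonneg_right (hQ n) (by positivity)
  have e : ∀ N : ℕ, ∑ n ∈ range N, (∑ m ∈ range (n + 1), a (m + 1)) * lbound_d n 1 +
      (∑ m ∈ range N, a (m + 1)) * ((N : ℂ) + 1)⁻¹ = ∑ n ∈ Icc 1 N, a n / n := fun N => by
    induction N with
    | zero => simp
    | succ N ih =>
      rw [sum_Icc_succ_top (by omega), ← ih, sum_range_succ _ N, sieg_d,
        sum_range_succ (fun m => a (m + 1)) N, div_eq_mul_inv]
      push_cast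
      ring
  have t4 := t1.add t3
  rw [add_zero] at t4
  exact t4.congr e

theorem sieg_row (hUNIQ : UNIQ_s) : SIEG_s := by
  intro ε hε
  obtain ⟨c, hc, H⟩ := siegel hε
  refine ⟨c, hc, fun p hp h2 => ?_⟩
  obtain ⟨χ, h1, hsq, hv, -⟩ := hUNIQ p h2
  have hprim : χ.IsPrimitive := by
    rcases (Nat.dvd_prime hp.out).1 χ.conductor_dvd_level with h | h
    · exact absurd (DirichletCharacter.eq_one_iff_conductor_eq_one.2 h) h1
    · exact h
  have hb := H p χ hprim h1 hsq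
  rw [lbound_LFunction_eq χ h1 (by simp)] at hb
  have t := sieg_tend (a := fun n => χ n) (lbound_char_shift χ h1)
  obtain ⟨G, hG⟩ : ∃ G, G = lbound_G (fun n : ℕ => χ n) 1 := ⟨_, rfl⟩
  rw [← hG] at hb t
  have t' : Tendsto (fun N : ℕ => ((∑ n ∈ Icc 1 N, (leg p n : ℝ) / n : ℝ) : ℂ)) atTop (𝓝 G) := by
    refine t.congr fun N => ?_
    push_cast
    exact sum_congr rfl fun n _ => by rw [hv]
  have tr : Tendsto (fun N : ℕ => ∑ n ∈ Icc 1 N, (leg p n : ℝ) / n) atTop (𝓝 G.re) := by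
    simpa only [Function.comp_def, Complex.ofReal_re] using
      (Complex.continuous_re.tendsto G).comp t'
  have tc : Tendsto (fun N : ℕ => ((∑ n ∈ Icc 1 N, (leg p n : ℝ) / n : ℝ) : ℂ)) atTop
      (𝓝 (G.re : ℂ)) := (Complex.continuous_ofReal.tendsto _).comp tr
  have e : G = (G.re : ℂ) := tendsto_nhds_unique t' tc
  refine ⟨G.re, ?_, tr⟩
  rw [e, Complex.norm_real, Real.norm_eq_abs] at hb
  exact hb

end Pool.Agent.G60
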