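import Pool.Agent.MP_b5e119_nt.G60.Defs

namespace Pool.Agent.G60

open Finset

theorem cheb_one (c : ℕ) (hc : 2 ≤ c) :
    c ≤ 4 * Nat.log 2 c * #{q ∈ range (c + 1) | q.Prime} := by
  set S : Finset ℕ := {q ∈ range (c + 1) | q.Prime} with hS
  have e : Nat.primesLE c = S := by
    ext q
    simp only [Nat.mem_primesLE, hS, mem_filter, mem_range, Nat.lt_succ_iff]
  have h1 : 1 ≤ #S := card_pos.2 ⟨2, mem_filter.2 ⟨mem_range.2 (by omega), Nat.prime_two⟩⟩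
  have l1 : 1 ≤ Nat.log 2 c := Nat.le_log_of_pow_le (by norm_num) (by simpa using hc)
  have h2 : c + 1 ≤ 2 ^ (Nat.log 2 c + 1) := Nat.lt_pow_succ_log_self (by norm_num) c
  have h3 : Nat.lcmUpto c ≤ (2 ^ (Nat.log 2 c + 1)) ^ #S := by
    rw [Nat.lcmUpto_eq_prod_pow_log, e]
    exact prod_le_pow_card _ _ _ fun q _ => (Nat.pow_log_le_self q (by omega)).trans (by omega)
  have h4 : 2 ^ c ≤ 2 ^ ((Nat.log 2 c + 1) * (#S + 1)) := by
    refine (Chebyshev.two_pow_le_mul_lcmUpto c).trans ?_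
    rw [pow_mul, pow_succ' _ (#S)]
    exact Nat.mul_le_mul h2 h3
  have h5 := (Nat.pow_le_pow_iff_right (by norm_num : 1 < 2)).1 h4
  calc c ≤ (Nat.log 2 c + 1) * (#S + 1) := h5
    _ ≤ (2 * Nat.log 2 c) * (2 * #S) := Nat.mul_le_mul (by omega) (by omega)
    _ = 4 * Nat.log 2 c * #S := by ring

theorem cheb_two (j : ℕ) (hj : 1 ≤ j) :
    ∑ q ∈ Ioc (2 ^ j : ℕ) (2 ^ (j + 1)) with q.Prime, 1 / ((q : ℕ) : ℝ) ≤ 4 / j := by
  set S : Finset ℕ := {q ∈ Ioc (2 ^ j : ℕ) (2 ^ (j + 1)) | q.Prime} with hS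
  have h1 : (2 ^ j) ^ #S ≤ ∏ q ∈ S, q :=
    pow_card_le_prod _ _ _ fun q hq => (mem_Ioc.1 (mem_filter.1 hq).1).1.le
  have h2 : ∏ q ∈ S, q ≤ primorial (2 ^ (j + 1)) := by
    unfold primorial
    refine prod_le_prod_of_subset_of_one_le' (fun q hq => ?_) fun q hq _ =>
      (mem_filter.1 hq).2.one_le
    obtain ⟨a, b⟩ := mem_filter.1 hq
    exact mem_filter.2 ⟨mem_range.2 (Nat.lt_succ_of_le (mem_Ioc.1 a).2), b⟩
  have h3 : 2 ^ (j * #S) ≤ 2 ^ (4 * 2 ^ j) := by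
    rw [pow_mul]
    refine h1.trans (h2.trans ((primorial_le_four_pow _).trans_eq ?_))
    rw [show (4 : ℕ) = 2 ^ 2 by norm_num, ← pow_mul]
    congr 1
    ring
  have h4 : (j : ℝ) * #S ≤ 4 * 2 ^ j := by
    exact_mod_cast (Nat.pow_le_pow_iff_right (by norm_num : 1 < 2)).1 h3
  have j0 : (0 : ℝ) < j := by exact_mod_cast hj
  have h5 : ∑ q ∈ S, 1 / ((q : ℕ) : ℝ) ≤ #S • (1 / (2 : ℝ) ^ j) :=
    sum_le_card_nsmul _ _ _ fun q hq => by
      refine one_div_le_one_div_of_le (by positivity) ?_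
      exact_mod_cast (mem_Ioc.1 (mem_filter.1 hq).1).1.le
  refine h5.trans ?_
  rw [nsmul_eq_mul, mul_one_div, div_le_div_iff₀ (by positivity) j0]
  linarith

theorem cheb_three (u : ℕ) (hu : 0 < u) : #{q ∈ u.divisors | q.Prime} ≤ Nat.log 2 u := by
  rw [← Nat.primeFactors_eq_to_filter_divisors_prime]
  refine Nat.le_log_of_pow_le (by norm_num) ?_
  exact (pow_card_le_prod _ _ _ fun q hq => (Nat.prime_of_mem_primeFactors hq).two_le).trans
    (Nat.le_of_dvd hu (Nat.prod_primeFactors_dvd u))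

theorem cheb_row : CHEB_s := ⟨cheb_one, cheb_two, cheb_three⟩

end Pool.Agent.G60
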