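import Pool.Agent.MP_b5e119_nt.G60.Defs

namespace Pool.Agent.G60

open Finset

theorem hyp_row : HYP_s := by
  intro a b x U hU hUx
  have h0 : ∑ n ∈ Icc 1 x, ∑ y ∈ n.divisorsAntidiagonal, a y.1 * b y.2 =
      ∑ z ∈ (Icc 1 x ×ˢ Icc 1 x) with z.1 * z.2 ≤ x, a z.1 * b z.2 := by
    rw [← sum_fiberwise_of_maps_to (s := {z ∈ (Icc 1 x ×ˢ Icc 1 x) | z.1 * z.2 ≤ x})
      (t := Icc 1 x) (g := fun z : ℕ × ℕ => z.1 * z.2)]
    · refine sum_congr rfl fun n hn => sum_congr ?_ fun _ _ => rfl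
      ext z
      simp only [mem_Icc] at hn
      simp only [Nat.mem_divisorsAntidiagonal, mem_filter, mem_product, mem_Icc]
      constructor
      · rintro ⟨h, hn0⟩
        have h1 : 0 < z.1 := Nat.pos_of_ne_zero fun e => hn0 (by rw [← h, e, zero_mul])
        have h2 : 0 < z.2 := Nat.pos_of_ne_zero fun e => hn0 (by rw [← h, e, mul_zero])
        have h3 : z.1 ≤ z.1 * z.2 := Nat.le_mul_of_pos_right _ h2
        have h4 : z.2 ≤ z.1 * z.2 := Nat.le_mul_of_pos_left _ h1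
        refine ⟨⟨⟨⟨h1, ?_⟩, h2, ?_⟩, ?_⟩, h⟩ <;> omega
      · rintro ⟨_, h⟩
        exact ⟨h, by omega⟩
    · intro z hz
      simp only [mem_filter, mem_product, mem_Icc] at hz ⊢
      exact ⟨Nat.mul_pos hz.1.1.1 hz.1.2.1, hz.2⟩
  rw [h0, ← sum_filter_add_sum_filter_not _ (fun z : ℕ × ℕ => z.1 ≤ U)]
  have h1 : ∑ z ∈ {z ∈ (Icc 1 x ×ˢ Icc 1 x) | z.1 * z.2 ≤ x} with z.1 ≤ U, a z.1 * b z.2 =
      ∑ d ∈ Icc 1 U, a d * ∑ m ∈ Icc 1 (x / d), b m := by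
    rw [sum_finset_product _ (Icc 1 U) (fun d => Icc 1 (x / d))]
    · exact sum_congr rfl fun d _ => by rw [mul_sum]
    · intro z
      simp only [mem_filter, mem_product, mem_Icc]
      constructor
      · rintro ⟨⟨⟨⟨h1, _⟩, h2, _⟩, h3⟩, h4⟩
        exact ⟨⟨h1, h4⟩, h2, (Nat.le_div_iff_mul_le h1).2 (by rwa [mul_comm])⟩
      · rintro ⟨⟨h1, h4⟩, h2, h3⟩
        exact ⟨⟨⟨⟨h1, h4.trans hUx⟩, h2, h3.trans (Nat.div_le_self _ _)⟩,
          by rw [mul_comm]; exact (Nat.le_div_iff_mul_le h1).1 h3⟩, h4⟩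
  have h2 : ∑ z ∈ {z ∈ (Icc 1 x ×ˢ Icc 1 x) | z.1 * z.2 ≤ x} with ¬z.1 ≤ U, a z.1 * b z.2 =
      ∑ m ∈ Icc 1 (x / U), b m * (∑ d ∈ Icc 1 (x / m), a d - ∑ d ∈ Icc 1 U, a d) := by
    rw [sum_finset_product_right _ (Icc 1 (x / U)) (fun m => Icc 1 (x / m) \ Icc 1 U)]
    · refine sum_congr rfl fun m hm => ?_
      simp only [mem_Icc] at hm
      have hs : Icc 1 U ⊆ Icc 1 (x / m) := Icc_subset_Icc_right
        ((Nat.le_div_iff_mul_le hm.1).2 (by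
          rw [mul_comm]; exact (Nat.le_div_iff_mul_le hU).1 hm.2))
      rw [← sum_sdiff_eq_sub hs, mul_sum]
      exact sum_congr rfl fun d _ => mul_comm _ _
    · intro z
      simp only [mem_filter, mem_product, mem_Icc, mem_sdiff]
      constructor
      · rintro ⟨⟨⟨⟨h1, _⟩, h2, _⟩, h3⟩, h4⟩
        refine ⟨⟨h2, (Nat.le_div_iff_mul_le hU).2 ?_⟩,
          ⟨h1, (Nat.le_div_iff_mul_le h2).2 h3⟩, fun h => h4 h.2⟩
        rw [mul_comm]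
        exact (Nat.mul_le_mul_right _ (not_le.1 h4).le).trans h3
      · rintro ⟨⟨h2, h5⟩, ⟨h1, h3⟩, h4⟩
        exact ⟨⟨⟨⟨h1, h3.trans (Nat.div_le_self _ _)⟩, h2, h5.trans (Nat.div_le_self _ _)⟩,
          (Nat.le_div_iff_mul_le h2).1 h3⟩, fun h => h4 ⟨h1, h⟩⟩
  rw [h1, h2]

end Pool.Agent.G60
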