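import Pool.Agent.MP_b5e119_nt.G60.Defs

/-! h60g row LIO. -/

namespace Pool.Agent.G60

open Finset Filter Topology

noncomputable section

theorem lio_abs (n : ℕ) : |(lam n : ℝ)| = 1 := by
  rcases lam_cases n with h | h <;> simp [h]

theorem lio_triv (x : ℕ) : |∑ n ∈ Icc 1 x, (lam n : ℝ)| ≤ x := by
  refine (abs_sum_le_sum_abs _ _).trans ?_
  simp [lio_abs]

theorem lio_harm (N : ℕ) : ∑ n ∈ Icc 1 N, (1 / n : ℝ) ≤ 1 + Real.log N := by
  have := harmonic_le_one_add_log N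
  rw [harmonic_eq_sum_Icc] at this
  push_cast at this
  simpa using this

theorem lio_abel (x : ℕ) : (∑ n ∈ Icc 1 x, (lam n : ℝ)) * Real.log x =
    ∑ n ∈ Icc 1 x, (lam n : ℝ) * Real.log n +
      ∑ n ∈ Icc 1 x, (∑ m ∈ Icc 1 n, (lam m : ℝ)) * (Real.log (n + 1) - Real.log n) -
        (∑ n ∈ Icc 1 x, (lam n : ℝ)) * (Real.log (x + 1) - Real.log x) := by
  induction x with
  | zero => simp
  | succ x ih =>
    rw [sum_Icc_succ_top (by omega : 1 ≤ x + 1) (fun n : ℕ => (lam n : ℝ) * Real.log n),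
      sum_Icc_succ_top (by omega : 1 ≤ x + 1)
        (fun n : ℕ => (∑ m ∈ Icc 1 n, (lam m : ℝ)) * (Real.log (n + 1) - Real.log n)),
      sum_Icc_succ_top (by omega : 1 ≤ x + 1) (fun n : ℕ => (lam n : ℝ))]
    push_cast
    linarith

theorem lio_logd (n : ℕ) (hn : 1 ≤ n) :
    0 ≤ Real.log (n + 1) - Real.log n ∧ Real.log (n + 1) - Real.log n ≤ 1 / n := by
  have h0 : (0 : ℝ) < n := by exact_mod_cast hn
  refine ⟨sub_nonneg.2 (Real.log_le_log h0 (by linarith)), ?_⟩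
  rw [← Real.log_div (by positivity) h0.ne']
  refine (Real.log_le_sub_one_of_pos (by positivity)).trans (le_of_eq ?_)
  field_simp
  ring

theorem lio_conv (n : ℕ) : (lam n : ℝ) * Real.log n =
    ∑ y ∈ n.divisorsAntidiagonal,
      ((lam y.1 : ℝ) * ArithmeticFunction.vonMangoldt y.1 + 1) * (lam y.2 : ℝ) -
        ((∑ d ∈ n.divisors, lam d : ℤ) : ℝ) := by
  have h1 : ∑ y ∈ n.divisorsAntidiagonal, (lam y.2 : ℝ) = ∑ d ∈ n.divisors, (lam d : ℝ) :=
    Nat.sum_divisorsAntidiagonal' (fun _ b => (lam b : ℝ))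
  have h2 : ∑ y ∈ n.divisorsAntidiagonal, ArithmeticFunction.vonMangoldt y.1 =
      ∑ d ∈ n.divisors, ArithmeticFunction.vonMangoldt d :=
    Nat.sum_divisorsAntidiagonal (fun a _ => ArithmeticFunction.vonMangoldt a)
  rw [ArithmeticFunction.vonMangoldt_sum] at h2
  push_cast
  rw [← h1, ← h2, ← sum_sub_distrib, mul_sum]
  refine sum_congr rfl fun y hy => ?_
  obtain ⟨e, h0⟩ := Nat.mem_divisorsAntidiagonal.1 hy
  have ha : y.1 ≠ 0 := fun h => h0 (by rw [← e, h, zero_mul])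
  have hb : y.2 ≠ 0 := fun h => h0 (by rw [← e, h, mul_zero])
  rw [← e, lam_mul ha hb]
  push_cast
  ring

theorem lio_g (d : ℕ) : |(lam d : ℝ) * ArithmeticFunction.vonMangoldt d + 1| ≤ 1 + Real.log d := by
  refine (abs_add_le _ _).trans ?_
  rw [abs_mul, lio_abs, abs_of_nonneg ArithmeticFunction.vonMangoldt_nonneg, abs_one]
  have := ArithmeticFunction.vonMangoldt_le_log (n := d)
  linarith

/-- The combinatorial inequality: `L x * log x` in terms of uniform bounds. -/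
theorem lio_main (hSQ : SQ_s) (hH : HYP_s) (x D : ℕ) (α E β u : ℝ) (hD : 0 < D) (hDx : D ≤ x)
    (hα : 0 ≤ α) (hE : 0 ≤ E) (hβ : 0 ≤ β) (hu : Real.log D ≤ u)
    (hL : ∀ n : ℕ, |∑ m ∈ Icc 1 n, (lam m : ℝ)| ≤ α * n + E)
    (hG : ∀ y : ℕ, D ≤ y →
      |∑ d ∈ Icc 1 y, ((lam d : ℝ) * ArithmeticFunction.vonMangoldt d + 1)| ≤ β * y) :
    |∑ n ∈ Icc 1 x, (lam n : ℝ)| * Real.log x ≤
      √x + (α * x + E * (1 + Real.log x) + 1) + (1 + u) * (α * x * (1 + u) + D * E) +
        β * x * (2 + Real.log x) := by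
  have hx : 1 ≤ x := hD.trans_le hDx
  have hx0 : (0 : ℝ) < x := by exact_mod_cast hx
  have hD0 : (0 : ℝ) < D := by exact_mod_cast hD
  have hlx : 0 ≤ Real.log x := Real.log_natCast_nonneg x
  have hlD : 0 ≤ Real.log D := Real.log_natCast_nonneg D
  have e1 : ∑ n ∈ Icc 1 x, (lam n : ℝ) * Real.log n =
      (∑ d ∈ Icc 1 D, ((lam d : ℝ) * ArithmeticFunction.vonMangoldt d + 1) *
          ∑ m ∈ Icc 1 (x / d), (lam m : ℝ) +
        ∑ m ∈ Icc 1 (x / D), (lam m : ℝ) *
          (∑ d ∈ Icc 1 (x / m), ((lam d : ℝ) * ArithmeticFunction.vonMangoldt d + 1) -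
            ∑ d ∈ Icc 1 D, ((lam d : ℝ) * ArithmeticFunction.vonMangoldt d + 1))) -
        ((∑ n ∈ Icc 1 x, ∑ d ∈ n.divisors, lam d : ℤ) : ℝ) := by
    rw [← hH (fun d => (lam d : ℝ) * ArithmeticFunction.vonMangoldt d + 1)
      (fun m => (lam m : ℝ)) x D hD hDx, Int.cast_sum, ← sum_sub_distrib]
    exact sum_congr rfl fun n _ => lio_conv n
  have b1 : |∑ d ∈ Icc 1 D, ((lam d : ℝ) * ArithmeticFunction.vonMangoldt d + 1) *
      ∑ m ∈ Icc 1 (x / d), (lam m : ℝ)| ≤ (1 + u) * (α * x * (1 + u) + D * E) := by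
    refine (abs_sum_le_sum_abs _ _).trans ?_
    have : ∀ d ∈ Icc 1 D, |((lam d : ℝ) * ArithmeticFunction.vonMangoldt d + 1) *
        ∑ m ∈ Icc 1 (x / d), (lam m : ℝ)| ≤ (1 + u) * (α * x * (1 / d) + E) := by
      intro d hd
      obtain ⟨h1, h2⟩ := mem_Icc.1 hd
      have hd0 : (0 : ℝ) < d := by exact_mod_cast h1
      have h3 : Real.log d ≤ Real.log D := Real.log_le_log hd0 (by exact_mod_cast h2)
      have h4 : ((x / d : ℕ) : ℝ) ≤ x * (1 / d) := by
        rw [mul_one_div]; exact Nat.cast_div_le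
      rw [abs_mul]
      refine mul_le_mul ((lio_g d).trans (by linarith)) ((hL _).trans ?_) (abs_nonneg _)
        (by linarith)
      have := mul_le_mul_of_nonneg_left h4 hα
      linarith
    refine (sum_le_sum this).trans ?_
    rw [← mul_sum, sum_add_distrib, ← mul_sum]
    simp only [sum_const, Nat.card_Icc, Nat.add_sub_cancel, nsmul_eq_mul]
    have h5 := lio_harm D
    have h6 : α * x * ∑ n ∈ Icc 1 D, (1 / n : ℝ) ≤ α * x * (1 + u) :=
      mul_le_mul_of_nonneg_left (by linarith) (by positivity)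
    exact mul_le_mul_of_nonneg_left (by linarith) (by linarith)
  have b2 : |∑ m ∈ Icc 1 (x / D), (lam m : ℝ) *
      (∑ d ∈ Icc 1 (x / m), ((lam d : ℝ) * ArithmeticFunction.vonMangoldt d + 1) -
        ∑ d ∈ Icc 1 D, ((lam d : ℝ) * ArithmeticFunction.vonMangoldt d + 1))| ≤
          β * x * (2 + Real.log x) := by
    refine (abs_sum_le_sum_abs _ _).trans ?_
    have : ∀ m ∈ Icc 1 (x / D), |(lam m : ℝ) *
        (∑ d ∈ Icc 1 (x / m), ((lam d : ℝ) * ArithmeticFunction.vonMangoldt d + 1) -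
          ∑ d ∈ Icc 1 D, ((lam d : ℝ) * ArithmeticFunction.vonMangoldt d + 1))| ≤
            β * x * (1 / m) + β * D := by
      intro m hm
      obtain ⟨h1, h2⟩ := mem_Icc.1 hm
      have h3 : D ≤ x / m := by
        rw [Nat.le_div_iff_mul_le h1, mul_comm]
        exact (Nat.le_div_iff_mul_le hD).1 h2
      have h4 : ((x / m : ℕ) : ℝ) ≤ x * (1 / m) := by
        rw [mul_one_div]; exact Nat.cast_div_le
      rw [abs_mul, lio_abs, one_mul]
      refine (abs_sub _ _).trans (add_le_add ((hG _ h3).trans ?_) (hG D le_rfl))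
      have := mul_le_mul_of_nonneg_left h4 hβ
      linarith
    refine (sum_le_sum this).trans ?_
    rw [sum_add_distrib, ← mul_sum]
    simp only [sum_const, Nat.card_Icc, Nat.add_sub_cancel, nsmul_eq_mul]
    have h5 : ∑ n ∈ Icc 1 (x / D), (1 / n : ℝ) ≤ 1 + Real.log x :=
      (sum_le_sum_of_subset_of_nonneg (Icc_subset_Icc_right (Nat.div_le_self _ _))
        fun _ _ _ => by positivity).trans (lio_harm x)
    have h6 := mul_le_mul_of_nonneg_left h5 (by positivity : 0 ≤ β * x)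
    have h7 : ((x / D : ℕ) : ℝ) * D ≤ x := by exact_mod_cast Nat.div_mul_le_self x D
    have h8 := mul_le_mul_of_nonneg_left h7 hβ
    nlinarith
  have b3 : |∑ n ∈ Icc 1 x, (∑ m ∈ Icc 1 n, (lam m : ℝ)) * (Real.log (n + 1) - Real.log n)| ≤
      α * x + E * (1 + Real.log x) := by
    refine (abs_sum_le_sum_abs _ _).trans ?_
    have : ∀ n ∈ Icc 1 x, |(∑ m ∈ Icc 1 n, (lam m : ℝ)) * (Real.log (n + 1) - Real.log n)| ≤
        α + E * (1 / n) := by
      intro n hn
      have h1 := (mem_Icc.1 hn).1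
      have hn0 : (0 : ℝ) < n := by exact_mod_cast h1
      obtain ⟨h2, h3⟩ := lio_logd n h1
      rw [abs_mul, abs_of_nonneg h2]
      refine (mul_le_mul (hL n) h3 h2 (by positivity)).trans (le_of_eq ?_)
      field_simp
    refine (sum_le_sum this).trans ?_
    rw [sum_add_distrib, ← mul_sum]
    simp only [sum_const, Nat.card_Icc, Nat.add_sub_cancel, nsmul_eq_mul]
    have h6 := mul_le_mul_of_nonneg_left (lio_harm x) hE
    linarith
  have b4 : |(∑ n ∈ Icc 1 x, (lam n : ℝ)) * (Real.log (x + 1) - Real.log x)| ≤ 1 := by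
    obtain ⟨h2, h3⟩ := lio_logd x hx
    rw [abs_mul, abs_of_nonneg h2]
    refine (mul_le_mul (lio_triv x) h3 h2 hx0.le).trans (le_of_eq ?_)
    field_simp
  obtain ⟨s1, s2⟩ := hSQ x
  have s1' : (0 : ℝ) ≤ ((∑ n ∈ Icc 1 x, ∑ d ∈ n.divisors, lam d : ℤ) : ℝ) := by exact_mod_cast s1
  rw [← abs_of_nonneg hlx, ← abs_mul, abs_of_nonneg hlx, lio_abel, e1, abs_le]
  rw [abs_le] at b1 b2 b3 b4
  have := Real.sqrt_nonneg (x : ℝ)
  constructor <;> linarith [b1.1, b1.2, b2.1, b2.2, b3.1, b3.2, b4.1, b4.2]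

theorem lio_step (hSQ : SQ_s) (hH : HYP_s) (h1 : LIO1_s) (k : ℕ) (C : ℝ) (hC : 0 < C)
    (hL : ∀ (x : ℕ) (v : ℝ), 0 < v → v ^ 4 ≤ Real.log x →
      |∑ n ∈ Icc 1 x, (lam n : ℝ)| ≤ C * x / v ^ k) :
    ∃ C' : ℝ, 0 < C' ∧ ∀ (x : ℕ) (v : ℝ), 0 < v → v ^ 4 ≤ Real.log x →
      |∑ n ∈ Icc 1 x, (lam n : ℝ)| ≤ C' * x / v ^ (k + 1) := by
  obtain ⟨C₁, hC₁, hG⟩ := h1 (k + 4)
  have hk : (0 : ℝ) < k.factorial := by exact_mod_cast k.factorial_pos
  refine ⟨(7 * k.factorial + 3 * C + 32 * C₁ + 2) * 2 ^ k, by positivity, fun x v hv hvx => ?_⟩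
  have hlx : 0 < Real.log x := lt_of_lt_of_le (by positivity) hvx
  have hx0 : (0 : ℝ) < x := by
    rcases Nat.eq_zero_or_pos x with h | h
    · simp [h] at hlx
    · exact_mod_cast h
  obtain ⟨u, hu0, hu⟩ : ∃ u : ℝ, 0 < u ∧ u ^ 4 = Real.log x := by
    refine ⟨√(√(Real.log x)), by positivity, ?_⟩
    rw [show (4 : ℕ) = 2 * 2 from rfl, pow_mul, Real.sq_sqrt (Real.sqrt_nonneg _),
      Real.sq_sqrt hlx.le]
  have hvu : v ≤ u := by
    rw [← hu] at hvx
    exact le_of_pow_le_pow_left₀ (by norm_num) hu0.le hvx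
  refine le_trans ?_ (div_le_div_of_nonneg_left (by positivity) (by positivity)
    (pow_le_pow_left₀ hv.le hvu (k + 1)))
  rw [le_div_iff₀ (by positivity)]
  rcases le_or_gt u 2 with h2 | h2
  · have h3 : u ^ (k + 1) ≤ 2 ^ (k + 1) := pow_le_pow_left₀ hu0.le h2 _
    calc _ ≤ (x : ℝ) * 2 ^ (k + 1) := mul_le_mul (lio_triv x) h3 (by positivity) hx0.le
      _ = 2 * 2 ^ k * x := by ring
      _ ≤ _ := by
        gcongr
        have : 0 ≤ 7 * (k.factorial : ℝ) + 3 * C + 32 * C₁ := by positivity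
        linarith
  have hxe : (x : ℝ) = Real.exp (u ^ 4) := by rw [hu, Real.exp_log hx0]
  have hu3 : 8 ≤ u ^ 3 := by
    have := pow_le_pow_left₀ (by norm_num : (0 : ℝ) ≤ 2) h2.le 3
    linarith
  have hu4 : 8 * u ≤ u ^ 4 := by nlinarith
  set w := u / 2 with hw
  have hw0 : 0 < w := by positivity
  have he1 : 1 ≤ Real.exp w := Real.one_le_exp hw0.le
  have he2 : 2 ≤ Real.exp w := by have := Real.add_one_le_exp w; linarith
  have hee : Real.exp u = Real.exp w * Real.exp w := by rw [← Real.exp_add, hw]; ring_nf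
  have hD1 : (⌊Real.exp u⌋₊ : ℝ) ≤ Real.exp u := Nat.floor_le (Real.exp_pos u).le
  have hD2 : Real.exp w ≤ (⌊Real.exp u⌋₊ : ℝ) := by
    have := Nat.lt_floor_add_one (Real.exp u)
    nlinarith
  set D := ⌊Real.exp u⌋₊ with hDdef
  have hD0 : (0 : ℝ) < D := by linarith
  have hD : 0 < D := by exact_mod_cast hD0
  have hD3 : 2 ≤ D := by exact_mod_cast he2.trans hD2
  have hDx : D ≤ x := by
    have : Real.exp u ≤ Real.exp (u ^ 4) := Real.exp_le_exp.2 (by linarith)
    exact_mod_cast (hD1.trans this).trans hxe.ge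
  have hlD : Real.log D ≤ u := by
    rw [Real.log_le_iff_le_exp hD0]; exact hD1
  have hm := lio_main hSQ hH x D (C / w ^ k) (Real.exp (w ^ 4)) (C₁ / w ^ (k + 4)) u hD hDx
    (by positivity) (by positivity) (by positivity) hlD
    (fun n => by
      rcases le_or_gt (w ^ 4) (Real.log n) with h | h
      · refine (hL n w hw0 h).trans ?_
        have := Real.exp_pos (w ^ 4)
        rw [mul_div_right_comm]
        linarith
      · refine (lio_triv n).trans ?_
        have h3 : (n : ℝ) ≤ Real.exp (w ^ 4) := by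
          rcases Nat.eq_zero_or_pos n with h0 | h0
          · simp [h0, (Real.exp_pos _).le]
          · exact (Real.log_le_iff_le_exp (by exact_mod_cast h0)).1 h.le
        have : 0 ≤ C / w ^ k * n := by positivity
        linarith)
    (fun y hy => by
      refine (hG y (hD3.trans hy)).trans ?_
      have hy' : (D : ℝ) ≤ y := by exact_mod_cast hy
      have h3 : w ≤ Real.log y := by
        rw [Real.le_log_iff_exp_le (by linarith)]; linarith
      rw [← mul_div_right_comm]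
      exact div_le_div_of_nonneg_left (by positivity) (by positivity)
        (pow_le_pow_left₀ hw0.le h3 _))
  rw [← hu] at hm
  set R := Real.exp (u ^ 4 / 2) with hR
  have hR1 : 1 ≤ R := Real.one_le_exp (by positivity)
  have hw4 : w ^ 4 = u ^ 4 / 16 := by rw [hw]; ring
  have j1 : √(x : ℝ) = R := by
    rw [hxe, hR, Real.sqrt_eq_iff_mul_self_eq (Real.exp_pos _).le (Real.exp_pos _).le,
      ← Real.exp_add]
    ring_nf
  have jE : Real.exp (w ^ 4) * Real.exp (u ^ 4 / 4) ≤ R := by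
    rw [← Real.exp_add, hR, hw4]
    exact Real.exp_le_exp.2 (by nlinarith)
  have hE0 := Real.exp_pos (w ^ 4)
  have j2 : Real.exp (w ^ 4) * (1 + u ^ 4) ≤ 4 * R := by
    have := Real.add_one_le_exp (u ^ 4 / 4)
    have h3 : 1 + u ^ 4 ≤ 4 * Real.exp (u ^ 4 / 4) := by linarith
    have := mul_le_mul_of_nonneg_left h3 hE0.le
    linarith
  have j3 : (1 + u) * (D * Real.exp (w ^ 4)) ≤ R := by
    have h3 : 1 + u ≤ Real.exp u := by have := Real.add_one_le_exp u; linarith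
    have h4 : (1 + u) * D ≤ Real.exp (u ^ 4 / 4) := by
      refine (mul_le_mul h3 hD1 hD0.le (Real.exp_pos _).le).trans ?_
      rw [← Real.exp_add]
      exact Real.exp_le_exp.2 (by linarith)
    have := mul_le_mul_of_nonneg_left h4 hE0.le
    nlinarith
  set y := (x : ℝ) / w ^ k with hy
  have hy0 : 0 < y := by positivity
  have j4 : R ≤ k.factorial * y := by
    have h3 := Real.pow_div_factorial_le_exp w hw0.le k
    rw [div_le_iff₀ hk] at h3
    rw [hy, ← mul_div_assoc, le_div_iff₀ (by positivity), hxe]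
    have h4 : R * Real.exp w ≤ Real.exp (u ^ 4) := by
      rw [hR, ← Real.exp_add]
      exact Real.exp_le_exp.2 (by linarith)
    calc R * w ^ k ≤ R * (Real.exp w * k.factorial) := by gcongr
      _ = k.factorial * (R * Real.exp w) := by ring
      _ ≤ _ := by gcongr
  have j5 : C / w ^ k * x = C * y := by rw [hy]; ring
  have j6 : C₁ / w ^ (k + 4) * x * (2 + u ^ 4) ≤ 32 * C₁ * y := by
    have : C₁ / w ^ (k + 4) * x * (2 + u ^ 4) = C₁ * y * ((2 + u ^ 4) / w ^ 4) := by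
      rw [hy, pow_add w k 4]; field_simp
    rw [this]
    have h3 : (2 + u ^ 4) / w ^ 4 ≤ 32 := by
      rw [div_le_iff₀ (by positivity), hw4]; linarith
    have := mul_le_mul_of_nonneg_left h3 (by positivity : 0 ≤ C₁ * y)
    linarith
  rw [j1, j5] at hm
  have j7 : (1 + u) * (C * y * (1 + u)) ≤ 2 * C * y * u ^ 3 := by
    have h3 : (1 + u) * (1 + u) ≤ 2 * u ^ 3 := by nlinarith
    have := mul_le_mul_of_nonneg_left h3 (by positivity : 0 ≤ C * y)
    linarith
  have j8 : (7 * k.factorial + C + 32 * C₁) * y ≤ (7 * k.factorial + C + 32 * C₁) * y * u ^ 3 :=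
    le_mul_of_one_le_right (by positivity) (by linarith)
  have j9 : |∑ n ∈ Icc 1 x, (lam n : ℝ)| * u * u ^ 3 ≤
      (7 * k.factorial + 3 * C + 32 * C₁) * y * u ^ 3 := by
    have : |∑ n ∈ Icc 1 x, (lam n : ℝ)| * u * u ^ 3 = |∑ n ∈ Icc 1 x, (lam n : ℝ)| * u ^ 4 := by
      ring
    rw [this]
    rw [mul_add (1 + u)] at hm
    linarith
  have j10 := le_of_mul_le_mul_right j9 (by positivity)
  have hxy : (x : ℝ) * 2 ^ k = y * u ^ k := by
    rw [hy, hw, div_pow]; field_simp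
  calc _ = |∑ n ∈ Icc 1 x, (lam n : ℝ)| * u * u ^ k := by ring
    _ ≤ (7 * k.factorial + 3 * C + 32 * C₁) * y * u ^ k := by gcongr
    _ = (7 * k.factorial + 3 * C + 32 * C₁) * (x * 2 ^ k) := by rw [hxy]; ring
    _ ≤ (7 * k.factorial + 3 * C + 32 * C₁ + 2) * (x * 2 ^ k) :=
      mul_le_mul_of_nonneg_right (by linarith) (by positivity)
    _ = _ := by ring

theorem lio_row (hSQ : SQ_s) (hH : HYP_s) (h1 : LIO1_s) : LIO_s := by
  have key : ∀ k : ℕ, ∃ C : ℝ, 0 < C ∧ ∀ (x : ℕ) (v : ℝ), 0 < v → v ^ 4 ≤ Real.log x →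
      |∑ n ∈ Icc 1 x, (lam n : ℝ)| ≤ C * x / v ^ k := by
    intro k
    induction k with
    | zero => exact ⟨1, one_pos, fun x v _ _ => by simpa using lio_triv x⟩
    | succ k ih =>
      obtain ⟨C, hC, h⟩ := ih
      exact lio_step hSQ hH h1 k C hC h
  intro A
  obtain ⟨C, hC, h⟩ := key (4 * A)
  refine ⟨C, hC, fun x hx => ?_⟩
  have hlx : 0 < Real.log x := Real.log_pos (by exact_mod_cast hx)
  have e : √(√(Real.log x)) ^ 4 = Real.log x := by
    rw [show (4 : ℕ) = 2 * 2 from rfl, pow_mul, Real.sq_sqrt (Real.sqrt_nonneg _),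
      Real.sq_sqrt hlx.le]
  have := h x √(√(Real.log x)) (by positivity) e.le
  rwa [pow_mul, e] at this

end

end Pool.Agent.G60
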