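import Pool.Agent.MP_b5e119_nt.G60.Defs
import Pool.Agent.MP_5d10af_nt.Mg.Q2_Rem

namespace Pool.Agent.G60

open Finset Filter Topology

theorem lio1_abs (d : ℕ) : |(lam d : ℝ)| = 1 := by
  simp [lam, abs_pow]

theorem lio1_split (y : ℕ) :
    |∑ d ∈ Icc 1 y, ((lam d : ℝ) * ArithmeticFunction.vonMangoldt d + 1)| ≤
      |Chebyshev.theta y - y| + (Chebyshev.psi y - Chebyshev.theta y) := by
  have hI : Icc 1 y = Ioc 0 y := by ext n; simp only [mem_Icc, mem_Ioc]; omega
  have h1 : ∑ d ∈ Icc 1 y, ((lam d : ℝ) * ArithmeticFunction.vonMangoldt d + 1) =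
      -(Chebyshev.theta y - y) +
        ∑ d ∈ Ioc 0 y with ¬d.Prime, (lam d : ℝ) * ArithmeticFunction.vonMangoldt d := by
    rw [sum_add_distrib, hI, ← sum_filter_add_sum_filter_not (Ioc 0 y) Nat.Prime, Chebyshev.theta,
      Nat.floor_natCast]
    have h2 : ∑ d ∈ Ioc 0 y with d.Prime, (lam d : ℝ) * ArithmeticFunction.vonMangoldt d =
        -∑ d ∈ Ioc 0 y with d.Prime, Real.log d := by
      rw [← sum_neg_distrib]
      refine sum_congr rfl fun d hd => ?_
      have hp := (mem_filter.1 hd).2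
      rw [ArithmeticFunction.vonMangoldt_apply_prime hp, lam,
        ArithmeticFunction.cardFactors_apply_prime hp]
      simp
    rw [h2]
    simp only [sum_const, Nat.card_Ioc, Nat.sub_zero, nsmul_eq_mul, mul_one]
    ring
  rw [h1, Chebyshev.psi_sub_theta_eq_sum_not_prime, Nat.floor_natCast]
  refine (abs_add_le _ _).trans (add_le_add (by rw [abs_neg]) ?_)
  refine (abs_sum_le_sum_abs _ _).trans (le_of_eq (sum_congr rfl fun d _ => ?_))
  rw [abs_mul, lio1_abs, one_mul, abs_of_nonneg ArithmeticFunction.vonMangoldt_nonneg]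

theorem lio1_ev (B : ℕ) : ∀ᶠ y : ℝ in atTop, 2 * √y * Real.log y ≤ y / Real.log y ^ B := by
  have h := (Real.isLittleO_pow_log_id_atTop (n := 2 * (B + 1))).bound (c := 1 / 4) (by norm_num)
  filter_upwards [h, eventually_gt_atTop 1] with y hy h1
  have hl := Real.log_pos h1
  have hy0 : 0 < y := by linarith
  rw [Real.norm_of_nonneg (by positivity), id, Real.norm_of_nonneg hy0.le] at hy
  have hs : 0 < √y := Real.sqrt_pos.2 hy0
  have hss : √y * √y = y := Real.mul_self_sqrt hy0.le
  have h2 : 2 * Real.log y ^ (B + 1) ≤ √y := by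
    refine Real.le_sqrt_of_sq_le ?_
    rw [mul_pow, ← pow_mul, mul_comm (B + 1) 2]
    linarith
  rw [le_div_iff₀ (by positivity)]
  calc 2 * √y * Real.log y * Real.log y ^ B = √y * (2 * Real.log y ^ (B + 1)) := by ring
    _ ≤ √y * √y := by gcongr
    _ = y := hss

theorem lio1_row : LIO1_s := by
  intro B
  obtain ⟨y0, hy0⟩ := eventually_atTop.1 ((MP_5d10af_nt.Q2.theta_pnt B).and
    ((lio1_ev B).and (eventually_ge_atTop 2)))
  obtain ⟨N, hN⟩ := exists_nat_ge y0
  set g : ℕ → ℝ := fun y =>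
    |∑ d ∈ Icc 1 y, ((lam d : ℝ) * ArithmeticFunction.vonMangoldt d + 1)| * Real.log y ^ B / y with hg
  have hg0 : ∀ y : ℕ, 0 ≤ g y := fun y => by
    have := Real.log_natCast_nonneg y
    simp only [hg]; positivity
  refine ⟨2 + ∑ y ∈ range N, g y, by have := sum_nonneg fun y (_ : y ∈ range N) => hg0 y; linarith,
    fun y hy => ?_⟩
  have hy2 : (2 : ℝ) ≤ y := by exact_mod_cast hy
  have hl : 0 < Real.log y := Real.log_pos (by linarith)
  have hS : 0 ≤ ∑ y ∈ range N, g y := sum_nonneg fun y _ => hg0 y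
  have key : g y ≤ 2 + ∑ y ∈ range N, g y := by
    rcases lt_or_ge y N with h | h
    · have := single_le_sum (f := g) (fun y _ => hg0 y) (mem_range.2 h)
      linarith
    · have hyy : y0 ≤ y := hN.trans (by exact_mod_cast h)
      obtain ⟨h1, h2, -⟩ := hy0 y hyy
      have h3 := h1 y le_rfl
      have h4 := Chebyshev.psi_sub_theta_le (x := y) (by linarith)
      have h5 := lio1_split y
      have h6 : g y ≤ 2 := by
        simp only [hg]
        rw [div_le_iff₀ (by linarith), ← le_div_iff₀ (by positivity), mul_div_assoc]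
        linarith
      linarith
  simp only [hg] at key
  rw [div_le_iff₀ (by linarith), ← le_div_iff₀ (by positivity)] at key
  exact key

end Pool.Agent.G60
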