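import Pool.Agent.MP_b5e119_nt.G60.Defs

namespace Pool.Agent.G60

open Finset

theorem mon_row : MON_s := by
  intro M d e e' hd
  refine card_le_card_of_injOn (fun a => a * d) (fun a ha => ?_)
    fun a _ b _ h => Nat.eq_of_mul_eq_mul_right hd h
  obtain ⟨h1, h2, h3⟩ := mem_filter.1 (mem_coe.1 ha)
  obtain ⟨h4, h5⟩ := mem_Icc.1 h1
  have h6 : a * d < M * d := Nat.mul_lt_mul_of_pos_right (by omega) hd
  have h7 : 0 < a * d := Nat.mul_pos h4 hd
  refine mem_coe.2 (mem_filter.2 ⟨mem_Icc.2 ⟨h7, Nat.le_sub_one_of_lt h6⟩, ?_, ?_⟩)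
  · rw [lam_mul (by omega) hd.ne', h2, mul_comm]
  · rw [← Nat.sub_mul, lam_mul (by omega) hd.ne', h3, mul_comm]

end Pool.Agent.G60
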