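import Pool.Agent.MP_b5e119_nt.G60.Defs

namespace Pool.Agent.G60

open Finset

theorem smo_key {q : ℕ} (hq : 0 < q) (t t' e e' : ℕ) (hn : ¬q ∣ t) (h : t * q ^ e = t' * q ^ e') :
    e' ≤ e := by
  by_contra hlt
  obtain ⟨d, rfl⟩ := Nat.exists_eq_add_of_lt (not_le.1 hlt)
  apply hn
  have : t = t' * q ^ d * q := by
    apply Nat.eq_of_mul_eq_mul_right (pow_pos hq e)
    rw [h]; ring
  rw [this]; exact Dvd.intro_left _ rfl

theorem smo_row : SMO_s := by
  intro k
  induction k with
  | zero =>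
    exact ⟨1, fun E => ⟨{1}, by simp, fun t ht =>
      ⟨[], by simpa using (mem_singleton.1 ht).symm, by simp, by simp⟩⟩⟩
  | succ k ih =>
    obtain ⟨y, hy⟩ := ih
    obtain ⟨q, hq, hp⟩ := Nat.exists_infinite_primes (y + 1)
    refine ⟨q, fun E => ?_⟩
    obtain ⟨T, hT, hl⟩ := hy E
    have hnd : ∀ t ∈ T, ¬q ∣ t := by
      intro t ht hd
      obtain ⟨l, rfl, -, h⟩ := hl t ht
      obtain ⟨x, hx, hdx⟩ := (Prime.dvd_prod_iff hp.prime).1 hd
      have h1 := Nat.le_of_dvd (h x hx).1 hdx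
      have h2 := (h x hx).2
      omega
    refine ⟨(T ×ˢ range E).image fun z => z.1 * q ^ z.2, ?_, ?_⟩
    · rw [card_image_of_injOn, card_product, hT, card_range, pow_succ]
      rintro ⟨t, e⟩ h1 ⟨t', e'⟩ h2 h
      have h1' : t ∈ T := (mem_product.1 (mem_coe.1 h1)).1
      have h2' : t' ∈ T := (mem_product.1 (mem_coe.1 h2)).1
      have h' : t * q ^ e = t' * q ^ e' := h
      have he : e = e' := le_antisymm (smo_key hp.pos _ _ _ _ (hnd _ h2') h'.symm)
        (smo_key hp.pos _ _ _ _ (hnd _ h1') h')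
      subst he
      rw [Nat.eq_of_mul_eq_mul_right (pow_pos hp.pos e) h']
    · intro s hs
      obtain ⟨⟨t, e⟩, h1, rfl⟩ := mem_image.1 hs
      obtain ⟨l, h0, h2, h3⟩ := hl t (mem_product.1 h1).1
      have he : e < E := mem_range.1 (mem_product.1 h1).2
      refine ⟨l ++ List.replicate e q, by simp [h0], ?_, ?_⟩
      · rw [List.length_append, List.length_replicate, add_mul]; omega
      · intro x hx
        rcases List.mem_append.1 hx with hx | hx
        · have := h3 x hx; omega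
        · rw [List.eq_of_mem_replicate hx]; exact ⟨hp.pos, le_rfl⟩

end Pool.Agent.G60
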