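import Pool.Agent.MP_b5e119_nt.G60.Defs

/-! Row TAIL of campaign h60g: the tail of `∑ a n / n` by partial summation. -/

namespace Pool.Agent.G60

open Finset Filter Topology

theorem tail_step (a : ℕ → ℝ) (N : ℕ) (hN : 0 < N) :
    (∑ n ∈ Icc 1 (N + 1), a n / n - (∑ n ∈ Icc 1 (N + 1), a n) / ((N + 1 : ℕ) : ℝ)) -
      (∑ n ∈ Icc 1 N, a n / n - (∑ n ∈ Icc 1 N, a n) / (N : ℝ)) =
        (∑ n ∈ Icc 1 N, a n) / ((N : ℝ) * (N + 1)) := by
  have h0 : (0 : ℝ) < N := by exact_mod_cast hN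
  rw [sum_Icc_succ_top (by omega), sum_Icc_succ_top (by omega)]
  push_cast
  field_simp
  ring

theorem tail_log (N : ℕ) (hN : 0 < N) :
    1 / ((N : ℝ) + 1) ≤ Real.log ((N + 1 : ℕ) : ℝ) - Real.log N := by
  have h0 : (0 : ℝ) < N := by exact_mod_cast hN
  have h := Real.log_le_sub_one_of_pos (x := (N : ℝ) / (N + 1)) (by positivity)
  rw [Real.log_div h0.ne' (by positivity)] at h
  have e : (N : ℝ) / (N + 1) - 1 = -(1 / ((N : ℝ) + 1)) := by field_simp; ring
  push_cast
  linarith

theorem tail_row : TAIL_s := by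
  intro a L δ Q U M hU hUM hδ h1 h2 hL
  obtain ⟨S, hS⟩ : ∃ S : ℕ → ℝ, S = fun N => ∑ n ∈ Icc 1 N, a n := ⟨_, rfl⟩
  obtain ⟨T, hT⟩ : ∃ T : ℕ → ℝ, T = fun N => ∑ n ∈ Icc 1 N, a n / n := ⟨_, rfl⟩
  have st : ∀ N, 0 < N → (T (N + 1) - S (N + 1) / ((N + 1 : ℕ) : ℝ)) - (T N - S N / N) =
      S N / ((N : ℝ) * (N + 1)) := fun N hN => by
    rw [hS, hT]; exact tail_step a N hN
  have g1 : ∀ N, U ≤ N → |S N| ≤ δ * N := fun N hN => by rw [hS]; exact h1 N hN
  have g2 : ∀ N, |S N| ≤ Q := fun N => by rw [hS]; exact h2 N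
  have c1 : ∀ N, U ≤ N →
      |(T N - S N / N) - (T U - S U / U)| ≤ δ * (Real.log N - Real.log U) := by
    intro N hN
    induction N, hN using Nat.le_induction with
    | base => simp
    | succ N hN ih =>
      have hN0 : 0 < N := by omega
      have h0 : (0 : ℝ) < N := by exact_mod_cast hN0
      have b : |S N / ((N : ℝ) * (N + 1))| ≤ δ * (1 / ((N : ℝ) + 1)) := by
        rw [abs_div, abs_of_pos (by positivity : (0 : ℝ) < N * (N + 1)),
          div_le_iff₀ (by positivity)]
        refine (g1 N hN).trans (le_of_eq ?_)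
        field_simp
      have b2 := mul_le_mul_of_nonneg_left (tail_log N hN0) hδ
      have e := st N hN0
      rw [abs_le] at b ih ⊢
      constructor <;> nlinarith [b.1, b.2, ih.1, ih.2]
  have c2 : ∀ N, M ≤ N → |(T N - S N / N) - (T M - S M / M)| ≤ Q / M - Q / N := by
    intro N hN
    induction N, hN using Nat.le_induction with
    | base => simp
    | succ N hN ih =>
      have hN0 : 0 < N := by omega
      have h0 : (0 : ℝ) < N := by exact_mod_cast hN0
      have b : |S N / ((N : ℝ) * (N + 1))| ≤ Q / N - Q / ((N + 1 : ℕ) : ℝ) := by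
        rw [abs_div, abs_of_pos (by positivity : (0 : ℝ) < N * (N + 1)),
          div_le_iff₀ (by positivity)]
        refine (g2 N).trans (le_of_eq ?_)
        push_cast
        field_simp
        ring
      have e := st N hN0
      rw [abs_le] at b ih ⊢
      constructor <;> linarith [b.1, b.2, ih.1, ih.2]
  have hU0 : (0 : ℝ) < U := by exact_mod_cast hU
  have lU : 0 ≤ Real.log U := Real.log_natCast_nonneg U
  have sU : |S U / U| ≤ δ := by
    rw [abs_div, abs_of_pos hU0, div_le_iff₀ hU0]; exact g1 U le_rfl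
  have fin : ∀ N, M ≤ N → |T N - T U| ≤ δ * (2 + Real.log M) + Q / M := by
    intro N hN
    have h0 : (0 : ℝ) < N := by exact_mod_cast (by omega : 0 < N)
    have sN : |S N / N| ≤ Q / N := by
      rw [abs_div, abs_of_pos h0]; exact div_le_div_of_nonneg_right (g2 N) h0.le
    have d1 := c1 M hUM
    have d2 := c2 N hN
    have d3 := mul_nonneg hδ lU
    rw [abs_le] at sN d1 d2 sU ⊢
    constructor <;> nlinarith [sN.1, sN.2, d1.1, d1.2, d2.1, d2.2, sU.1, sU.2]
  have lim : Tendsto (fun N => |T N - T U|) atTop (𝓝 |L - T U|) := by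
    refine (Tendsto.sub ?_ tendsto_const_nhds).abs
    rw [hT]; exact hL
  have := le_of_tendsto lim (eventually_atTop.2 ⟨M, fin⟩)
  rw [hT] at this
  exact this

end Pool.Agent.G60
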