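import Pool.Agent.MP_b5e119_nt.G60.Defs

/-! Row MU of campaign h60g: the spectral measure has mass one and sees the defect `bad`. -/

namespace Pool.Agent.G60

open Finset

theorem mu_ff_cases (p : ℕ) (a : ZMod p) (ha : a ≠ 0) : ff p a = 1 ∨ ff p a = -1 := by
  unfold ff; rw [if_neg ha]; exact lam_cases _

theorem mu_ff_zero (p : ℕ) : ff p 0 = 0 := by simp [ff]

theorem mu_norm (p : ℕ) [Fact p.Prime] (a : ZMod p) :
    ‖((ff p a : ℤ) : ℂ)‖ ^ 2 = 1 - if a = 0 then (1 : ℝ) else 0 := by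
  by_cases ha : a = 0
  · subst ha; simp [mu_ff_zero]
  · rw [if_neg ha]
    rcases mu_ff_cases p a ha with h | h <;> rw [h] <;> simp

theorem mu_pos (p : ℕ) [hp : Fact p.Prime] : (0 : ℝ) < (p : ℝ) - 1 := by
  have : (2 : ℝ) ≤ p := by exact_mod_cast hp.out.two_le
  linarith

theorem mu_diff (p : ℕ) [Fact p.Prime] (m : ℕ) (hm : (m : ZMod p) ≠ 0) (a : ZMod p) :
    ‖((ff p ((m : ZMod p) * a) : ℤ) : ℂ) - (lam m : ℂ) * ((ff p a : ℤ) : ℂ)‖ ^ 2 =
      if ff p ((m : ZMod p) * a) ≠ lam m * ff p a then (4 : ℝ) else 0 := by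
  by_cases ha : a = 0
  · subst ha; simp [mu_ff_zero]
  · have h4 : ‖(2 : ℂ)‖ ^ 2 = 4 := by
      rw [Complex.norm_two]; norm_num
    have h5 : ‖(-2 : ℂ)‖ ^ 2 = 4 := by rw [norm_neg, h4]
    rcases mu_ff_cases p a ha with h | h <;>
      rcases mu_ff_cases p _ (mul_ne_zero hm ha) with h' | h' <;>
      rcases lam_cases m with h'' | h'' <;> rw [h, h', h''] <;> norm_num

theorem mu_row (hPAR : PAR_s) : MU_s := by
  intro p hp
  obtain ⟨h1, h2⟩ := hPAR p
  have hf := h1 (fun a => ((ff p a : ℤ) : ℂ)) (by simp [mu_ff_zero])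
  refine ⟨?_, fun m hm => ?_⟩
  · have h := h2 (co p (fun a => ((ff p a : ℤ) : ℂ)))
    simp only [← hf, mu_norm] at h
    rw [Finset.sum_sub_distrib, Finset.sum_ite_eq' Finset.univ (0 : ZMod p),
      if_pos (Finset.mem_univ _), Finset.sum_const, Finset.card_univ, ZMod.card, nsmul_eq_mul,
      mul_one] at h
    have h3 : ((p : ℝ) - 1) * ∑ χ : Ch p, mu p χ = ((p : ℝ) - 1) * 1 := by
      rw [mul_one]; exact h.symm
    exact mul_left_cancel₀ (mu_pos p).ne' h3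
  · have hm' : (m : ZMod p) ≠ 0 := fun h => hm ((ZMod.natCast_eq_zero_iff m p).mp h)
    have h := h2 (fun χ => co p (fun a => ((ff p a : ℤ) : ℂ)) χ * (χ (m : ZMod p) - (lam m : ℂ)))
    have h3 : ∀ a : ZMod p, ∑ χ : Ch p, co p (fun a => ((ff p a : ℤ) : ℂ)) χ *
        (χ (m : ZMod p) - (lam m : ℂ)) * χ a =
        ((ff p ((m : ZMod p) * a) : ℤ) : ℂ) - (lam m : ℂ) * ((ff p a : ℤ) : ℂ) := fun a => by
      rw [hf ((m : ZMod p) * a), hf a, Finset.mul_sum, ← Finset.sum_sub_distrib]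
      refine Finset.sum_congr rfl fun χ _ => ?_
      rw [map_mul]; ring
    simp only [h3, mu_diff p m hm'] at h
    rw [← Finset.sum_filter, Finset.sum_const, nsmul_eq_mul] at h
    simp only [norm_mul, mul_pow] at h
    unfold mu bad
    rw [← h, mul_comm]

end Pool.Agent.G60
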