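import Pool.Agent.MP_b5e119_nt.G60.Defs

/-! Row PAR of campaign h60g: Fourier inversion and Parseval for characters modulo a prime. -/

namespace Pool.Agent.G60

open Finset

theorem par_cast (p : ℕ) [hp : Fact p.Prime] : ((p - 1 : ℕ) : ℂ) = (p : ℂ) - 1 := by
  rw [Nat.cast_sub hp.out.one_le]; simp

theorem par_ne (p : ℕ) [hp : Fact p.Prime] : (p : ℂ) - 1 ≠ 0 := by
  rw [← par_cast]
  have := hp.out.two_le
  exact Nat.cast_ne_zero.mpr (by omega)

theorem par_conj (p : ℕ) [Fact p.Prime] (χ : Ch p) (a : ZMod p) :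
    (starRingEnd ℂ) (χ a) = χ⁻¹ a := MulChar.star_apply' χ a

theorem par_orth1 (p : ℕ) [hp : Fact p.Prime] (a b : ZMod p) (hb : b ≠ 0) :
    ∑ χ : Ch p, (starRingEnd ℂ) (χ b) * χ a = if b = a then (p : ℂ) - 1 else 0 := by
  have h := DirichletCharacter.sum_char_inv_mul_char_eq ℂ (n := p) (a := b)
    (IsUnit.mk0 b hb) a
  rw [Nat.totient_prime hp.out, par_cast] at h
  rw [← h]
  refine Finset.sum_congr rfl fun χ _ => ?_
  rw [par_conj, MulChar.inv_apply']

open Classical in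
theorem par_orth2 (p : ℕ) [hp : Fact p.Prime] (χ ψ : Ch p) :
    ∑ a : ZMod p, χ a * (starRingEnd ℂ) (ψ a) = if χ = ψ then (p : ℂ) - 1 else 0 := by
  have h : ∀ a : ZMod p, χ a * (starRingEnd ℂ) (ψ a) = (χ * ψ⁻¹) a := fun a => by
    rw [par_conj, MulChar.mul_apply]
  simp only [h]
  split_ifs with hc
  · subst hc
    rw [mul_inv_cancel, MulChar.sum_one_eq_card_units, ZMod.card_units, par_cast]
  · exact MulChar.sum_eq_zero_of_ne_one fun h1 => hc (mul_inv_eq_one.mp h1)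

theorem par_inv (p : ℕ) [hp : Fact p.Prime] (g : ZMod p → ℂ) (hg : g 0 = 0) (a : ZMod p) :
    g a = ∑ χ : Ch p, co p g χ * χ a := by
  have h1 : ∑ χ : Ch p, co p g χ * χ a =
      (∑ b : ZMod p, g b * ∑ χ : Ch p, (starRingEnd ℂ) (χ b) * χ a) / ((p : ℂ) - 1) := by
    simp only [co, Finset.mul_sum]
    rw [Finset.sum_comm, Finset.sum_div]
    refine Finset.sum_congr rfl fun χ _ => ?_
    rw [div_mul_eq_mul_div, Finset.sum_mul]
    simp only [mul_assoc]
  have h2 : ∀ b : ZMod p, g b * ∑ χ : Ch p, (starRingEnd ℂ) (χ b) * χ a =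
      if b = a then g a * ((p : ℂ) - 1) else 0 := fun b => by
    by_cases hb : b = 0
    · subst hb
      split_ifs with h
      · rw [← h, hg]; simp
      · rw [hg]; simp
    · rw [par_orth1 p a b hb]
      split_ifs with h
      · rw [h]
      · simp
  rw [h1]
  simp only [h2]
  rw [Finset.sum_ite_eq' Finset.univ a, if_pos (Finset.mem_univ a),
    mul_div_cancel_right₀ _ (par_ne p)]

theorem par_sq (z : ℂ) : ((‖z‖ ^ 2 : ℝ) : ℂ) = z * (starRingEnd ℂ) z := by
  rw [Complex.mul_conj, Complex.normSq_eq_norm_sq]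

open Classical in
theorem par_pars (p : ℕ) [hp : Fact p.Prime] (d : Ch p → ℂ) :
    ∑ a : ZMod p, ‖∑ χ : Ch p, d χ * χ a‖ ^ 2 = ((p : ℝ) - 1) * ∑ χ : Ch p, ‖d χ‖ ^ 2 := by
  apply Complex.ofReal_injective
  rw [Complex.ofReal_mul, Complex.ofReal_sum, Complex.ofReal_sum]
  simp only [par_sq]
  have h1 : ∀ a : ZMod p, (∑ χ : Ch p, d χ * χ a) * (starRingEnd ℂ) (∑ χ : Ch p, d χ * χ a) =
      ∑ χ : Ch p, ∑ ψ : Ch p, (d χ * (starRingEnd ℂ) (d ψ)) * (χ a * (starRingEnd ℂ) (ψ a)) :=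
    fun a => by
      rw [map_sum, Finset.sum_mul_sum]
      refine Finset.sum_congr rfl fun χ _ => Finset.sum_congr rfl fun ψ _ => ?_
      rw [map_mul]; ring
  simp only [h1]
  rw [Finset.sum_comm, Finset.mul_sum]
  refine Finset.sum_congr rfl fun χ _ => ?_
  rw [Finset.sum_comm]
  have h2 : ∀ ψ : Ch p, ∑ a : ZMod p, (d χ * (starRingEnd ℂ) (d ψ)) * (χ a * (starRingEnd ℂ) (ψ a)) =
      if χ = ψ then (d χ * (starRingEnd ℂ) (d χ)) * ((p : ℂ) - 1) else 0 := fun ψ => by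
    rw [← Finset.mul_sum, par_orth2]
    split_ifs with h
    · rw [h]
    · simp
  simp only [h2]
  rw [Finset.sum_ite_eq Finset.univ χ, if_pos (Finset.mem_univ χ)]
  push_cast
  ring

theorem par_row : PAR_s := fun p _ => ⟨fun g hg a => par_inv p g hg a, fun d => par_pars p d⟩

end Pool.Agent.G60
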