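import Pool.Agent.MP_b5e119_nt.G60.Defs

namespace Pool.Agent.G60

open Finset

theorem sub_lam_mul {m n : ℕ} (hm : m ≠ 0) (hn : n ≠ 0) : lam (m * n) = lam m * lam n := by
  unfold lam
  rw [ArithmeticFunction.cardFactors_mul hm hn, pow_add]

theorem sub_card (p : ℕ) [Fact p.Prime] {c : ℕ} (hc : ¬p ∣ c) (P : ZMod p → Prop)
    [DecidablePred P] : #{a : ZMod p | P ((c : ZMod p) * a)} ≤ #{a : ZMod p | P a} := by
  have h0 : (c : ZMod p) ≠ 0 := fun h => hc ((ZMod.natCast_eq_zero_iff c p).1 h)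
  refine card_le_card_of_injOn (fun a => (c : ZMod p) * a) (fun a ha => ?_) fun a _ b _ h => ?_
  · simpa using ha
  · exact mul_left_cancel₀ h0 h

theorem sub_two (p : ℕ) [Fact p.Prime] (m m' : ℕ) (hm : ¬p ∣ m) (hm' : ¬p ∣ m') :
    bad p (m * m') ≤ bad p m + bad p m' := by
  have h0 : m ≠ 0 := fun h => hm (h ▸ dvd_zero p)
  have h0' : m' ≠ 0 := fun h => hm' (h ▸ dvd_zero p)
  have h1 := sub_card p hm' fun a => ff p ((m : ZMod p) * a) ≠ lam m * ff p a
  refine le_trans ?_ (add_le_add h1 le_rfl)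
  unfold bad
  refine le_trans (card_le_card fun a ha => ?_) (card_union_le _ _)
  simp only [mem_filter, mem_univ, true_and, mem_union] at ha ⊢
  by_contra hn
  rw [not_or, not_not, not_not] at hn
  apply ha
  rw [Nat.cast_mul, mul_assoc, hn.1, hn.2, sub_lam_mul h0 h0', mul_assoc]

theorem sub_row : SUB_s := by
  intro p hp
  have h1 : bad p 1 = 0 := by
    unfold bad
    rw [card_eq_zero, filter_eq_empty_iff]
    intro a _
    simp [lam]
  refine ⟨h1, sub_two p, fun l β => ?_⟩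
  suffices h : (∀ x ∈ l, ¬p ∣ x ∧ bad p x ≤ β) → ¬p ∣ l.prod ∧ bad p l.prod ≤ l.length * β from
    fun hl => (h hl).2
  induction l with
  | nil =>
    intro _
    exact ⟨by simpa using hp.out.ne_one, by simp [h1]⟩
  | cons x l ih =>
    intro hl
    obtain ⟨i1, i2⟩ := ih fun y hy => hl y (List.mem_cons_of_mem _ hy)
    obtain ⟨j1, j2⟩ := hl x List.mem_cons_self
    rw [List.prod_cons, List.length_cons]
    refine ⟨fun h => ((Nat.Prime.dvd_mul hp.out).1 h).elim j1 i1, ?_⟩
    have := sub_two p x l.prod j1 i1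
    rw [Nat.add_mul, one_mul]
    omega

end Pool.Agent.G60
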