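import Pool.Agent.MP_b5e119_nt.G60.Defs

namespace Pool.Agent.G60

open Finset

theorem tr_lam_mul {m n : ℕ} (hm : m ≠ 0) (hn : n ≠ 0) : lam (m * n) = lam m * lam n := by
  unfold lam
  rw [ArithmeticFunction.cardFactors_mul hm hn, pow_add]

theorem tr_card (p : ℕ) [Fact p.Prime] {c : ℕ} (hc : ¬p ∣ c) (P : ZMod p → Prop)
    [DecidablePred P] : #{a : ZMod p | P ((c : ZMod p) * a)} ≤ #{a : ZMod p | P a} := by
  have h0 : (c : ZMod p) ≠ 0 := fun h => hc ((ZMod.natCast_eq_zero_iff c p).1 h)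
  refine card_le_card_of_injOn (fun a => (c : ZMod p) * a) (fun a ha => ?_) fun a _ b _ h => ?_
  · simpa using ha
  · exact mul_left_cancel₀ h0 h

theorem tr_small (p : ℕ) [Fact p.Prime] {m : ℕ} (hm : m ≠ 0) (c : ZMod p) (h : m * c.val < p) :
    ff p ((m : ZMod p) * c) = lam m * ff p c := by
  by_cases hc : c = 0
  · simp [ff, hc]
  have hv : c.val ≠ 0 := fun e => hc ((ZMod.val_eq_zero c).1 e)
  have e : ((m : ZMod p) * c).val = m * c.val := by
    have : (m : ZMod p) * c = ((m * c.val : ℕ) : ZMod p) := by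
      rw [Nat.cast_mul, ZMod.natCast_zmod_val]
    rw [this, ZMod.val_natCast, Nat.mod_eq_of_lt h]
  have hne : (m : ZMod p) * c ≠ 0 := fun e' => by
    rw [e', ZMod.val_zero] at e
    exact mul_ne_zero hm hv e.symm
  unfold ff
  rw [if_neg hne, if_neg hc, e, tr_lam_mul hm hv]

theorem tr_window (p : ℕ) [Fact p.Prime] {m : ℕ} (hm : m ≠ 0) (b : ZMod p) {σ : ℤ} (hσ : σ ≠ 0)
    (h : m * b.valMinAbs.natAbs < p) (h1 : ff p (-b) = σ * ff p b)
    (h2 : ff p (-((m : ZMod p) * b)) = σ * ff p ((m : ZMod p) * b)) :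
    ff p ((m : ZMod p) * b) = lam m * ff p b := by
  by_cases hb : b = 0
  · simp [ff, hb]
  rw [ZMod.valMinAbs_natAbs_eq_min] at h
  rcases le_total b.val (p - b.val) with hle | hle
  · rw [min_eq_left hle] at h
    exact tr_small p hm b h
  · rw [min_eq_right hle] at h
    have hv : (-b).val = p - b.val := by rw [ZMod.neg_val, if_neg hb]
    have := tr_small p hm (-b) (by rwa [hv])
    rw [mul_neg, h2, h1, mul_left_comm] at this
    exact mul_left_cancel₀ hσ this

variable [Sg]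

theorem tr_row : TR_s := by
  classical
  intro p hp m S hm hS
  have h0 : m ≠ 0 := fun h => hm (h ▸ dvd_zero p)
  let A : ℕ → Finset (ZMod p) := fun s =>
    ((univ.filter fun a : ZMod p => ff p ((s : ZMod p) * a) ≠ lam s * ff p a) ∪
      (univ.filter fun a : ZMod p =>
        ff p ((s : ZMod p) * ((m : ZMod p) * a)) ≠ lam s * ff p ((m : ZMod p) * a))) ∪
    ((univ.filter fun a : ZMod p => ff p (-((s : ZMod p) * a)) ≠ Sg.s * ff p ((s : ZMod p) * a)) ∪
      (univ.filter fun a : ZMod p =>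
        ff p (-(((m * s : ℕ) : ZMod p) * a)) ≠ Sg.s * ff p (((m * s : ℕ) : ZMod p) * a)))
  have hA : ∀ s ∈ S, #(A s) ≤ 2 * bad p s + 2 * od p := by
    intro s hs
    have i1 := tr_card p hm fun a => ff p ((s : ZMod p) * a) ≠ lam s * ff p a
    have i2 := tr_card p (hS s hs) fun a => ff p (-a) ≠ Sg.s * ff p a
    have i3 := tr_card p (c := m * s)
      (fun h => ((Nat.Prime.dvd_mul hp.out).1 h).elim hm (hS s hs)) fun a => ff p (-a) ≠ Sg.s * ff p a
    refine (card_union_le _ _).trans ((add_le_add (card_union_le _ _) (card_union_le _ _)).trans ?_)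
    unfold bad od
    omega
  refine le_trans ?_ (add_le_add le_rfl ((card_biUnion_le (s := S) (t := A)).trans (sum_le_sum hA)))
  unfold bad far
  refine le_trans (card_le_card fun a ha => ?_) (card_union_le _ _)
  rw [mem_union, mem_biUnion]
  by_contra hn
  rw [not_or] at hn
  obtain ⟨n1, n2⟩ := hn
  simp only [mem_filter, mem_univ, true_and, not_forall, not_le] at ha n1
  obtain ⟨s, hs, hw⟩ := n1
  have n3 : a ∉ A s := fun h => n2 ⟨s, hs, h⟩
  simp only [A, mem_union, mem_filter, mem_univ, true_and, not_or, not_not] at n3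
  obtain ⟨⟨e1, e2⟩, e3, e4⟩ := n3
  rw [Nat.cast_mul, mul_assoc] at e4
  have hσ : (Sg.s : ℤ) ≠ 0 := by rcases Sg.hs with h | h <;> rw [h] <;> norm_num
  have e5 := tr_window p h0 _ hσ hw e3 e4
  apply ha
  have hl : lam s ≠ 0 := by
    unfold lam
    exact pow_ne_zero _ (by norm_num)
  apply mul_left_cancel₀ hl
  rw [← e2, mul_left_comm (s : ZMod p), e5, e1, mul_left_comm]

end Pool.Agent.G60
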