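import Pool.Agent.MP_b5e119_nt.G60.Defs

namespace Pool.Agent.G60

open Finset

theorem bur2_abs_leg (p : ℕ) [Fact p.Prime] (n : ℕ) : |(leg p n : ℝ)| ≤ 1 := by
  unfold leg
  rcases eq_or_ne (((n : ℤ)) : ZMod p) 0 with h | h
  · rw [(legendreSym.eq_zero_iff p _).2 h]; simp
  · rcases legendreSym.eq_one_or_neg_one p h with h1 | h1 <;> rw [h1] <;> simp

/-- The second moment bound in real form, over a set of distinct residues. -/
theorem bur2_sec (hSEC : SEC_s) (hU : UNIQ_s) (p : ℕ) [Fact p.Prime] (hp : 2 < p) {ι : Type}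
    (A : Finset ι) (u : ι → ℕ) (hu : Set.InjOn (fun a => ((u a : ℕ) : ZMod p)) A) (c H : ℕ)
    (hc : ¬p ∣ c) (hH : H ≤ p) :
    ∑ a ∈ A, (∑ j ∈ range H, (leg p (u a + j * c) : ℝ)) ^ 2 ≤ p * H := by
  classical
  obtain ⟨χ, hχ, -, hl, -⟩ := hU p hp
  have h := hSEC p χ c H hχ hc hH
  have e : ∀ a, (∑ j ∈ range H, (leg p (u a + j * c) : ℝ)) ^ 2 =
      ‖∑ j ∈ range H, χ (((u a : ℕ) : ZMod p) + (j : ZMod p) * c)‖ ^ 2 := by
    intro a
    have : ∑ j ∈ range H, χ (((u a : ℕ) : ZMod p) + (j : ZMod p) * c) =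
        ((∑ j ∈ range H, (leg p (u a + j * c) : ℝ) : ℝ) : ℂ) := by
      push_cast
      refine sum_congr rfl fun j _ => ?_
      rw [← hl]; push_cast; rfl
    rw [this, Complex.norm_real, Real.norm_eq_abs, sq_abs]
  simp_rw [e]
  refine le_trans ?_ h
  rw [← sum_image (f := fun x : ZMod p => ‖∑ j ∈ range H, χ (x + (j : ZMod p) * c)‖ ^ 2) hu]
  exact sum_le_sum_of_subset_of_nonneg (subset_univ _) fun _ _ _ => by positivity

theorem bur2_period (hU : UNIQ_s) (p : ℕ) [Fact p.Prime] (hp : 2 < p) (N : ℕ) :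
    ∑ n ∈ range p, (leg p (N + n) : ℝ) = 0 := by
  obtain ⟨χ, hχ, -, hl, -⟩ := hU p hp
  have h0 : ∑ a : ZMod p, χ a = 0 := MulChar.sum_eq_zero_of_ne_one hχ
  have h1 : ∑ n ∈ range p, χ (((N + n : ℕ)) : ZMod p) = ∑ a : ZMod p, χ a := by
    refine sum_bij' (fun n _ => ((N + n : ℕ) : ZMod p)) (fun a _ => (a - N).val) ?_ ?_ ?_ ?_ ?_
    · intro _ _; exact mem_univ _
    · intro a _; exact mem_range.2 (ZMod.val_lt _)
    · intro n hn
      push_cast
      rw [add_sub_cancel_left, ZMod.val_natCast, Nat.mod_eq_of_lt (mem_range.1 hn)]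
    · intro a _
      push_cast
      rw [ZMod.natCast_zmod_val]; ring
    · intro _ _; rfl
  rw [h0] at h1
  have h2 : ((∑ n ∈ range p, (leg p (N + n) : ℝ) : ℝ) : ℂ) = 0 := by
    rw [← h1]; push_cast
    refine sum_congr rfl fun n _ => ?_
    rw [← hl]; push_cast; rfl
  exact_mod_cast h2

theorem bur2_abs_sum (p : ℕ) [Fact p.Prime] (N k : ℕ) :
    |∑ n ∈ range k, (leg p (N + n) : ℝ)| ≤ k := by
  refine (abs_sum_le_sum_abs _ _).trans ?_
  refine (sum_le_sum fun n _ => bur2_abs_leg p (N + n)).trans ?_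
  simp

theorem bur2_small (hSEC : SEC_s) (hU : UNIQ_s) (p : ℕ) [Fact p.Prime] (hp : 2 < p) (N H : ℕ)
    (hN : N ≤ p) (hH : H ≤ p) :
    (H : ℝ) * |∑ n ∈ range N, (leg p (1 + n) : ℝ)| ≤ p * √H + 2 * H ^ 2 := by
  have hc : ¬p ∣ 1 := fun h => by have := Nat.le_of_dvd one_pos h; omega
  have hinj : Set.InjOn (fun a : ℕ => ((1 + a : ℕ) : ZMod p)) (range N : Finset ℕ) := by
    intro a ha b hb hab
    have ha' : a < p := lt_of_lt_of_le (mem_range.1 (mem_coe.1 ha)) hN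
    have hb' : b < p := lt_of_lt_of_le (mem_range.1 (mem_coe.1 hb)) hN
    simp only [Nat.cast_add, Nat.cast_one, add_right_inj] at hab
    have := congrArg ZMod.val hab
    rwa [ZMod.val_natCast, ZMod.val_natCast, Nat.mod_eq_of_lt ha', Nat.mod_eq_of_lt hb'] at this
  have h := bur2_sec hSEC hU p hp (range N) (fun a => 1 + a) hinj 1 H hc hH
  have hcs := sq_sum_le_card_mul_sum_sq (s := range N)
    (f := fun a => ∑ j ∈ range H, (leg p (1 + a + j * 1) : ℝ))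
  rw [card_range] at hcs
  have hN' : (N : ℝ) ≤ p := by exact_mod_cast hN
  have hT : |∑ a ∈ range N, ∑ j ∈ range H, (leg p (1 + a + j * 1) : ℝ)| ≤ p * √H := by
    apply abs_le_of_sq_le_sq _ (by positivity)
    rw [mul_pow, Real.sq_sqrt (by positivity)]
    calc _ ≤ (N : ℝ) * ∑ a ∈ range N, (∑ j ∈ range H, (leg p (1 + a + j * 1) : ℝ)) ^ 2 := hcs
      _ ≤ (p : ℝ) * (p * H) := mul_le_mul hN' h (by positivity) (by positivity)
      _ = _ := by ring
  rw [sum_comm] at hT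
  have hj : ∀ j ∈ range H, |∑ n ∈ range N, (leg p (1 + n) : ℝ) -
      ∑ a ∈ range N, (leg p (1 + a + j * 1) : ℝ)| ≤ 2 * H := by
    intro j hj
    have hj' : (j : ℝ) ≤ H := by exact_mod_cast (mem_range.1 hj).le
    have e1 := sum_range_add (fun n => (leg p (1 + n) : ℝ)) N j
    have e2 := sum_range_add (fun n => (leg p (1 + n) : ℝ)) j N
    rw [add_comm j N, e1] at e2
    have e3 : ∑ a ∈ range N, (leg p (1 + a + j * 1) : ℝ) =
        ∑ a ∈ range N, (leg p (1 + (j + a)) : ℝ) :=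
      sum_congr rfl fun a _ => by rw [show 1 + a + j * 1 = 1 + (j + a) by ring]
    have e4 : ∑ a ∈ range j, (leg p (1 + (N + a)) : ℝ) =
        ∑ a ∈ range j, (leg p (1 + N + a) : ℝ) :=
      sum_congr rfl fun a _ => by rw [add_assoc]
    have b1 := abs_le.1 (bur2_abs_sum p 1 j)
    have b2 := abs_le.1 (bur2_abs_sum p (1 + N) j)
    rw [e3, abs_le]
    rw [e4] at e2
    constructor <;> linarith [b1.1, b1.2, b2.1, b2.2]
  have hsum : (H : ℝ) * ∑ n ∈ range N, (leg p (1 + n) : ℝ) =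
      ∑ j ∈ range H, ∑ a ∈ range N, (leg p (1 + a + j * 1) : ℝ) +
      ∑ j ∈ range H, (∑ n ∈ range N, (leg p (1 + n) : ℝ) -
        ∑ a ∈ range N, (leg p (1 + a + j * 1) : ℝ)) := by
    rw [← sum_add_distrib]; simp
  have hE : |∑ j ∈ range H, (∑ n ∈ range N, (leg p (1 + n) : ℝ) -
        ∑ a ∈ range N, (leg p (1 + a + j * 1) : ℝ))| ≤ 2 * H ^ 2 := by
    refine (abs_sum_le_sum_abs _ _).trans ((sum_le_sum hj).trans ?_)
    simp only [sum_const, card_range, nsmul_eq_mul]; nlinarith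
  calc (H : ℝ) * |∑ n ∈ range N, (leg p (1 + n) : ℝ)|
      = |(H : ℝ) * ∑ n ∈ range N, (leg p (1 + n) : ℝ)| := by
        rw [abs_mul, Nat.abs_cast]
    _ ≤ _ := by rw [hsum]; exact (abs_add_le _ _).trans (add_le_add hT hE)

theorem bur2_row (hSEC : SEC_s) (hUNIQ : UNIQ_s) : BUR2_s := by
  intro p _ N hp
  have e0 : ∀ N : ℕ, ∑ n ∈ Icc 1 N, (leg p n : ℝ) = ∑ n ∈ range N, (leg p (1 + n) : ℝ) := by
    intro N
    rw [← Finset.Ico_add_one_right_eq_Icc, sum_Ico_eq_sum_range]; simp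
  rw [e0]
  have hp0 : (0 : ℝ) < p := by exact_mod_cast (by omega : 0 < p)
  have hp1 : (1 : ℝ) ≤ p := by exact_mod_cast (by omega : 1 ≤ p)
  induction N using Nat.strong_induction_on with
  | _ N ih =>
    by_cases hN : N ≤ p
    · set y : ℝ := (p : ℝ) ^ (1 / 3 : ℝ) with hy
      have hy1 : 1 ≤ y := Real.one_le_rpow hp1 (by norm_num)
      have hy3 : y ^ 3 = p := by
        rw [hy, ← Real.rpow_natCast, ← Real.rpow_mul hp0.le]; norm_num
      have hy2 : (p : ℝ) ^ (2 / 3 : ℝ) = y ^ 2 := by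
        rw [hy, ← Real.rpow_natCast, ← Real.rpow_mul hp0.le]; norm_num
      rw [hy2]
      have hH1 : y ^ 2 ≤ (⌈y ^ 2⌉₊ : ℝ) := Nat.le_ceil _
      have hH2 : (⌈y ^ 2⌉₊ : ℝ) < y ^ 2 + 1 := Nat.ceil_lt_add_one (by positivity)
      have hHp : ⌈y ^ 2⌉₊ ≤ p := Nat.ceil_le.2 (by rw [← hy3]; nlinarith)
      have h := bur2_small hSEC hUNIQ p hp N ⌈y ^ 2⌉₊ hN hHp
      set H : ℝ := (⌈y ^ 2⌉₊ : ℝ)
      have hH0 : 0 < H := by nlinarith
      have hs : y ≤ √H := Real.le_sqrt_of_sq_le hH1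
      have hs2 : √H * √H = H := Real.mul_self_sqrt hH0.le
      have h3 : (p : ℝ) * √H ≤ H * y ^ 2 := by
        rw [← hy3]
        have : y * √H ≤ H := by nlinarith
        nlinarith [mul_le_mul_of_nonneg_right this (sq_nonneg y)]
      have h4 : 2 * H ^ 2 ≤ H * (4 * y ^ 2) := by nlinarith
      have h5 : H * |∑ n ∈ range N, (leg p (1 + n) : ℝ)| ≤ H * (5 * y ^ 2) := by nlinarith
      exact le_of_mul_le_mul_left h5 hH0
    · obtain ⟨M, rfl⟩ : ∃ M, N = M + p := ⟨N - p, by omega⟩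
      rw [sum_range_add]
      have e4 : ∑ a ∈ range p, (leg p (1 + (M + a)) : ℝ) =
          ∑ a ∈ range p, (leg p (1 + M + a) : ℝ) :=
        sum_congr rfl fun a _ => by rw [add_assoc]
      rw [e4, bur2_period hUNIQ p hp, add_zero]
      exact ih M (by omega)

end Pool.Agent.G60
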