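import Pool.Agent.MP_b5e119_nt.G60.Defs

namespace Pool.Agent.G60

open Finset

lemma burg_ceil (y : ℝ) (hy : 1 ≤ y) : ∃ A : ℕ, 0 < A ∧ y ≤ A ∧ (A : ℝ) ≤ 2 * y := by
  refine ⟨⌈y⌉₊, Nat.ceil_pos.2 (by linarith), Nat.le_ceil y, ?_⟩
  have := Nat.ceil_lt_add_one (show 0 ≤ y by linarith)
  linarith

lemma burg_mul (u K : ℝ) (a b : ℕ) (h1 : 1 ≤ u) (hK : K ≤ u) (hab : a < b) :
    K * u ^ a ≤ u ^ b := by
  have h0 : 0 ≤ u ^ a := by positivity
  calc K * u ^ a ≤ u * u ^ a := mul_le_mul_of_nonneg_right hK h0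
    _ = u ^ (a + 1) := by rw [pow_succ']
    _ ≤ u ^ b := pow_le_pow_right₀ h1 hab

lemma burg_level (s : Finset ℕ) (F : ℕ → ℝ) (t M : ℝ) (ht : 0 < t) (h : ∑ x ∈ s, F x ^ 8 ≤ M) :
    (#{x ∈ s | t ≤ |F x|} : ℝ) * t ^ 8 ≤ M := by
  refine le_trans ?_ h
  rw [← nsmul_eq_mul]
  refine (card_nsmul_le_sum _ (fun x => F x ^ 8) _ fun x hx => ?_).trans
    (sum_le_sum_of_subset_of_nonneg (filter_subset _ _) fun x _ _ => by positivity)
  have h1 := pow_le_pow_left₀ ht.le (mem_filter.1 hx).2 8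
  rwa [Even.pow_abs (by decide)] at h1

lemma burg_W (C u v B W : ℝ) (hC : 0 < C) (hu : 0 < u) (hv : 0 < v) (hB : v ≤ B)
    (h : W * (1 / (3 * u) * B) ^ 8 ≤ C * (v ^ 8 * B ^ 4 + B ^ 8 * v ^ 4)) :
    W ≤ 2 * C * 6561 * (u ^ 8 * v ^ 4) := by
  have hB0 : 0 < B := hv.trans_le hB
  have h1 : v ^ 4 ≤ B ^ 4 := pow_le_pow_left₀ hv.le hB 4
  have h2 : v ^ 8 * B ^ 4 ≤ B ^ 8 * v ^ 4 := by
    have : v ^ 4 * (v ^ 4 * B ^ 4) ≤ B ^ 4 * (v ^ 4 * B ^ 4) :=
      mul_le_mul_of_nonneg_right h1 (by positivity)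
    linarith
  have h3 : W * (1 / (3 * u) * B) ^ 8 ≤ 2 * C * 6561 * (u ^ 8 * v ^ 4) * (1 / (3 * u) * B) ^ 8 := by
    have e : 2 * C * 6561 * (u ^ 8 * v ^ 4) * (1 / (3 * u) * B) ^ 8 = C * (2 * (B ^ 8 * v ^ 4)) := by
      field_simp
      norm_num
    rw [e]
    exact h.trans (mul_le_mul_of_nonneg_left (by linarith) hC.le)
  exact le_of_mul_le_mul_right h3 (by positivity)

lemma burg_sqrt (u W N A g : ℝ) (hu : 0 < u) (hN : 0 ≤ N) (hA : 0 < A)
    (h : 9 * u ^ 2 * W * g ^ 2 ≤ N * A) : √(W * (N * A * g ^ 2)) / A ≤ 1 / (3 * u) * N := by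
  rw [div_le_iff₀ hA]
  refine Real.sqrt_le_iff.2 ⟨by positivity, ?_⟩
  have e : (1 / (3 * u) * N * A) ^ 2 = N * A / (9 * u ^ 2) * (N * A) := by
    field_simp
    ring
  have e2 : W * (N * A * g ^ 2) = N * A / (9 * u ^ 2) * (9 * u ^ 2 * W * g ^ 2) := by
    field_simp
  rw [e, e2]
  exact mul_le_mul_of_nonneg_left h (by positivity)

theorem burg_row (hMOM : MOM_s) (hBUR1 : BUR1_s) (hBUR2 : BUR2_s) : BURG_s := by
  obtain ⟨C, hC, hM⟩ := hMOM
  obtain ⟨K, hK⟩ : ∃ K : ℝ, K = 24 + 9 * (2 * C * 6561) * 382 ^ 2 := ⟨_, rfl⟩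
  have hK24 : 24 ≤ K := by rw [hK]; nlinarith
  have hKC : 9 * (2 * C * 6561) * 382 ^ 2 ≤ K := by rw [hK]; linarith
  refine ⟨1 / 2000, by norm_num, by norm_num, ⌈K ^ 2000⌉₊ + 3, fun p _ hp N hN => ?_⟩
  have hp2 : 2 < p := by omega
  have hP : (0 : ℝ) < p := by exact_mod_cast (by omega : 0 < p)
  obtain ⟨u, hu⟩ : ∃ u : ℝ, u = (p : ℝ) ^ (1 / 2000 : ℝ) := ⟨_, rfl⟩
  have hu0 : 0 < u := by rw [hu]; exact Real.rpow_pos_of_pos hP _
  have hk : ∀ k : ℕ, u ^ k = (p : ℝ) ^ ((k : ℝ) / 2000) := by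
    intro k
    rw [hu, ← Real.rpow_natCast, ← Real.rpow_mul hP.le]
    congr 1
    ring
  have hpu : (p : ℝ) = u ^ 2000 := by rw [hk]; norm_num
  have hKu : K ≤ u := by
    have h1 : K ^ 2000 ≤ u ^ 2000 := by
      rw [← hpu]
      refine (Nat.le_ceil _).trans ?_
      exact_mod_cast (by omega : ⌈K ^ 2000⌉₊ ≤ p)
    exact le_of_pow_le_pow_left₀ (by norm_num) hu0.le h1
  have hu24 : 24 ≤ u := hK24.trans hKu
  have hu1 : 1 ≤ u := by linarith
  have hκ : (p : ℝ) ^ (-(1 / 2000 : ℝ)) = 1 / u := by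
    rw [Real.rpow_neg hP.le, ← hu, one_div]
  have hN1 : u ^ 640 ≤ N := by
    rw [hk]
    refine le_trans (le_of_eq ?_) hN
    norm_num
  have hsq : √(p : ℝ) = u ^ 1000 := by
    rw [hpu, show 2000 = 1000 * 2 by rfl, pow_mul, Real.sqrt_sq (by positivity)]
  rw [hκ]
  rcases le_or_gt (u ^ 1400) N with h | h
  · refine (hBUR2 p N hp2).trans ?_
    have h1 : (p : ℝ) ^ (2 / 3 : ℝ) ≤ u ^ 1334 := by
      rw [hk]
      exact Real.rpow_le_rpow_of_exponent_le (by exact_mod_cast (by omega : 1 ≤ p)) (by norm_num)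
    have h2 := burg_mul u 5 1335 1400 hu1 (by linarith) (by norm_num)
    rw [mul_one_div, le_div_iff₀ hu0]
    have h3 : (p : ℝ) ^ (2 / 3 : ℝ) * u ≤ u ^ 1334 * u := mul_le_mul_of_nonneg_right h1 hu0.le
    rw [← pow_succ] at h3
    linarith
  · obtain ⟨A, hA0, hA1, hA2⟩ := burg_ceil (u ^ 380) (one_le_pow₀ hu1)
    obtain ⟨B, hB0, hB1, hB2⟩ := burg_ceil (u ^ 250) (one_le_pow₀ hu1)
    have hAr : (0 : ℝ) < A := by exact_mod_cast hA0
    have hBr : (0 : ℝ) < B := by exact_mod_cast hB0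
    have hNr : (0 : ℝ) ≤ N := Nat.cast_nonneg N
    have hA3 : (A : ℝ) ≤ u ^ 381 := hA2.trans (burg_mul u 2 380 381 hu1 (by linarith) (by norm_num))
    have hlt : ∀ k : ℕ, k < 2000 → u ^ k < p := fun k hk => by
      rw [hpu]; exact pow_lt_pow_right₀ (by linarith) hk
    have hNA : N * A < p := by
      have h1 : (N : ℝ) * A ≤ u ^ 1400 * u ^ 381 := mul_le_mul h.le hA3 hAr.le (by positivity)
      rw [← pow_add] at h1
      exact_mod_cast h1.trans_lt (hlt _ (by norm_num))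
    have hAp : A < p := by exact_mod_cast hA3.trans_lt (hlt _ (by norm_num))
    have hBp : B < p := by
      exact_mod_cast (hB2.trans (burg_mul u 2 250 251 hu1 (by linarith) (by norm_num))).trans_lt
        (hlt _ (by norm_num))
    have hτ : 0 < 1 / (3 * u) := by positivity
    have hW := burg_level _ _ _ _ (mul_pos hτ hBr) (hM p B hp2 hBp)
    have e1 : C * ((p : ℝ) * B ^ 4 + B ^ 8 * √p) =
        C * ((u ^ 250) ^ 8 * B ^ 4 + B ^ 8 * (u ^ 250) ^ 4) := by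
      rw [hsq, ← pow_mul, ← pow_mul, ← hpu]
    rw [e1] at hW
    have hW2 := burg_W C u (u ^ 250) B _ hC hu0 (by positivity) hB1 hW
    refine (hBUR1 p N A B _ _ hp2 hA0 hB0 hNA hAp hτ hW2).trans ?_
    have hlog : 1 + Real.log A ≤ 382 * u := by
      have h1 := Real.log_le_log hAr hA3
      rw [Real.log_pow] at h1
      have h2 := Real.log_le_sub_one_of_pos hu0
      push_cast at h1
      linarith
    have hlog0 : 0 ≤ 1 + Real.log A := by
      have := Real.log_natCast_nonneg A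
      linarith
    have h2 := burg_sqrt u (2 * C * 6561 * (u ^ 8 * (u ^ 250) ^ 4)) N A (1 + Real.log A) hu0 hNr hAr
      (by
        have h1 : u ^ 640 * u ^ 380 ≤ (N : ℝ) * A := mul_le_mul hN1 hA1 (by positivity) hNr
        rw [← pow_add] at h1
        have h3 := burg_mul u _ 1012 (640 + 380) hu1 (hKC.trans hKu) (by norm_num)
        have h4 := pow_le_pow_left₀ hlog0 hlog 2
        refine le_trans ?_ (h3.trans h1)
        refine (mul_le_mul_of_nonneg_left h4 (by positivity)).trans (le_of_eq ?_)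
        ring)
    have h3 : 2 * (A : ℝ) * B ≤ 1 / (3 * u) * N := by
      rw [one_div_mul_eq_div, le_div_iff₀ (by positivity)]
      have h1 : (A : ℝ) * B ≤ 2 * u ^ 380 * (2 * u ^ 250) := mul_le_mul hA2 hB2 hBr.le (by positivity)
      have h4 := burg_mul u 24 631 640 hu1 hu24 (by norm_num)
      have h5 := mul_le_mul_of_nonneg_right h1 hu0.le
      have e : 2 * u ^ 380 * (2 * u ^ 250) * u = 4 * u ^ 631 := by ring
      rw [e] at h5
      have e2 : 2 * (A : ℝ) * B * (3 * u) = 6 * (A * B * u) := by ring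
      rw [e2]
      linarith
    have e3 : (N : ℝ) * (1 / u) = 3 * (1 / (3 * u) * N) := by field_simp
    rw [e3]
    linarith

end Pool.Agent.G60
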