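import Pool.Agent.MP_b5e119_nt.G60.Defs
import Pool.Agent.MP_a4a062_nt.H4O.B

namespace Pool.Agent.G60

open Finset

lemma mom_range (p : ℕ) [Fact p.Prime] (F : ZMod p → ℝ) :
    ∑ x ∈ range p, F (x : ZMod p) = ∑ u : ZMod p, F u := by
  have : NeZero p := ⟨(Fact.out : p.Prime).ne_zero⟩
  refine sum_nbij (fun x : ℕ => (x : ZMod p)) (fun _ _ => mem_univ _) ?_ ?_ fun _ _ => rfl
  · intro a ha b hb h
    have ha' : a < p := by simpa using ha
    have hb' : b < p := by simpa using hb
    have := (ZMod.natCast_eq_natCast_iff' a b p).1 h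
    rwa [Nat.mod_eq_of_lt ha', Nat.mod_eq_of_lt hb'] at this
  · intro u _
    exact ⟨u.val, by simpa using ZMod.val_lt u, ZMod.natCast_zmod_val u⟩

lemma mom_leg (p : ℕ) [Fact p.Prime] (n : ℕ) :
    (leg p n : ℝ) = Pool.Agent.H48P.chi (n : ZMod p) := by
  have key : ∀ (i j : DecidableEq (ZMod p)) (a : ZMod p),
      @quadraticChar (ZMod p) _ _ i a = @quadraticChar (ZMod p) _ _ j a := by
    intro i j a
    have : i = j := Subsingleton.elim _ _
    subst this
    rfl
  unfold leg legendreSym Pool.Agent.H48P.chi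
  rw [Int.cast_natCast]
  exact congrArg (fun z : ℤ => (z : ℝ)) (key _ _ _)

lemma mom_abs {F : Type} [Field F] [Fintype F] (a : F) : |Pool.Agent.H48P.chi a| ≤ 1 := by
  by_cases h : a = 0
  · rw [h, Pool.Agent.H48P.chi_zero]; simp
  · rcases mul_self_eq_one_iff.mp (Pool.Agent.H48P.chi_mul_self h) with e | e <;> simp [e]

lemma mom_count (S : Finset ℕ) :
    #{b ∈ Fintype.piFinset fun _ : Fin 8 => S | ¬∃ i₀, ∀ i, b i = b i₀ → i = i₀} ≤
      #S ^ 4 * 4 ^ 8 := by
  have hsub : {b ∈ Fintype.piFinset fun _ : Fin 8 => S | ¬∃ i₀, ∀ i, b i = b i₀ → i = i₀} ⊆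
      (Fintype.piFinset fun _ : Fin 4 => S).biUnion fun g =>
        Fintype.piFinset fun _ : Fin 8 => univ.image g := by
    intro b hb
    obtain ⟨hb1, hb2⟩ := mem_filter.1 hb
    rw [Fintype.mem_piFinset] at hb1
    have h2 : ∀ v ∈ univ.image b, 2 ≤ #{i ∈ (univ : Finset (Fin 8)) | b i = v} := by
      intro v hv
      obtain ⟨i₀, -, rfl⟩ := mem_image.1 hv
      have : ¬∀ i, b i = b i₀ → i = i₀ := fun h => hb2 ⟨i₀, h⟩
      push Not at this
      obtain ⟨i, hi, hne⟩ := this
      exact one_lt_card.2 ⟨i, by simp [hi], i₀, by simp, hne⟩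
    have h3 : #(univ.image b) * 2 ≤ 8 := by
      have e := card_eq_sum_card_image b (univ : Finset (Fin 8))
      have e2 := card_nsmul_le_sum _ _ _ h2
      rw [← e] at e2
      simpa using e2
    have hne : Nonempty (univ.image b : Finset ℕ) := ⟨⟨b 0, mem_image_of_mem _ (mem_univ _)⟩⟩
    obtain ⟨e⟩ : Nonempty ((univ.image b : Finset ℕ) ↪ Fin 4) :=
      Function.Embedding.nonempty_of_card_le (by simp only [Fintype.card_coe, Fintype.card_fin]; omega)
    refine mem_biUnion.2 ⟨fun j => (Function.invFun e j).1, ?_, ?_⟩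
    · rw [Fintype.mem_piFinset]
      intro j
      obtain ⟨i, -, hi⟩ := mem_image.1 (Function.invFun e j).2
      rw [← hi]
      exact hb1 i
    · rw [Fintype.mem_piFinset]
      intro i
      obtain ⟨j, hj⟩ := Function.invFun_surjective e.injective
        ⟨b i, mem_image_of_mem _ (mem_univ _)⟩
      exact mem_image.2 ⟨j, mem_univ _, by rw [hj]⟩
  refine (card_le_card hsub).trans ((card_biUnion_le_card_mul _ _ (4 ^ 8) fun g _ => ?_).trans ?_)
  · rw [Fintype.card_piFinset, prod_const, card_univ, Fintype.card_fin]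
    exact Nat.pow_le_pow_left (card_image_le.trans (by simp)) _
  · rw [Fintype.card_piFinset, prod_const, card_univ, Fintype.card_fin]

theorem mom_row : MOM_s := by
  refine ⟨4 ^ 8, by norm_num, fun p _ B hp hB => ?_⟩
  have : NeZero p := ⟨(Fact.out : p.Prime).ne_zero⟩
  have h2 : (2 : ZMod p) ≠ 0 := by
    intro h
    have := (ZMod.natCast_eq_zero_iff 2 p).1 (by exact_mod_cast h)
    have := Nat.le_of_dvd two_pos this
    omega
  have e1 : ∀ x : ℕ, (∑ b ∈ Icc 1 B, (leg p (x + b) : ℝ)) ^ 8 =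
      ∑ b ∈ Fintype.piFinset fun _ : Fin 8 => Icc 1 B,
        ∏ i, Pool.Agent.H48P.chi ((x : ZMod p) + (b i : ZMod p)) := by
    intro x
    rw [sum_pow']
    refine sum_congr rfl fun b _ => prod_congr rfl fun i _ => ?_
    rw [mom_leg, Nat.cast_add]
  simp only [e1]
  rw [sum_comm]
  have e2 : ∀ b ∈ Fintype.piFinset fun _ : Fin 8 => Icc 1 B,
      ∑ x ∈ range p, ∏ i, Pool.Agent.H48P.chi ((x : ZMod p) + (b i : ZMod p)) ≤
        (if ¬∃ i₀, ∀ i, b i = b i₀ → i = i₀ then (p : ℝ) else 0) + 40 * √p := by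
    intro b hb
    rw [Fintype.mem_piFinset] at hb
    rw [mom_range p fun u => ∏ i, Pool.Agent.H48P.chi (u + (b i : ZMod p))]
    split_ifs with h
    · obtain ⟨i₀, hi₀⟩ := h
      have := Pool.Agent.H4O.chi_sub h2 (⊤ : AddSubgroup (ZMod p)) (fun i => (b i : ZMod p)) i₀
        fun i hi => hi₀ i (by
          have h1 := mem_Icc.1 (hb i)
          have h3 := mem_Icc.1 (hb i₀)
          have := (ZMod.natCast_eq_natCast_iff' _ _ p).1 hi
          rwa [Nat.mod_eq_of_lt (by omega), Nat.mod_eq_of_lt (by omega)] at this)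
      simp only [AddSubgroup.mem_top, filter_true, Fintype.card_fin, ZMod.card] at this
      have := (abs_le.1 this).2
      push_cast at this
      linarith
    · have h1 : ∑ u : ZMod p, ∏ i, Pool.Agent.H48P.chi (u + (b i : ZMod p)) ≤
          ∑ _u : ZMod p, (1 : ℝ) := by
        refine sum_le_sum fun u _ => (le_abs_self _).trans ?_
        rw [abs_prod]
        refine prod_le_one (fun _ _ => abs_nonneg _) fun i _ => ?_
        exact mom_abs _
      simp only [sum_const, card_univ, ZMod.card, nsmul_eq_mul, mul_one] at h1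
      have := Real.sqrt_nonneg (p : ℝ)
      linarith
  refine (sum_le_sum e2).trans ?_
  rw [sum_add_distrib, ← sum_filter, sum_const, sum_const, nsmul_eq_mul, nsmul_eq_mul,
    Fintype.card_piFinset, prod_const, card_univ, Fintype.card_fin]
  have h3 := mom_count (Icc 1 B)
  have hc : #(Icc 1 B) = B := by simp
  rw [hc] at h3 ⊢
  have h4 : (#{b ∈ Fintype.piFinset fun _ : Fin 8 => Icc 1 B |
      ¬∃ i₀, ∀ i, b i = b i₀ → i = i₀} : ℝ) ≤ (B : ℝ) ^ 4 * 4 ^ 8 := by exact_mod_cast h3
  have h5 := mul_le_mul_of_nonneg_right h4 (Nat.cast_nonneg (α := ℝ) p)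
  have h6 : 0 ≤ (B : ℝ) ^ 8 * √p := by positivity
  push_cast
  nlinarith

end Pool.Agent.G60
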