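import Pool.Agent.MP_b5e119_nt.G60.Defs

namespace Pool.Agent.G60

open Finset

theorem ene_sub (N A : ℕ) :
    {z ∈ (Icc 1 N ×ˢ Icc 1 A) ×ˢ (Icc 1 N ×ˢ Icc 1 A) | z.1.1 * z.2.2 = z.2.1 * z.1.2} ⊆
      (Icc 1 A ×ˢ Icc 1 A).biUnion fun uv : ℕ × ℕ =>
        (Icc 1 (A / uv.1) ×ˢ Icc 1 (N / uv.2)).image fun gt : ℕ × ℕ =>
          ((gt.2 * uv.1, uv.1 * gt.1), (gt.2 * uv.2, uv.2 * gt.1)) := by
  rintro ⟨⟨n, a⟩, ⟨n', a'⟩⟩ hz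
  simp only [mem_filter, mem_product, mem_Icc] at hz
  obtain ⟨⟨⟨⟨hn1, hn⟩, ha1, ha⟩, ⟨hn1', hn'⟩, ha1', ha'⟩, he⟩ := hz
  obtain ⟨g, u, v, hg, huv, rfl, rfl⟩ := Nat.exists_coprime' (Nat.gcd_pos_of_pos_left a' ha1)
  have hu : 0 < u := Nat.pos_of_mul_pos_right ha1
  have hv : 0 < v := Nat.pos_of_mul_pos_right ha1'
  have h1 : n * v = n' * u := by
    apply Nat.eq_of_mul_eq_mul_right hg
    calc n * v * g = n * (v * g) := by ring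
      _ = n' * (u * g) := he
      _ = n' * u * g := by ring
  have h2 : u ∣ n := huv.dvd_of_dvd_mul_right ⟨n', by rw [h1]; ring⟩
  obtain ⟨t, rfl⟩ := h2
  have h3 : n' = t * v := by
    apply Nat.eq_of_mul_eq_mul_right hu
    rw [← h1]; ring
  subst h3
  have ht : 0 < t := Nat.pos_of_mul_pos_left hn1
  simp only [mem_biUnion, mem_image, mem_product, mem_Icc, Prod.exists]
  refine ⟨u, v, ⟨⟨hu, ?_⟩, hv, ?_⟩, g, t, ⟨⟨hg, ?_⟩, ht, ?_⟩, ?_⟩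
  · exact (Nat.le_mul_of_pos_right u hg).trans ha
  · exact (Nat.le_mul_of_pos_right v hg).trans ha'
  · rw [Nat.le_div_iff_mul_le hu]; rwa [mul_comm]
  · rw [Nat.le_div_iff_mul_le hv]; exact hn'
  · rw [mul_comm t u]

theorem ene_harm (A : ℕ) : ∑ u ∈ Icc 1 A, ((u : ℝ))⁻¹ ≤ 1 + Real.log A := by
  have h := harmonic_le_one_add_log A
  rw [harmonic_eq_sum_Icc] at h
  push_cast at h
  exact h

theorem ene_row : ENE_s := by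
  intro N A _
  have h1 := (card_le_card (ene_sub N A)).trans card_biUnion_le
  have h2 : ∀ uv ∈ Icc 1 A ×ˢ Icc 1 A,
      ((#((Icc 1 (A / uv.1) ×ˢ Icc 1 (N / uv.2)).image fun gt : ℕ × ℕ =>
          ((gt.2 * uv.1, uv.1 * gt.1), (gt.2 * uv.2, uv.2 * gt.1))) : ℕ) : ℝ) ≤
        (N * A : ℝ) * (((uv.1 : ℕ) : ℝ)⁻¹ * ((uv.2 : ℕ) : ℝ)⁻¹) := by
    intro uv _
    have a1 : #((Icc 1 (A / uv.1) ×ˢ Icc 1 (N / uv.2)).image fun gt : ℕ × ℕ =>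
          ((gt.2 * uv.1, uv.1 * gt.1), (gt.2 * uv.2, uv.2 * gt.1))) ≤ (A / uv.1) * (N / uv.2) := by
      refine card_image_le.trans ?_
      simp
    have a2 : ((A / uv.1 : ℕ) : ℝ) ≤ A / uv.1 := Nat.cast_div_le
    have a3 : ((N / uv.2 : ℕ) : ℝ) ≤ N / uv.2 := Nat.cast_div_le
    calc _ ≤ (((A / uv.1) * (N / uv.2) : ℕ) : ℝ) := by exact_mod_cast a1
      _ = ((A / uv.1 : ℕ) : ℝ) * ((N / uv.2 : ℕ) : ℝ) := by push_cast; ring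
      _ ≤ (A / uv.1 : ℝ) * (N / uv.2) := by gcongr
      _ = _ := by ring
  have h3 := ene_harm A
  have h4 : 0 ≤ ∑ u ∈ Icc 1 A, ((u : ℝ))⁻¹ := sum_nonneg fun _ _ => by positivity
  calc _ ≤ ((∑ uv ∈ Icc 1 A ×ˢ Icc 1 A,
        #((Icc 1 (A / uv.1) ×ˢ Icc 1 (N / uv.2)).image fun gt : ℕ × ℕ =>
          ((gt.2 * uv.1, uv.1 * gt.1), (gt.2 * uv.2, uv.2 * gt.1))) : ℕ) : ℝ) := by
        exact_mod_cast h1
    _ ≤ ∑ uv ∈ Icc 1 A ×ˢ Icc 1 A, (N * A : ℝ) * (((uv.1 : ℕ) : ℝ)⁻¹ * ((uv.2 : ℕ) : ℝ)⁻¹) := by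
        rw [Nat.cast_sum]; exact sum_le_sum h2
    _ = N * A * (∑ u ∈ Icc 1 A, ((u : ℝ))⁻¹) ^ 2 := by
        rw [← mul_sum, sum_product, sq, sum_mul_sum]
    _ ≤ _ := by gcongr

end Pool.Agent.G60
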