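import Pool.Agent.MP_b5e119_nt.G60.Defs

namespace Pool.Agent.G60

open Finset Filter Topology

theorem loc_sq {ι : Type} (s : Finset ι) (u : ι → ℂ) :
    ‖∑ i ∈ s, u i‖ ^ 2 = ∑ i ∈ s, ∑ k ∈ s, (u i * (starRingEnd ℂ) (u k)).re := by
  have h := congrArg Complex.re (Complex.mul_conj' (∑ i ∈ s, u i))
  rw [← Complex.ofReal_pow, Complex.ofReal_re, map_sum, sum_mul_sum] at h
  simp only [← h, Complex.re_sum]

theorem loc_pair (hBIL : BIL_s) {p : ℕ} [Fact p.Prime] (χ χ' : Ch p) (a b : ℂ) {X : ℕ}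
    (hX : 2 * X < p) (hab : χ = χ' → a = b) [Decidable (χ = χ')] :
    (if χ = χ' then (X : ℝ) ^ 2 * ‖a‖ ^ 2 else 0) - (‖a‖ ^ 2 + ‖b‖ ^ 2) / 2 * (X * √p) ≤
      ∑ x ∈ Icc 1 X, ∑ y ∈ Icc 1 X, (a * χ ((x + y : ℕ) : ZMod p) *
        (starRingEnd ℂ) (b * χ' ((x + y : ℕ) : ZMod p))).re := by
  have e : ∀ n : ZMod p, a * χ n * (starRingEnd ℂ) (b * χ' n) =
      a * (starRingEnd ℂ) b * (χ * χ'⁻¹) n := fun n => by
    rw [map_mul, MulChar.mul_apply, ← MulChar.star_apply']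
    change _ = a * (starRingEnd ℂ) b * (χ n * (starRingEnd ℂ) (χ' n))
    ring
  simp only [e, ← Complex.re_sum, ← mul_sum]
  have h0 : 0 ≤ (‖a‖ ^ 2 + ‖b‖ ^ 2) / 2 * (X * √p) := by positivity
  split_ifs with h
  · obtain rfl := hab h
    subst h
    have h1 : ∑ x ∈ Icc 1 X, ∑ y ∈ Icc 1 X, (χ * χ⁻¹) ((x + y : ℕ) : ZMod p) = (X : ℂ) ^ 2 := by
      have h3 : ∀ x ∈ Icc 1 X, ∀ y ∈ Icc 1 X, (χ * χ⁻¹) ((x + y : ℕ) : ZMod p) = 1 := by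
        intro x hx y hy
        rw [mul_inv_cancel]
        refine MulChar.one_apply (Ne.isUnit fun e => ?_)
        rw [mem_Icc] at hx hy
        have := Nat.le_of_dvd (by omega) ((ZMod.natCast_eq_zero_iff _ p).1 e)
        omega
      rw [sum_congr rfl fun x hx => sum_congr rfl fun y hy => h3 x hx y hy]
      simp [sq]
    have h2 : a * (starRingEnd ℂ) a * (X : ℂ) ^ 2 = (((X : ℝ) ^ 2 * ‖a‖ ^ 2 : ℝ) : ℂ) := by
      rw [Complex.mul_conj']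
      push_cast
      ring
    rw [h1, h2, Complex.ofReal_re]
    linarith
  · have h1 := hBIL p (χ * χ'⁻¹) X (fun e => h (mul_inv_eq_one.1 e)) (by omega)
    refine le_trans ?_ (abs_le.1 (Complex.abs_re_le_norm _)).1
    rw [norm_mul, norm_mul, Complex.norm_conj, zero_sub, neg_le_neg_iff]
    exact mul_le_mul (by nlinarith [sq_nonneg (‖a‖ - ‖b‖)]) h1 (norm_nonneg _) (by positivity)

theorem loc_row (hBIL : BIL_s) : LOC_s := by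
  classical
  intro p _ Λ d X hX hΛ
  have h1 : ∑ x ∈ Icc 1 X, ∑ y ∈ Icc 1 X, ‖∑ χ ∈ Λ, d χ * χ ((x + y : ℕ) : ZMod p)‖ ^ 2 ≤
      X * ∑ n ∈ Icc 1 (2 * X), ‖∑ χ ∈ Λ, d χ * χ (n : ZMod p)‖ ^ 2 := by
    refine (sum_le_card_nsmul _ _ _ fun x hx => ?_).trans
      (by rw [Nat.card_Icc, Nat.add_sub_cancel, nsmul_eq_mul])
    rw [← sum_image (g := fun y : ℕ => x + y)
      (f := fun n : ℕ => ‖∑ χ ∈ Λ, d χ * χ (n : ZMod p)‖ ^ 2) fun _ _ _ _ e => add_left_cancel e]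
    refine sum_le_sum_of_subset_of_nonneg (fun n hn => ?_) fun _ _ _ => by positivity
    obtain ⟨y, hy, rfl⟩ := mem_image.1 hn
    rw [mem_Icc] at hx hy ⊢
    omega
  have h2 : ∑ x ∈ Icc 1 X, ∑ y ∈ Icc 1 X, ‖∑ χ ∈ Λ, d χ * χ ((x + y : ℕ) : ZMod p)‖ ^ 2 =
      ∑ χ ∈ Λ, ∑ χ' ∈ Λ, ∑ x ∈ Icc 1 X, ∑ y ∈ Icc 1 X, (d χ * χ ((x + y : ℕ) : ZMod p) *
        (starRingEnd ℂ) (d χ' * χ' ((x + y : ℕ) : ZMod p))).re := by
    simp only [loc_sq]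
    refine (sum_congr rfl fun x _ => sum_comm.trans (sum_congr rfl fun χ _ => sum_comm)).trans ?_
    exact sum_comm.trans (sum_congr rfl fun χ _ => sum_comm)
  have h3 := sum_le_sum fun χ (_ : χ ∈ Λ) => sum_le_sum fun χ' (_ : χ' ∈ Λ) =>
    loc_pair hBIL χ χ' (d χ) (d χ') hX fun e => congrArg d e
  rw [← h2] at h3
  have h4 : ∑ χ ∈ Λ, ∑ χ' ∈ Λ, ((if χ = χ' then (X : ℝ) ^ 2 * ‖d χ‖ ^ 2 else 0) -
      (‖d χ‖ ^ 2 + ‖d χ'‖ ^ 2) / 2 * (X * √p)) =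
      (X : ℝ) ^ 2 * ∑ χ ∈ Λ, ‖d χ‖ ^ 2 - #Λ * (∑ χ ∈ Λ, ‖d χ‖ ^ 2) * (X * √p) := by
    simp only [sum_sub_distrib, ← sum_mul, ← sum_div, sum_add_distrib, sum_const, nsmul_eq_mul,
      ← mul_sum]
    rw [sum_congr rfl fun χ hχ => (sum_ite_eq Λ χ fun _ => (X : ℝ) ^ 2 * ‖d χ‖ ^ 2).trans
      (if_pos hχ), ← mul_sum]
    ring
  rw [h4] at h3
  have D0 : 0 ≤ ∑ χ ∈ Λ, ‖d χ‖ ^ 2 := by positivity
  rcases Nat.eq_zero_or_pos X with rfl | X0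
  · simp
  have X0' : (0 : ℝ) < X := by exact_mod_cast X0
  refine le_of_mul_le_mul_left ?_ X0'
  have h5 := mul_le_mul_of_nonneg_right hΛ (mul_nonneg X0'.le D0)
  linarith

end Pool.Agent.G60
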