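import Pool.Agent.MP_b5e119_nt.G60.Defs

namespace Pool.Agent.G60

open Finset

variable [Sg]

omit [Sg] in
theorem odd3_val (p : ℕ) [Fact p.Prime] (g : ℕ → ℤ) (G : ZMod p → ℤ) (h0 : G 0 = 0)
    (hG : ∀ a : ZMod p, a ≠ 0 → G a = g a.val) : ∑ a : ZMod p, G a = ∑ n ∈ Icc 1 (p - 1), g n := by
  have hp : 0 < p := (Fact.out : p.Prime).pos
  rw [← sum_erase (univ : Finset (ZMod p)) (a := 0) h0]
  refine sum_bij (fun a _ => a.val) ?_ ?_ ?_ ?_
  · intro a ha
    have h0 : a ≠ 0 := ne_of_mem_erase ha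
    have h1 : 0 < a.val := ZMod.val_pos.2 h0
    have h2 := ZMod.val_lt a
    simp only [mem_Icc]
    omega
  · intro a _ b _ h
    exact ZMod.val_injective p h
  · intro n hn
    simp only [mem_Icc] at hn
    have h1 : ((n : ZMod p)).val = n := ZMod.val_cast_of_lt (by omega)
    refine ⟨(n : ZMod p), ?_, h1⟩
    refine mem_erase.2 ⟨fun e => ?_, mem_univ _⟩
    rw [e, ZMod.val_zero] at h1
    omega
  · intro a ha
    exact hG a (ne_of_mem_erase ha)

theorem odd3_row : ODD3_s := by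
  intro p _ e he
  have hod : (od p : ℤ) = ∑ n ∈ Icc 1 (p - 1), if lam (p - n) ≠ Sg.s * lam n then (1 : ℤ) else 0 := by
    rw [od, card_filter, Nat.cast_sum]
    refine odd3_val p _ _ (by simp [ff]) fun a h0 => ?_
    have h1 : -a ≠ 0 := neg_ne_zero.2 h0
    have h2 : (-a).val = p - a.val := by rw [ZMod.neg_val, if_neg h0]
    simp only [ff, if_neg h0, if_neg h1, h2]
    split_ifs <;> simp
  have hcnt : (cnt p e (-Sg.s * e) : ℤ) = ∑ n ∈ Icc 1 (p - 1),
      if lam n = e ∧ lam (p - n) = -Sg.s * e then (1 : ℤ) else 0 := by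
    rw [cnt, card_filter, Nat.cast_sum]
    refine sum_congr rfl fun n _ => ?_
    split_ifs <;> simp
  have hrefl : ∑ n ∈ Icc 1 (p - 1), lam (p - n) = ∑ n ∈ Icc 1 (p - 1), lam n := by
    refine sum_nbij' (fun n => p - n) (fun n => p - n) ?_ ?_ ?_ ?_ ?_
    · intro n hn
      simp only [mem_Icc] at hn ⊢
      omega
    · intro n hn
      simp only [mem_Icc] at hn ⊢
      omega
    · intro n hn
      simp only [mem_Icc] at hn
      omega
    · intro n hn
      simp only [mem_Icc] at hn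
      omega
    · intro n _
      rfl
  have hpt : ∀ n : ℕ, 2 * (if lam (p - n) ≠ Sg.s * lam n then (1 : ℤ) else 0) =
      4 * (if lam n = e ∧ lam (p - n) = -Sg.s * e then (1 : ℤ) else 0) +
        (-e * lam n + Sg.s * e * lam (p - n)) := by
    intro n
    rcases Sg.hs with hs | hs <;> rcases he with h | h <;> rcases lam_cases n with a | a <;>
      rcases lam_cases (p - n) with b | b <;> rw [hs, h, a, b] <;> norm_num
  have hsum := sum_congr (rfl : Icc 1 (p - 1) = Icc 1 (p - 1)) fun n _ => hpt n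
  rw [← mul_sum, sum_add_distrib, ← mul_sum, sum_add_distrib, ← mul_sum, ← mul_sum, ← hod, ← hcnt,
    hrefl] at hsum
  have a1 := le_abs_self (∑ n ∈ Icc 1 (p - 1), lam n)
  have a2 := neg_abs_le (∑ n ∈ Icc 1 (p - 1), lam n)
  generalize (cnt p e (-Sg.s * e) : ℤ) = c at hsum ⊢
  rcases Sg.hs with hs | hs <;> rcases he with h | h <;> rw [hs, h] at hsum <;> linarith

end Pool.Agent.G60
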