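import Pool.Agent.MP_b5e119_nt.G60.Defs

namespace Pool.Agent.G60

open Finset Filter Topology

theorem sec_sq {ι : Type} (s : Finset ι) (u : ι → ℂ) :
    ‖∑ i ∈ s, u i‖ ^ 2 = ∑ i ∈ s, ∑ k ∈ s, (u i * (starRingEnd ℂ) (u k)).re := by
  have h := congrArg Complex.re (Complex.mul_conj' (∑ i ∈ s, u i))
  rw [← Complex.ofReal_pow, Complex.ofReal_re, map_sum, sum_mul_sum] at h
  simp only [← h, Complex.re_sum]

theorem sec_conj {p : ℕ} [Fact p.Prime] (ψ : Ch p) (y : ZMod p) :
    (starRingEnd ℂ) (ψ y) = ψ y⁻¹ := by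
  rw [← MulChar.inv_apply', ← MulChar.star_apply']
  rfl

theorem sec_corr {p : ℕ} [Fact p.Prime] {ψ : Ch p} (h : ψ ≠ 1) {a b : ZMod p} (hab : a ≠ b) :
    ∑ x : ZMod p, ψ (x + a) * (starRingEnd ℂ) (ψ (x + b)) = -1 := by
  have he : a - b ≠ 0 := sub_ne_zero.2 hab
  have h1 : ∀ x : ZMod p, ψ (x + a) * (starRingEnd ℂ) (ψ (x + b)) =
      ψ (1 + (a - b) * (x + b)⁻¹) - if x = -b then 1 else 0 := fun x => by
    rw [sec_conj, ← map_mul]
    split_ifs with hx
    · simp [hx, MulChar.map_zero]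
    · have : x + b ≠ 0 := fun e => hx (eq_neg_of_add_eq_zero_left e)
      rw [sub_zero]
      refine congrArg ψ ?_
      field_simp
      ring
  have h2 : ∑ x : ZMod p, ψ (1 + (a - b) * (x + b)⁻¹) = ∑ z : ZMod p, ψ z :=
    Function.Bijective.sum_comp (e := fun x : ZMod p => 1 + (a - b) * (x + b)⁻¹)
      (Finite.injective_iff_bijective.1 fun x y e =>
        add_right_cancel (inv_injective (mul_left_cancel₀ he (add_left_cancel e)))) fun z => ψ z
  simp only [h1, sum_sub_distrib, h2, MulChar.sum_eq_zero_of_ne_one h]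
  simp

theorem sec_row : SEC_s := by
  intro p _ ψ c H hψ hc hH
  have hc' : (c : ZMod p) ≠ 0 := fun e => hc ((ZMod.natCast_eq_zero_iff c p).1 e)
  simp only [sec_sq]
  rw [sum_comm]
  have h : ∀ j ∈ range H, ∑ x : ZMod p, ∑ k ∈ range H,
      (ψ (x + (j : ZMod p) * c) * (starRingEnd ℂ) (ψ (x + (k : ZMod p) * c))).re ≤ p := by
    intro j hj
    rw [sum_comm]
    calc _ ≤ ∑ k ∈ range H, if j = k then (p : ℝ) else 0 := sum_le_sum fun k hk => ?_
      _ = p := by rw [sum_ite_eq, if_pos hj]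
    split_ifs with e
    · subst e
      calc _ ≤ ∑ _x : ZMod p, (1 : ℝ) := sum_le_sum fun x _ => ?_
        _ = p := by simp [ZMod.card]
      rw [Complex.mul_conj', ← Complex.ofReal_pow, Complex.ofReal_re]
      exact pow_le_one₀ (norm_nonneg _) (ψ.norm_le_one _)
    · have hne : (j : ZMod p) * c ≠ (k : ZMod p) * c := fun e' => e (by
        have := (ZMod.natCast_eq_natCast_iff' j k p).1 (mul_right_cancel₀ hc' e')
        rwa [Nat.mod_eq_of_lt ((mem_range.1 hj).trans_le hH),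
          Nat.mod_eq_of_lt ((mem_range.1 hk).trans_le hH)] at this)
      rw [← Complex.re_sum, sec_corr hψ hne]
      simp
  refine (sum_le_sum h).trans ?_
  rw [sum_const, card_range, nsmul_eq_mul, mul_comm]

end Pool.Agent.G60
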