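import Pool.Agent.MP_b5e119_nt.G60.Defs

namespace Pool.Agent.G60

open Finset Filter Topology

theorem sq_eq (n : ℕ) :
    ∑ d ∈ n.divisors, lam d = (ArithmeticFunction.liouville * (ArithmeticFunction.zeta : ArithmeticFunction ℤ)) n := by
  rw [ArithmeticFunction.coe_mul_zeta_apply]
  refine sum_congr rfl fun d hd => ?_
  rw [ArithmeticFunction.liouville_apply (Nat.pos_of_mem_divisors hd).ne']
  rfl

theorem sq_val (n : ℕ) : n ≠ 0 → (∑ d ∈ n.divisors, lam d = 0 ∨
    (∑ d ∈ n.divisors, lam d = 1 ∧ IsSquare n)) := by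
  induction n using Nat.recOnPosPrimePosCoprime with
  | zero => intro h; exact absurd rfl h
  | one => intro _; right; simp [lam]
  | prime_pow p k hp hk =>
    intro _
    rw [Nat.sum_divisors_prime_pow hp]
    have h1 : ∀ i ∈ range (k + 1), lam (p ^ i) = (-1) ^ i := fun i _ => by
      rw [lam, ArithmeticFunction.cardFactors_apply_prime_pow hp]
    rw [sum_congr rfl h1, neg_one_geom_sum]
    by_cases he : Even (k + 1)
    · left; simp [he]
    · right
      refine ⟨by simp [he], ?_⟩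
      have hk2 : Even k := by
        rcases Nat.even_or_odd k with h | h
        · exact h
        · exact absurd h.add_one he
      obtain ⟨j, rfl⟩ := hk2
      exact ⟨p ^ j, by rw [pow_add]⟩
  | coprime a b ha hb hab iha ihb =>
    intro _
    have hm : (ArithmeticFunction.liouville *
        (ArithmeticFunction.zeta : ArithmeticFunction ℤ)).IsMultiplicative :=
      ArithmeticFunction.isMultiplicative_liouville.mul
        ArithmeticFunction.isMultiplicative_zeta.natCast
    have h1 := iha (by omega)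
    have h2 := ihb (by omega)
    rw [sq_eq] at h1 h2 ⊢
    rw [hm.map_mul_of_coprime hab]
    rcases h1 with h1 | ⟨h1, s1⟩
    · left; rw [h1, zero_mul]
    rcases h2 with h2 | ⟨h2, s2⟩
    · left; rw [h2, mul_zero]
    · right; exact ⟨by rw [h1, h2, one_mul], s1.mul s2⟩

theorem sq_row : SQ_s := by
  classical
  intro x
  have hv : ∀ n ∈ Icc 1 x, 0 ≤ ∑ d ∈ n.divisors, lam d ∧
      ∑ d ∈ n.divisors, lam d ≤ if IsSquare n then 1 else 0 := fun n hn => by
    have hn0 : n ≠ 0 := by have := (mem_Icc.1 hn).1; omega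
    rcases sq_val n hn0 with h | ⟨h, s⟩
    · rw [h]; refine ⟨le_rfl, ?_⟩; split_ifs <;> norm_num
    · rw [h, if_pos s]; exact ⟨by norm_num, le_rfl⟩
  refine ⟨sum_nonneg fun n hn => (hv n hn).1, ?_⟩
  have h1 : ∑ n ∈ Icc 1 x, ∑ d ∈ n.divisors, lam d ≤ (#{n ∈ Icc 1 x | IsSquare n} : ℤ) := by
    refine (sum_le_sum fun n hn => (hv n hn).2).trans ?_
    rw [sum_boole]
  have h2 : #{n ∈ Icc 1 x | IsSquare n} ≤ Nat.sqrt x := by
    have : {n ∈ Icc 1 x | IsSquare n} ⊆ (Icc 1 (Nat.sqrt x)).image fun m => m * m := by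
      intro n hn
      obtain ⟨hn, m, rfl⟩ := mem_filter.1 hn
      obtain ⟨h1, h2⟩ := mem_Icc.1 hn
      refine mem_image.2 ⟨m, mem_Icc.2 ⟨?_, Nat.le_sqrt.2 h2⟩, rfl⟩
      rcases Nat.eq_zero_or_pos m with rfl | h
      · simp at h1
      · exact h
    refine (card_le_card this).trans (card_image_le.trans ?_)
    simp
  have h3 : ((Nat.sqrt x : ℕ) : ℝ) ≤ √x := Real.nat_sqrt_le_real_sqrt
  have h4 : ((∑ n ∈ Icc 1 x, ∑ d ∈ n.divisors, lam d : ℤ) : ℝ) ≤ ((Nat.sqrt x : ℕ) : ℝ) := by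
    have : ∑ n ∈ Icc 1 x, ∑ d ∈ n.divisors, lam d ≤ ((Nat.sqrt x : ℕ) : ℤ) :=
      h1.trans (by exact_mod_cast h2)
    exact_mod_cast this
  exact h4.trans h3

end Pool.Agent.G60
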