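import Pool.Agent.MP_b5e119_nt.G60.Defs

namespace Pool.Agent.G60

open Finset Filter Topology

theorem bil_row (hSEC : SEC_s) : BIL_s := by
  intro p hp ψ X hψ hX
  have h := hSEC p ψ 1 X hψ hp.out.not_dvd_one hX
  have e : ∀ x : ℕ, ∑ y ∈ Icc 1 X, ψ ((x + y : ℕ) : ZMod p) =
      ∑ j ∈ range X, ψ (((x + 1 : ℕ) : ZMod p) + (j : ZMod p) * (1 : ℕ)) := fun x => by
    rw [← Finset.Ico_add_one_right_eq_Icc, sum_Ico_eq_sum_range, Nat.add_sub_cancel]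
    refine sum_congr rfl fun j _ => congrArg ψ ?_
    push_cast
    ring
  have hi : Set.InjOn (fun x : ℕ => ((x + 1 : ℕ) : ZMod p)) (Icc 1 X : Finset ℕ) := by
    intro x hx y hy hxy
    rw [mem_coe, mem_Icc] at hx hy
    have h1 : x + 1 ≡ y + 1 [MOD p] := (ZMod.natCast_eq_natCast_iff _ _ p).1 hxy
    have h2 := h1.eq_of_abs_lt (by rw [abs_lt]; constructor <;> omega)
    omega
  have h1 : ∑ x ∈ Icc 1 X, ‖∑ y ∈ Icc 1 X, ψ ((x + y : ℕ) : ZMod p)‖ ^ 2 ≤ p * X := by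
    simp only [e]
    refine le_trans ?_ h
    rw [← sum_image (f := fun a : ZMod p => ‖∑ j ∈ range X, ψ (a + (j : ZMod p) * (1 : ℕ))‖ ^ 2) hi]
    exact sum_le_sum_of_subset_of_nonneg (subset_univ _) fun _ _ _ => by positivity
  have h2 := sq_sum_le_card_mul_sum_sq (s := Icc 1 X)
    (f := fun x : ℕ => ‖∑ y ∈ Icc 1 X, ψ ((x + y : ℕ) : ZMod p)‖)
  rw [Nat.card_Icc, Nat.add_sub_cancel] at h2
  refine (norm_sum_le _ _).trans (abs_le_of_sq_le_sq' ?_ (by positivity)).2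
  rw [mul_pow, Real.sq_sqrt p.cast_nonneg]
  have := mul_le_mul_of_nonneg_left h1 (Nat.cast_nonneg (α := ℝ) X)
  linarith

end Pool.Agent.G60
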