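import Pool.Agent.MP_b5e119_nt.G60.Defs

namespace Pool.Agent.G60

open Finset

theorem chn_ff (p : ℕ) [Fact p.Prime] {u : ℕ} (h0 : 0 < u) (h : u < p) :
    ff p (u : ZMod p) = lam u := by
  rw [ff, if_neg, ZMod.val_cast_of_lt h]
  rw [ZMod.natCast_eq_zero_iff]
  exact Nat.not_dvd_of_pos_of_lt h0 h

theorem chn_cnt (hC : CHEB_s) (p : ℕ) [Fact p.Prime] (w : ZMod p → ℝ) (hw : ∀ a, 0 ≤ w a)
    (P : Finset ℕ) (Y : ℕ) (hP : ∀ q ∈ P, q.Prime ∧ q * Y < p) :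
    ∑ q ∈ P, ∑ n ∈ Icc 1 Y, w ((q * n : ℕ) : ZMod p) ≤ Nat.log 2 p * ∑ a, w a := by
  have h1 : ∀ q ∈ P, ∑ n ∈ Icc 1 Y, w ((q * n : ℕ) : ZMod p) ≤
      ∑ u ∈ Ico 1 p, if q ∣ u then w (u : ZMod p) else 0 := fun q hq => by
    obtain ⟨a, b⟩ := hP q hq
    rw [← sum_filter, ← sum_image (s := Icc 1 Y) (g := fun n => q * n)
      (f := fun u : ℕ => w (u : ZMod p)) fun x _ y _ e => Nat.eq_of_mul_eq_mul_left a.pos e]
    refine sum_le_sum_of_subset_of_nonneg (fun u hu => ?_) fun u _ _ => hw _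
    obtain ⟨n, hn, rfl⟩ := mem_image.1 hu
    rw [mem_Icc] at hn
    exact mem_filter.2 ⟨mem_Ico.2 ⟨Nat.mul_pos a.pos hn.1,
      (Nat.mul_le_mul_left q hn.2).trans_lt b⟩, dvd_mul_right q n⟩
  have h2 : ∑ u ∈ Ico 1 p, w (u : ZMod p) ≤ ∑ a, w a := by
    rw [← sum_image (s := Ico 1 p) (g := fun u : ℕ => (u : ZMod p)) (f := w) fun x hx y hy e => by
      have := congrArg ZMod.val e
      rwa [ZMod.val_cast_of_lt (mem_Ico.1 hx).2, ZMod.val_cast_of_lt (mem_Ico.1 hy).2] at this]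
    exact sum_le_univ_sum_of_nonneg hw
  refine (sum_le_sum h1).trans ?_
  rw [sum_comm]
  refine le_trans ?_ (mul_le_mul_of_nonneg_left h2 (Nat.cast_nonneg _))
  rw [mul_sum]
  refine sum_le_sum fun u hu => ?_
  rw [mem_Ico] at hu
  rw [← sum_filter, sum_const, nsmul_eq_mul]
  refine mul_le_mul_of_nonneg_right ?_ (hw _)
  have : #{q ∈ P | q ∣ u} ≤ #{q ∈ u.divisors | q.Prime} := card_le_card fun q hq =>
    mem_filter.2 ⟨Nat.mem_divisors.2 ⟨(mem_filter.1 hq).2, by omega⟩, (hP q (mem_filter.1 hq).1).1⟩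
  exact_mod_cast this.trans ((hC.2.2 u hu.1).trans (Nat.log_mono_right hu.2.le))

open Classical in
theorem chn_pair (hP : PAR_s) (hL : LOC_s) (p : ℕ) [Fact p.Prime] (Λ : Finset (Ch p)) (X : ℕ)
    (h1 : 2 * X < p) (h2 : 2 * #Λ * √p ≤ X) (G : ZMod p → ℂ)
    (hG : ∀ a, G a = ∑ χ ∈ Λᶜ, co p (fun a => (ff p a : ℂ)) χ * χ a) {q q' : ℕ} (hq : q.Prime)
    (hq' : q'.Prime) (k : q * (2 * X) < p) (k' : q' * (2 * X) < p) :
    (X : ℝ) / 2 * ∑ χ ∈ Λ, mu p χ * ‖χ (q : ZMod p) - χ (q' : ZMod p)‖ ^ 2 ≤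
      2 * ∑ n ∈ Icc 1 (2 * X), ‖G ((q * n : ℕ) : ZMod p)‖ ^ 2 +
        2 * ∑ n ∈ Icc 1 (2 * X), ‖G ((q' * n : ℕ) : ZMod p)‖ ^ 2 := by
  have a := hL p Λ (fun χ => co p (fun a => (ff p a : ℂ)) χ * (χ (q : ZMod p) - χ (q' : ZMod p)))
    X h1 h2
  simp only [norm_mul, mul_pow] at a
  refine a.trans ?_
  rw [mul_sum, mul_sum, ← sum_add_distrib]
  refine sum_le_sum fun n hn => ?_
  rw [mem_Icc] at hn
  have e : ∀ r : ℕ, r.Prime → r * (2 * X) < p →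
      ∑ χ ∈ Λ, co p (fun a => (ff p a : ℂ)) χ * χ ((r * n : ℕ) : ZMod p) +
        G ((r * n : ℕ) : ZMod p) = ((-lam n : ℤ) : ℂ) := fun r hr kr => by
    rw [hG, sum_add_sum_compl, ← (hP p).1 (fun a => (ff p a : ℂ)) (by simp [ff]),
      chn_ff p (Nat.mul_pos hr.pos hn.1) ((Nat.mul_le_mul_left r hn.2).trans_lt kr),
      lam_mul hr.ne_zero (by omega), lam_prime hr, neg_one_mul]
  have e2 : ∑ χ ∈ Λ, co p (fun a => (ff p a : ℂ)) χ * (χ (q : ZMod p) - χ (q' : ZMod p)) *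
      χ (n : ZMod p) = G ((q' * n : ℕ) : ZMod p) - G ((q * n : ℕ) : ZMod p) := by
    have := (e q hq k).trans (e q' hq' k').symm
    rw [show G ((q' * n : ℕ) : ZMod p) - G ((q * n : ℕ) : ZMod p) =
      ∑ χ ∈ Λ, co p (fun a => (ff p a : ℂ)) χ * χ ((q * n : ℕ) : ZMod p) -
        ∑ χ ∈ Λ, co p (fun a => (ff p a : ℂ)) χ * χ ((q' * n : ℕ) : ZMod p) by
          linear_combination -this, ← sum_sub_distrib]
    refine sum_congr rfl fun χ _ => ?_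
    rw [Nat.cast_mul, Nat.cast_mul, map_mul, map_mul]
    ring
  rw [e2]
  have := norm_sub_le (G ((q' * n : ℕ) : ZMod p)) (G ((q * n : ℕ) : ZMod p))
  have := pow_le_pow_left₀ (norm_nonneg _) this 2
  nlinarith [sq_nonneg (‖G ((q' * n : ℕ) : ZMod p)‖ - ‖G ((q * n : ℕ) : ZMod p)‖)]

open Classical in
theorem chn_level (hP : PAR_s) (hC : CHEB_s) (hL : LOC_s) (p : ℕ) [Fact p.Prime]
    (Λ : Finset (Ch p)) (j : ℕ) (hj : 1 ≤ j)
    (h : (2 : ℝ) ^ (j + 3) * (2 * #Λ * √p + 1) ≤ p - 1) :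
    ∑ χ ∈ Λ, mu p χ * ((∑ q ∈ PP j, ∑ q' ∈ PP (j + 1),
      ‖χ (q : ZMod p) - χ (q' : ZMod p)‖ ^ 2) / ((#(PP j) : ℝ) * #(PP (j + 1)))) ≤
      256 * j * Nat.log 2 p * ∑ χ ∈ Λᶜ, mu p χ := by
  have p1 : 1 ≤ p := (Fact.out : p.Prime).pos
  obtain ⟨X, hX⟩ : ∃ X, X = (p - 1) / 2 ^ (j + 2) := ⟨_, rfl⟩
  have x1 : 2 ^ (j + 2) * X ≤ p - 1 := hX ▸ Nat.mul_div_le _ _
  have x2 : p - 1 < 2 ^ (j + 2) * (X + 1) := hX ▸ Nat.lt_mul_div_succ _ (by positivity)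
  have x3 : (p : ℝ) - 1 < 2 ^ (j + 2) * (X + 1) := by
    have : ((p - 1 : ℕ) : ℝ) < ((2 ^ (j + 2) * (X + 1) : ℕ) : ℝ) := Nat.cast_lt.2 x2
    rw [Nat.cast_sub p1] at this
    exact_mod_cast this
  have s0 : (0 : ℝ) ≤ 2 * #Λ * √p := by positivity
  have t0 : (0 : ℝ) < 2 ^ (j + 2) := by positivity
  have x4 : 2 * (2 * #Λ * √p + 1) < (X : ℝ) + 1 := by
    refine lt_of_mul_lt_mul_left (a := (2 : ℝ) ^ (j + 2)) (lt_of_le_of_lt ?_ x3) t0.le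
    rw [pow_succ] at h
    linarith
  have x5 : (1 : ℝ) < X := by linarith
  have kq : ∀ q ∈ PP (j + 1), q.Prime ∧ q * (2 * X) < p := fun q hq => by
    obtain ⟨a, b⟩ := mem_filter.1 hq
    have : q * (2 * X) ≤ 2 ^ (j + 1) * (2 * X) :=
      Nat.mul_le_mul_right _ (Nat.lt_succ_iff.1 (mem_range.1 a))
    rw [← mul_assoc (2 ^ (j + 1)), ← pow_succ, add_assoc j 1 1] at this
    exact ⟨b, (this.trans x1).trans_lt (Nat.sub_lt p1 one_pos)⟩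
  have sb : PP j ⊆ PP (j + 1) := filter_subset_filter _ (range_mono
    (Nat.succ_le_succ (Nat.pow_le_pow_right two_pos j.le_succ)))
  have x6 : 2 * X < p := by
    have : 2 * X ≤ 2 ^ (j + 2) * X :=
      Nat.mul_le_mul_right _ (Nat.le_self_pow (by omega) 2)
    omega
  obtain ⟨G, hG⟩ : ∃ G : ZMod p → ℂ,
      ∀ a, G a = ∑ χ ∈ Λᶜ, co p (fun a => (ff p a : ℂ)) χ * χ a := ⟨_, fun _ => rfl⟩
  have g1 : ∑ a, ‖G a‖ ^ 2 = ((p : ℝ) - 1) * ∑ χ ∈ Λᶜ, mu p χ := by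
    have := (hP p).2 fun χ => if χ ∈ Λᶜ then co p (fun a => (ff p a : ℂ)) χ else 0
    simp only [ite_mul, zero_mul, sum_ite_mem, univ_inter, apply_ite (fun z : ℂ => ‖z‖ ^ 2),
      norm_zero, zero_pow two_ne_zero] at this
    simp only [hG, mu]
    exact this
  have c1 := chn_cnt hC p (fun a => ‖G a‖ ^ 2) (fun _ => sq_nonneg _) _ _ kq
  have c2 := chn_cnt hC p (fun a => ‖G a‖ ^ 2) (fun _ => sq_nonneg _) _ _ fun q hq => kq q (sb hq)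
  rw [g1] at c1 c2
  have m := sum_le_sum fun q (hq : q ∈ PP j) => sum_le_sum fun q' (hq' : q' ∈ PP (j + 1)) =>
    chn_pair hP hL p Λ X x6 (by linarith) G hG (kq q (sb hq)).1 (kq q' hq').1 (kq q (sb hq)).2
      (kq q' hq').2
  simp only [sum_add_distrib, sum_const, nsmul_eq_mul, ← mul_sum] at m
  have e : ∑ χ ∈ Λ, mu p χ * ((∑ q ∈ PP j, ∑ q' ∈ PP (j + 1),
      ‖χ (q : ZMod p) - χ (q' : ZMod p)‖ ^ 2) / ((#(PP j) : ℝ) * #(PP (j + 1)))) =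
      (∑ q ∈ PP j, ∑ q' ∈ PP (j + 1), ∑ χ ∈ Λ, mu p χ *
        ‖χ (q : ZMod p) - χ (q' : ZMod p)‖ ^ 2) / ((#(PP j) : ℝ) * #(PP (j + 1))) := by
    simp only [← mul_div_assoc, ← sum_div, mul_sum]
    rw [sum_comm]
    exact congrArg (· / _) (sum_congr rfl fun _ _ => sum_comm)
  rw [e]
  have ch : (2 : ℝ) ^ j ≤ 4 * j * #(PP j) := by
    have := hC.1 (2 ^ j) (Nat.le_self_pow (by omega) 2)
    rw [Nat.log_pow one_lt_two] at this
    exact_mod_cast this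
  have ab : (#(PP j) : ℝ) ≤ #(PP (j + 1)) := Nat.cast_le.2 (card_le_card sb)
  have e0 : 0 ≤ ∑ χ ∈ Λᶜ, mu p χ := sum_nonneg fun _ _ => sq_nonneg _
  have j0 : (0 : ℝ) < 2 ^ j := by positivity
  have a0 : (0 : ℝ) < #(PP j) := by
    by_contra n
    have : 4 * (j : ℝ) * #(PP j) ≤ 0 := mul_nonpos_of_nonneg_of_nonpos (by positivity) (not_lt.1 n)
    linarith
  have l0 : (0 : ℝ) ≤ Nat.log 2 p := Nat.cast_nonneg _
  have pp : (p : ℝ) - 1 ≤ 32 * j * #(PP j) * X := by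
    rw [pow_add] at x3
    nlinarith [mul_le_mul_of_nonneg_right ch (by linarith : (0 : ℝ) ≤ X)]
  generalize (∑ q ∈ PP j, ∑ q' ∈ PP (j + 1), ∑ χ ∈ Λ, mu p χ *
    ‖χ (q : ZMod p) - χ (q' : ZMod p)‖ ^ 2) = A at *
  generalize (∑ q ∈ PP j, ∑ n ∈ Icc 1 (2 * X), ‖G ((q * n : ℕ) : ZMod p)‖ ^ 2) = S at *
  generalize (∑ q ∈ PP (j + 1), ∑ n ∈ Icc 1 (2 * X), ‖G ((q * n : ℕ) : ZMod p)‖ ^ 2) = S' at *
  generalize (∑ χ ∈ Λᶜ, mu p χ) = ε at *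
  generalize (#(PP j) : ℝ) = a at *
  generalize (#(PP (j + 1)) : ℝ) = b at *
  generalize (Nat.log 2 p : ℝ) = l at *
  have b0 : 0 < b := a0.trans_le ab
  have w := mul_le_mul_of_nonneg_left (mul_le_mul_of_nonneg_right pp e0) l0
  have w0 : 0 ≤ l * (32 * j * a * X * ε) := by positivity
  rw [div_le_iff₀ (mul_pos a0 b0)]
  refine le_of_mul_le_mul_left (a := (X : ℝ) / 2) (m.trans ?_) (by linarith)
  have u1 := mul_le_mul_of_nonneg_left (c2.trans w) b0.le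
  have u2 := mul_le_mul_of_nonneg_left (c1.trans w) a0.le
  have u3 := mul_le_mul_of_nonneg_right ab w0
  nlinarith

open Classical in
theorem chn_row (hPAR : PAR_s) (hMU : MU_s) (hCHEB : CHEB_s) (hLOC : LOC_s) : CHN_s := by
  intro p hp Λ J h2 h
  have p0 : (0 : ℝ) < (p : ℝ) - 1 := by
    have : (2 : ℝ) < p := by exact_mod_cast h2
    linarith
  have s0 : (0 : ℝ) ≤ 2 * #Λ * √p := by positivity
  have m0 : ∀ χ, 0 ≤ mu p χ := fun _ => sq_nonneg _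
  have hJ : J ≤ Nat.log 2 p := by
    refine Nat.le_log_of_pow_le one_lt_two ?_
    have a : (2 : ℝ) ^ J ≤ 2 ^ (J + 2) := pow_le_pow_right₀ one_le_two (by omega)
    have b : (0 : ℝ) < 2 ^ (J + 2) := by positivity
    have : (2 : ℝ) ^ J ≤ p := by nlinarith
    exact_mod_cast this
  have A : ∑ χ ∈ Λ, mu p χ * ‖χ ((2 : ℕ) : ZMod p) + 1‖ ^ 2 ≤ 4 * bad p 2 / ((p : ℝ) - 1) := by
    have := (hMU p).2 2 (Nat.not_dvd_of_pos_of_lt two_pos h2)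
    rw [lam_prime Nat.prime_two, Int.cast_neg, Int.cast_one] at this
    simp only [sub_neg_eq_add] at this
    rw [le_div_iff₀ p0, ← this, mul_comm]
    exact mul_le_mul_of_nonneg_left (sum_le_univ_sum_of_nonneg fun χ =>
      mul_nonneg (m0 χ) (sq_nonneg _)) p0.le
  simp only [VV, mul_add, sum_add_distrib, mul_sum (Ico 1 J)]
  refine add_le_add A ?_
  rw [sum_comm]
  have e0 : 0 ≤ ∑ χ ∈ Λᶜ, mu p χ := sum_nonneg fun χ _ => m0 χ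
  have l0 : (0 : ℝ) ≤ Nat.log 2 p := Nat.cast_nonneg _
  refine (sum_le_card_nsmul _ _ (256 * Nat.log 2 p * Nat.log 2 p * ∑ χ ∈ Λᶜ, mu p χ)
    fun j hj => ?_).trans ?_
  · rw [mem_Ico] at hj
    refine (chn_level hPAR hCHEB hLOC p Λ j hj.1 (le_trans (mul_le_mul_of_nonneg_right
      (pow_le_pow_right₀ one_le_two (by omega)) (by linarith)) h)).trans ?_
    have : (j : ℝ) ≤ Nat.log 2 p := Nat.cast_le.2 (by omega)
    gcongr
  · rw [nsmul_eq_mul, Nat.card_Ico, ← mul_assoc]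
    have : ((J - 1 : ℕ) : ℝ) ≤ Nat.log 2 p := Nat.cast_le.2 (by omega)
    refine mul_le_mul_of_nonneg_right ?_ e0
    nlinarith [mul_le_mul_of_nonneg_right this (mul_nonneg l0 l0), mul_nonneg l0 l0]

end Pool.Agent.G60
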