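import Pool.Agent.MP_b5e119_nt.G60.Defs

namespace Pool.Agent.G60

open Finset Filter Topology

theorem con_mu_nonneg (p : ℕ) [NeZero p] (χ : Ch p) : 0 ≤ mu p χ := by
  unfold mu; positivity

theorem con_VV_nonneg (p : ℕ) (χ : Ch p) (J : ℕ) : 0 ≤ VV p χ J := by
  unfold VV
  refine add_nonneg (by positivity) (sum_nonneg fun j _ => div_nonneg ?_ (by positivity))
  exact sum_nonneg fun q _ => sum_nonneg fun q' _ => by positivity

theorem con_norm (p : ℕ) [Fact p.Prime] (χ : Ch p) (q : ℕ) (hq : ¬p ∣ q) :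
    ‖χ (q : ZMod p) + 1‖ ^ 2 = 2 + 2 * (χ (q : ZMod p)).re := by
  have h0 : (q : ZMod p) ≠ 0 := by
    rwa [Ne, ZMod.natCast_eq_zero_iff]
  have h1 : ‖χ (q : ZMod p)‖ = 1 := by
    have := DirichletCharacter.unit_norm_eq_one χ (Units.mk0 _ h0)
    simpa using this
  have h2 : (χ (q : ZMod p)).re ^ 2 + (χ (q : ZMod p)).im ^ 2 = 1 := by
    have := Complex.sq_norm (χ (q : ZMod p))
    rw [h1, Complex.normSq_apply] at this
    nlinarith
  rw [Complex.sq_norm, Complex.normSq_apply]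
  simp only [Complex.add_re, Complex.one_re, Complex.add_im, Complex.one_im]
  nlinarith

/-- A prime with few bad residues is close to `-1` in the mean. -/
theorem con_mean (hMU : MU_s) (p : ℕ) [Fact p.Prime] (q : ℕ) (hq : q.Prime) (hqp : q < p)
    (D : ℝ) (hD : 0 < D) (hb : (bad p q : ℝ) * D ≤ p) :
    ∑ χ : Ch p, mu p χ * ‖χ (q : ZMod p) + 1‖ ^ 2 ≤ 8 / D := by
  have hnd : ¬p ∣ q := Nat.not_dvd_of_pos_of_lt hq.pos hqp
  have h := (hMU p).2 q hnd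
  rw [lam_prime hq] at h
  have e : ∀ χ : Ch p, χ (q : ZMod p) - ((-1 : ℤ) : ℂ) = χ (q : ZMod p) + 1 := by
    intro χ; push_cast; ring
  simp only [e] at h
  have hp2 : (2 : ℝ) ≤ p := by exact_mod_cast (Fact.out : p.Prime).two_le
  set S := ∑ χ : Ch p, mu p χ * ‖χ (q : ZMod p) + 1‖ ^ 2 with hS
  rw [le_div_iff₀ hD]
  have h1 : ((p : ℝ) - 1) * (S * D) ≤ ((p : ℝ) - 1) * 8 := by
    calc ((p : ℝ) - 1) * (S * D) = (((p : ℝ) - 1) * S) * D := by ring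
      _ = 4 * ((bad p q : ℝ) * D) := by rw [h]; ring
      _ ≤ 4 * p := by linarith
      _ ≤ _ := by linarith
  exact le_of_mul_le_mul_left h1 (by linarith)

open Classical in
theorem con_off (hMU : MU_s) (p : ℕ) [Fact p.Prime] (j : ℕ) (hj : 1 ≤ j) (hjp : 2 ^ j < p)
    (D : ℝ) (hD : 0 < D) (hb : ∀ q ∈ PP j, (bad p q : ℝ) * D ≤ p) :
    ∑ χ ∈ (LL p j)ᶜ, mu p χ ≤ 8 / D := by
  have hmem : ∀ q ∈ PP j, q.Prime ∧ q < p := by
    intro q hq
    rw [PP, mem_filter, mem_range] at hq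
    exact ⟨hq.2, by omega⟩
  have h2 : 2 ∈ PP j := by
    rw [PP, mem_filter, mem_range]
    refine ⟨?_, Nat.prime_two⟩
    have : 2 ^ 1 ≤ 2 ^ j := Nat.pow_le_pow_right (by norm_num) hj
    omega
  have hP : (0 : ℝ) < #(PP j) := by exact_mod_cast card_pos.2 ⟨2, h2⟩
  have hoff : ∀ χ ∈ (LL p j)ᶜ, (#(PP j) : ℝ) ≤ ∑ q ∈ PP j, ‖χ (q : ZMod p) + 1‖ ^ 2 := by
    intro χ hχ
    rw [mem_compl, LL, mem_filter, not_and] at hχ
    have h := not_le.1 (hχ (mem_univ _))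
    rw [Complex.re_sum] at h
    simp only [Complex.neg_re, sum_neg_distrib] at h
    have e : ∑ q ∈ PP j, ‖χ (q : ZMod p) + 1‖ ^ 2 =
        2 * (#(PP j) : ℝ) + 2 * ∑ q ∈ PP j, (χ (q : ZMod p)).re := by
      rw [sum_congr rfl fun q hq => con_norm p χ q
        (Nat.not_dvd_of_pos_of_lt (hmem q hq).1.pos (hmem q hq).2), sum_add_distrib, ← mul_sum]
      simp [mul_comm]
    rw [e]; linarith
  have h1 : (#(PP j) : ℝ) * ∑ χ ∈ (LL p j)ᶜ, mu p χ ≤ (#(PP j) : ℝ) * (8 / D) := by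
    calc (#(PP j) : ℝ) * ∑ χ ∈ (LL p j)ᶜ, mu p χ
        = ∑ χ ∈ (LL p j)ᶜ, mu p χ * (#(PP j) : ℝ) := by rw [mul_comm, sum_mul]
      _ ≤ ∑ χ ∈ (LL p j)ᶜ, mu p χ * ∑ q ∈ PP j, ‖χ (q : ZMod p) + 1‖ ^ 2 :=
          sum_le_sum fun χ hχ => mul_le_mul_of_nonneg_left (hoff χ hχ) (con_mu_nonneg p χ)
      _ ≤ ∑ χ : Ch p, mu p χ * ∑ q ∈ PP j, ‖χ (q : ZMod p) + 1‖ ^ 2 :=
          sum_le_sum_of_subset_of_nonneg (subset_univ _) fun χ _ _ =>
            mul_nonneg (con_mu_nonneg p χ) (sum_nonneg fun q _ => by positivity)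
      _ = ∑ q ∈ PP j, ∑ χ : Ch p, mu p χ * ‖χ (q : ZMod p) + 1‖ ^ 2 := by
          rw [sum_comm]; exact sum_congr rfl fun χ _ => mul_sum _ _ _
      _ ≤ ∑ q ∈ PP j, 8 / D :=
          sum_le_sum fun q hq => con_mean hMU p q (hmem q hq).1 (hmem q hq).2 D hD (hb q hq)
      _ = _ := by simp
  exact le_of_mul_le_mul_left h1 hP

theorem con_num (l e V b : ℝ) (A : ℕ) (hl : 16400 ≤ l) (he : e ≤ 8 / l ^ (A + 9))
    (hb : b ≤ 8 / l ^ (A + 9)) (hV : V ≤ b + 256 * (l + 1) ^ 3 * e) :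
    (V * l ^ 5 + e) * l ^ A ≤ 1 := by
  have hl0 : 0 < l := by linarith
  have hD : 0 < l ^ (A + 9) := by positivity
  set t := 8 / l ^ (A + 9) with ht
  have ht0 : 0 ≤ t := by positivity
  have h3 : (l + 1) ^ 3 ≤ 8 * l ^ 3 := by
    calc (l + 1) ^ 3 ≤ (2 * l) ^ 3 := pow_le_pow_left₀ (by linarith) (by linarith) 3
      _ = _ := by ring
  have h13 : 1 ≤ l ^ 3 := one_le_pow₀ (by linarith)
  have h18 : 1 ≤ l ^ 8 := one_le_pow₀ (by linarith)
  have hV1 : V ≤ 2049 * l ^ 3 * t := by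
    have a1 : 256 * (l + 1) ^ 3 * e ≤ 256 * (l + 1) ^ 3 * t :=
      mul_le_mul_of_nonneg_left he (by positivity)
    have a2 : 256 * (l + 1) ^ 3 * t ≤ 256 * (8 * l ^ 3) * t :=
      mul_le_mul_of_nonneg_right (by linarith) ht0
    have a3 : t ≤ l ^ 3 * t := le_mul_of_one_le_left ht0 h13
    linarith
  have h5 : V * l ^ 5 + e ≤ 2050 * l ^ 8 * t := by
    have a1 : V * l ^ 5 ≤ 2049 * l ^ 3 * t * l ^ 5 := mul_le_mul_of_nonneg_right hV1 (by positivity)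
    have a2 : t ≤ l ^ 8 * t := le_mul_of_one_le_left ht0 h18
    have a3 : 2049 * l ^ 3 * t * l ^ 5 = 2049 * (l ^ 8 * t) := by ring
    linarith
  calc (V * l ^ 5 + e) * l ^ A ≤ 2050 * l ^ 8 * t * l ^ A :=
        mul_le_mul_of_nonneg_right h5 (by positivity)
    _ = 16400 / l := by rw [ht]; field_simp; ring
    _ ≤ 1 := by rw [div_le_one hl0]; exact hl

theorem con_row [Sg] (hST2 : ST2_s) (hMU : MU_s) (hFEW : FEW_s) (hCHN : CHN_s) (hVINO : VINO_s) :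
    CON_s := by
  classical
  intro A
  obtain ⟨K, p₁, h1⟩ := hFEW
  obtain ⟨B, p₂, h2⟩ := hST2 (A + 9) K
  obtain ⟨p₃, h3⟩ := hVINO
  obtain ⟨p₄, h4⟩ : ∃ p₄ : ℕ, ∀ p : ℕ, p₄ ≤ p → 16400 ≤ Nat.log 2 p := by
    have : ∀ n : ℕ, ∃ p₄ : ℕ, ∀ p : ℕ, p₄ ≤ p → n ≤ Nat.log 2 p := fun n =>
      ⟨2 ^ n, fun p hp => Nat.le_log_of_pow_le (by norm_num) hp⟩
    exact this 16400
  refine ⟨B, p₁ + p₂ + p₃ + p₄, fun p _ hp hod χ₀ hu => ?_⟩
  obtain ⟨j, J, hj, hjK, hjp, hJ1, hJ2, hΛ⟩ := h1 p (by omega)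
  have hl : (16400 : ℝ) ≤ (Nat.log 2 p : ℝ) := by exact_mod_cast h4 p (by omega)
  have h2j : 2 ≤ 2 ^ j := by
    have : 2 ^ 1 ≤ 2 ^ j := Nat.pow_le_pow_right (by norm_num) hj
    omega
  have hp2 : 2 < p := by omega
  have hp2' : (2 : ℝ) < p := by exact_mod_cast hp2
  set l : ℝ := (Nat.log 2 p : ℝ) with hldef
  have hD : 0 < l ^ (A + 9) := by positivity
  have hbad : ∀ m, 0 < m → m ≤ 2 ^ j → (bad p m : ℝ) * l ^ (A + 9) ≤ p := by
    intro m hm hmj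
    have := h2 p (by omega) hod m hm (hmj.trans hjK)
    rw [hldef]; exact_mod_cast this
  have he := con_off hMU p j hj hjp (l ^ (A + 9)) hD fun q hq => by
    rw [PP, mem_filter, mem_range] at hq
    exact hbad q hq.2.pos (by omega)
  have hb : 4 * (bad p 2 : ℝ) / ((p : ℝ) - 1) ≤ 8 / l ^ (A + 9) := by
    have := hbad 2 (by norm_num) h2j
    rw [div_le_div_iff₀ (by linarith) hD]
    linarith
  have hV := hCHN p (LL p j) J hp2 hΛ
  have hnum := con_num l _ _ _ A hl he hb hV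
  refine le_trans (mul_le_mul_of_nonneg_right ?_ (by positivity)) hnum
  have hpt : ∀ χ : Ch p, mu p χ ≤ (if χ = χ₀ then mu p χ else 0) +
      ((if χ ∈ LL p j then mu p χ * VV p χ J * l ^ 5 else 0) +
        (if χ ∈ (LL p j)ᶜ then mu p χ else 0)) := by
    intro χ
    have m0 := con_mu_nonneg p χ
    have v0 : 0 ≤ mu p χ * VV p χ J * l ^ 5 :=
      mul_nonneg (mul_nonneg m0 (con_VV_nonneg p χ J)) (by positivity)
    by_cases hL : χ ∈ LL p j
    · have hL' : χ ∉ (LL p j)ᶜ := by simpa using hL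
      rw [if_pos hL, if_neg hL']
      by_cases h0 : χ = χ₀
      · rw [if_pos h0]; linarith
      · rw [if_neg h0]
        have : 1 ≤ VV p χ J * l ^ 5 := by
          by_contra hc
          obtain ⟨a, b⟩ := h3 p (by omega) χ J hJ1 hJ2 (not_le.1 hc).le
          exact h0 (hu χ a b)
        have := mul_le_mul_of_nonneg_left this m0
        linarith [mul_assoc (mu p χ) (VV p χ J) (l ^ 5)]
    · have hL' : χ ∈ (LL p j)ᶜ := by simpa using hL
      rw [if_neg hL, if_pos hL']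
      split_ifs <;> linarith
  have hs := sum_le_sum fun χ (_ : χ ∈ (univ : Finset (Ch p))) => hpt χ
  rw [(hMU p).1, sum_add_distrib, sum_add_distrib, sum_ite_eq' univ χ₀, if_pos (mem_univ _),
    sum_ite_mem, sum_ite_mem, univ_inter, univ_inter, ← sum_mul] at hs
  linarith

end Pool.Agent.G60
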