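import Pool.Agent.MP_b5e119_nt.G60.Defs

namespace Pool.Agent.G60

variable [Sg]

open Finset

omit [Sg] in
theorem dir_far (p : ℕ) [hp : Fact p.Prime] (m : ℕ) (h2 : 2 ≤ m) (hm : m < p) :
    far p m (Ico 1 m) = 0 := by
  unfold far
  rw [card_eq_zero, filter_eq_empty_iff]
  intro a _ h
  have hp0 : (0 : ℝ) < p := by exact_mod_cast hp.out.pos
  obtain ⟨j, k, hk0, hk, hle⟩ :=
    Real.exists_int_int_abs_mul_sub_le ((a.val : ℝ) / p) (n := m - 1) (by omega)
  lift k to ℕ using hk0.le
  have hk1 : k ∈ Ico 1 m := by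
    rw [mem_Ico]
    omega
  have h1 := h k hk1
  have hm1 : ((m - 1 : ℕ) : ℝ) + 1 = m := by
    rw [Nat.cast_sub (by omega)]
    simp
  have hm0 : (0 : ℝ) < m := by exact_mod_cast (by omega : 0 < m)
  rw [hm1] at hle
  have h3 : (m : ℝ) * |(k : ℝ) * a.val - j * p| ≤ p := by
    have e : (k : ℝ) * a.val - j * p = (((k : ℤ) : ℝ) * ((a.val : ℝ) / p) - j) * p := by
      push_cast
      field_simp
    rw [e, abs_mul, abs_of_pos hp0]
    rw [le_div_iff₀ hm0] at hle
    nlinarith
  have h4 : m * ((k : ℤ) * a.val - j * p).natAbs ≤ p := by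
    have : ((m * ((k : ℤ) * a.val - j * p).natAbs : ℕ) : ℝ) ≤ p := by
      rw [Nat.cast_mul, Nat.cast_natAbs]
      push_cast
      exact h3
    exact_mod_cast this
  have h5 : ((k : ZMod p) * a).valMinAbs.natAbs ≤ ((k : ℤ) * a.val - j * p).natAbs := by
    refine ZMod.natAbs_min_of_le_div_two p _ _ ?_ (ZMod.natAbs_valMinAbs_le _)
    simp
  have h6 : m * ((k : ZMod p) * a).valMinAbs.natAbs = p :=
    le_antisymm ((Nat.mul_le_mul_left m h5).trans h4) h1
  rcases (Nat.dvd_prime hp.out).1 (Dvd.intro _ h6) with h | h <;> omega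

omit [Sg] in
theorem dir_geo (m : ℕ) : ∑ s ∈ Ico 1 (m + 1), 2 * 3 ^ (s - 1) + 1 = 3 ^ m := by
  induction m with
  | zero => simp
  | succ m ih =>
    rw [sum_Ico_succ_top (by omega), Nat.add_sub_cancel, pow_succ]
    omega

theorem dir_row (hSUB : SUB_s) (hTR : TR_s) : DIR_s := by
  intro p hp m
  induction m using Nat.strong_induction_on with
  | _ m ih =>
    intro h0 hm
    rcases Nat.lt_or_ge m 2 with h | h
    · obtain rfl : m = 1 := by omega
      simp [(hSUB p).1]
    · have h1 := hTR p m (Ico 1 m) (Nat.not_dvd_of_pos_of_lt h0 hm) fun s hs =>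
        Nat.not_dvd_of_pos_of_lt (by have := mem_Ico.1 hs; omega) (by have := mem_Ico.1 hs; omega)
      rw [dir_far p m h hm, zero_add] at h1
      have h2 : ∑ s ∈ Ico 1 m, (2 * bad p s + 2 * od p) ≤
          ∑ s ∈ Ico 1 m, 2 * 3 ^ (s - 1) * od p := by
        refine sum_le_sum fun s hs => ?_
        have hs' := mem_Ico.1 hs
        have := ih s hs'.2 (by omega) (by omega)
        rw [mul_assoc]
        omega
      rw [← sum_mul] at h2
      have h3 := dir_geo (m - 1)
      rw [Nat.sub_add_cancel (by omega)] at h3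
      rw [← h3, add_mul, one_mul]
      omega

end Pool.Agent.G60
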