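import Mathlib

/-! Statements of the rows of campaign h60g: sign patterns of `(λ a, λ (N - a))`. -/

namespace Pool.Agent.G60

open Finset Filter Topology

noncomputable section

/-- Liouville's function (value `1` at `0`). -/
def lam (n : ℕ) : ℤ := (-1) ^ (ArithmeticFunction.cardFactors n)

/-- `λ` on the residues `1, …, p - 1`, and `0` at `0`. -/
def ff (p : ℕ) (a : ZMod p) : ℤ := if a = 0 then 0 else lam a.val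

/-- A sign: the parity of `λ` under `a ↦ -a` that is assumed to hold for most residues. -/
class Sg where
  s : ℤ
  hs : s = 1 ∨ s = -1

variable [Sg]

def od (p : ℕ) [NeZero p] : ℕ := #{a : ZMod p | ff p (-a) ≠ Sg.s * ff p a}

def bad (p : ℕ) [NeZero p] (m : ℕ) : ℕ := #{a : ZMod p | ff p ((m : ZMod p) * a) ≠ lam m * ff p a}

/-- Residues kept out of the window `|x| < p / m` by all multipliers of `S`. -/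
def far (p : ℕ) [NeZero p] (m : ℕ) (S : Finset ℕ) : ℕ :=
  #{a : ZMod p | ∀ s ∈ S, p ≤ m * ((s : ZMod p) * a).valMinAbs.natAbs}

/-- Primes up to `2 ^ j`. -/
def PP (j : ℕ) : Finset ℕ := {q ∈ range (2 ^ j + 1) | q.Prime}

abbrev Ch (p : ℕ) := DirichletCharacter ℂ p

def co (p : ℕ) [NeZero p] (g : ZMod p → ℂ) (χ : Ch p) : ℂ :=
  (∑ a, g a * (starRingEnd ℂ) (χ a)) / ((p : ℂ) - 1)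

def mu (p : ℕ) [NeZero p] (χ : Ch p) : ℝ := ‖co p (fun a => (ff p a : ℂ)) χ‖ ^ 2

open Classical in
def LL (p j : ℕ) [NeZero p] : Finset (Ch p) :=
  {χ | (#(PP j) : ℝ) / 2 ≤ (∑ q ∈ PP j, -χ (q : ZMod p)).re}

def VV (p : ℕ) (χ : Ch p) (J : ℕ) : ℝ := ‖χ ((2 : ℕ) : ZMod p) + 1‖ ^ 2 + ∑ j ∈ Ico 1 J,
  (∑ q ∈ PP j, ∑ q' ∈ PP (j + 1), ‖χ (q : ZMod p) - χ (q' : ZMod p)‖ ^ 2) /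
    ((#(PP j) : ℝ) * #(PP (j + 1)))

/-- The Legendre symbol of a natural number. -/
def leg (p : ℕ) [Fact p.Prime] (n : ℕ) : ℤ := legendreSym p (n : ℤ)

def Ex (p : ℕ) [Fact p.Prime] (σ : ℤ) : ℕ := #{n ∈ Ico 1 p | lam n ≠ σ * leg p n}

def SQ_s : Prop := ∀ x : ℕ, 0 ≤ ∑ n ∈ Icc 1 x, ∑ d ∈ n.divisors, lam d ∧
  ((∑ n ∈ Icc 1 x, ∑ d ∈ n.divisors, lam d : ℤ) : ℝ) ≤ √x

def HYP_s : Prop := ∀ (a b : ℕ → ℝ) (x U : ℕ), 0 < U → U ≤ x →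
  ∑ n ∈ Icc 1 x, ∑ y ∈ n.divisorsAntidiagonal, a y.1 * b y.2 =
    ∑ d ∈ Icc 1 U, a d * ∑ m ∈ Icc 1 (x / d), b m +
      ∑ m ∈ Icc 1 (x / U), b m * (∑ d ∈ Icc 1 (x / m), a d - ∑ d ∈ Icc 1 U, a d)

def LIO1_s : Prop := ∀ B : ℕ, ∃ C : ℝ, 0 < C ∧ ∀ y : ℕ, 2 ≤ y →
  |∑ d ∈ Icc 1 y, ((lam d : ℝ) * ArithmeticFunction.vonMangoldt d + 1)| ≤ C * y / Real.log y ^ B

def LIO_s : Prop := ∀ A : ℕ, ∃ C : ℝ, 0 < C ∧ ∀ x : ℕ, 2 ≤ x →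
  |∑ n ∈ Icc 1 x, (lam n : ℝ)| ≤ C * x / Real.log x ^ A

def SUB_s : Prop := ∀ (p : ℕ) [Fact p.Prime], bad p 1 = 0 ∧
  (∀ m m' : ℕ, ¬p ∣ m → ¬p ∣ m' → bad p (m * m') ≤ bad p m + bad p m') ∧
  ∀ (l : List ℕ) (β : ℕ), (∀ x ∈ l, ¬p ∣ x ∧ bad p x ≤ β) → bad p l.prod ≤ l.length * β

def TR_s : Prop := ∀ (p : ℕ) [Fact p.Prime] (m : ℕ) (S : Finset ℕ), ¬p ∣ m → (∀ s ∈ S, ¬p ∣ s) →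
  bad p m ≤ far p m S + ∑ s ∈ S, (2 * bad p s + 2 * od p)

def DIR_s : Prop := ∀ (p : ℕ) [Fact p.Prime] (m : ℕ), 0 < m → m < p →
  bad p m + od p ≤ 3 ^ (m - 1) * od p

def FEJ_s : Prop := ∀ (p : ℕ) [Fact p.Prime] (m w : ℕ) (T : Finset ℕ), 2 ≤ m → m ^ 2 ≤ 2 ^ w →
  (∀ t ∈ T, 0 < t ∧ 2 * m ^ 2 * t ^ w < p) →
    far p m (T.image (· ^ w)) * #T ≤ 4 * m ^ 2 * p

def SMO_s : Prop := ∀ k : ℕ, ∃ y : ℕ, ∀ E : ℕ, ∃ T : Finset ℕ, #T = E ^ k ∧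
  ∀ t ∈ T, ∃ l : List ℕ, l.prod = t ∧ l.length ≤ k * E ∧ ∀ x ∈ l, 0 < x ∧ x ≤ y

def ST2_s : Prop := ∀ A K : ℕ, ∃ B p₀ : ℕ, ∀ (p : ℕ) [Fact p.Prime], p₀ ≤ p →
  od p * Nat.log 2 p ^ B ≤ p → ∀ m, 0 < m → m ≤ Nat.log 2 p ^ K → bad p m * Nat.log 2 p ^ A ≤ p

def PAR_s : Prop := ∀ (p : ℕ) [Fact p.Prime],
  (∀ g : ZMod p → ℂ, g 0 = 0 → ∀ a, g a = ∑ χ : Ch p, co p g χ * χ a) ∧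
  ∀ d : Ch p → ℂ, ∑ a : ZMod p, ‖∑ χ : Ch p, d χ * χ a‖ ^ 2 = ((p : ℝ) - 1) * ∑ χ : Ch p, ‖d χ‖ ^ 2

def MU_s : Prop := ∀ (p : ℕ) [Fact p.Prime], ∑ χ : Ch p, mu p χ = 1 ∧ ∀ m : ℕ, ¬p ∣ m →
  ((p : ℝ) - 1) * ∑ χ : Ch p, mu p χ * ‖χ (m : ZMod p) - (lam m : ℂ)‖ ^ 2 = 4 * bad p m

def CHEB_s : Prop := (∀ c : ℕ, 2 ≤ c → c ≤ 4 * Nat.log 2 c * #{q ∈ range (c + 1) | q.Prime}) ∧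
  (∀ j : ℕ, 1 ≤ j → ∑ q ∈ Ioc (2 ^ j : ℕ) (2 ^ (j + 1)) with q.Prime, 1 / ((q : ℕ) : ℝ) ≤ 4 / j) ∧
  ∀ u : ℕ, 0 < u → #{q ∈ u.divisors | q.Prime} ≤ Nat.log 2 u

def SPEC_s : Prop := ∀ (p : ℕ) [Fact p.Prime] (j r : ℕ), 1 ≤ j → 2 ^ (j * r) < p →
  #(LL p j) * #(PP j) ^ r ≤ p * (4 * r) ^ r

def FEW_s : Prop := ∃ K p₀ : ℕ, ∀ (p : ℕ) [Fact p.Prime], p₀ ≤ p → ∃ j J : ℕ, 1 ≤ j ∧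
  2 ^ j ≤ Nat.log 2 p ^ K ∧ 2 ^ j < p ∧ 511 * Nat.log 2 p ≤ 1024 * J ∧ J ≤ Nat.log 2 p ∧
  (2 : ℝ) ^ (J + 2) * (2 * #(LL p j) * √p + 1) ≤ p - 1

def SEC_s : Prop := ∀ (p : ℕ) [Fact p.Prime] (ψ : Ch p) (c H : ℕ), ψ ≠ 1 → ¬p ∣ c → H ≤ p →
  ∑ x : ZMod p, ‖∑ j ∈ range H, ψ (x + (j : ZMod p) * c)‖ ^ 2 ≤ p * H

def BIL_s : Prop := ∀ (p : ℕ) [Fact p.Prime] (ψ : Ch p) (X : ℕ), ψ ≠ 1 → X ≤ p →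
  ‖∑ x ∈ Icc 1 X, ∑ y ∈ Icc 1 X, ψ ((x + y : ℕ) : ZMod p)‖ ≤ X * √p

def LOC_s : Prop := ∀ (p : ℕ) [Fact p.Prime] (Λ : Finset (Ch p)) (d : Ch p → ℂ) (X : ℕ),
  2 * X < p → 2 * #Λ * √p ≤ X → (X : ℝ) / 2 * ∑ χ ∈ Λ, ‖d χ‖ ^ 2 ≤
    ∑ n ∈ Icc 1 (2 * X), ‖∑ χ ∈ Λ, d χ * χ (n : ZMod p)‖ ^ 2

open Classical in
def CHN_s : Prop := ∀ (p : ℕ) [Fact p.Prime] (Λ : Finset (Ch p)) (J : ℕ), 2 < p →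
  (2 : ℝ) ^ (J + 2) * (2 * #Λ * √p + 1) ≤ p - 1 →
    ∑ χ ∈ Λ, mu p χ * VV p χ J ≤ 4 * bad p 2 / ((p : ℝ) - 1) +
      256 * ((Nat.log 2 p : ℝ) + 1) ^ 3 * ∑ χ ∈ Λᶜ, mu p χ

/-- The chain along dyadic ranges, for one character. -/
def VIN1_s : Prop := ∀ (p : ℕ) [Fact p.Prime] (χ : Ch p) (J : ℕ), 1 ≤ Nat.log 2 p → 1 ≤ J →
  J ≤ Nat.log 2 p → VV p χ J * (Nat.log 2 p : ℝ) ^ 5 ≤ 1 →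
    ∑ q ∈ PP J, ‖χ (q : ZMod p) + 1‖ / q ≤ 8 / Nat.log 2 p

def VIN2_s : Prop := ∀ (p : ℕ) [Fact p.Prime] (ψ : Ch p) (Y : ℕ), Y < p →
  ∑ n ∈ Icc 1 Y, ‖ψ (n : ZMod p) - 1‖ ≤
    2 * Y * ∑ q ∈ Icc 1 Y with q.Prime, ‖ψ (q : ZMod p) - 1‖ / q

def VINO_s : Prop := ∃ p₀ : ℕ, ∀ (p : ℕ) [Fact p.Prime], p₀ ≤ p → ∀ (χ : Ch p) (J : ℕ),
  511 * Nat.log 2 p ≤ 1024 * J → J ≤ Nat.log 2 p → VV p χ J * (Nat.log 2 p : ℝ) ^ 5 ≤ 1 →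
    χ ^ 2 = 1 ∧ χ ≠ 1

/-- The Legendre symbol as a complex character, and its uniqueness. -/
def UNIQ_s : Prop := ∀ (p : ℕ) [Fact p.Prime], 2 < p → ∃ χ₀ : Ch p, χ₀ ≠ 1 ∧ χ₀ ^ 2 = 1 ∧
  (∀ n : ℕ, χ₀ (n : ZMod p) = (leg p n : ℂ)) ∧ ∀ χ : Ch p, χ ^ 2 = 1 → χ ≠ 1 → χ = χ₀

/-- Concentration of the spectral measure on the quadratic character. -/
def CON_s : Prop := ∀ A : ℕ, ∃ B p₀ : ℕ, ∀ (p : ℕ) [Fact p.Prime], p₀ ≤ p →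
  od p * Nat.log 2 p ^ B ≤ p → ∀ χ₀ : Ch p, (∀ χ : Ch p, χ ^ 2 = 1 → χ ≠ 1 → χ = χ₀) →
    (1 - mu p χ₀) * (Nat.log 2 p : ℝ) ^ A ≤ 1

def STR_s : Prop := ∀ A : ℕ, ∃ B p₀ : ℕ, ∀ (p : ℕ) [Fact p.Prime], p₀ ≤ p →
  od p * Nat.log 2 p ^ B ≤ p → ∃ σ : ℤ, (σ = 1 ∨ σ = -1) ∧ Ex p σ * Nat.log 2 p ^ A ≤ p ∧
    leg p (p - 1) = Sg.s

def MOM_s : Prop := ∃ C : ℝ, 0 < C ∧ ∀ (p : ℕ) [Fact p.Prime] (B : ℕ), 2 < p → B < p →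
  ∑ x ∈ range p, (∑ b ∈ Icc 1 B, (leg p (x + b) : ℝ)) ^ 8 ≤ C * (p * B ^ 4 + B ^ 8 * √p)

def ENE_s : Prop := ∀ N A : ℕ, 0 < A →
  (#{z ∈ (Icc 1 N ×ˢ Icc 1 A) ×ˢ (Icc 1 N ×ˢ Icc 1 A) | z.1.1 * z.2.2 = z.2.1 * z.1.2} : ℝ) ≤
    N * A * (1 + Real.log A) ^ 2

/-- Burgess' amplification in level-set form, with free parameters. -/
def BUR1_s : Prop := ∀ (p : ℕ) [Fact p.Prime] (N A B : ℕ) (τ W : ℝ), 2 < p → 0 < A → 0 < B →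
  N * A < p → A < p → 0 < τ →
  (#{x ∈ range p | τ * B ≤ |∑ b ∈ Icc 1 B, (leg p (x + b) : ℝ)|} : ℝ) ≤ W →
    |∑ n ∈ Icc 1 N, (leg p n : ℝ)| ≤
      τ * N + √(W * (N * A * (1 + Real.log A) ^ 2)) / A + 2 * A * B

def BUR2_s : Prop := ∀ (p : ℕ) [Fact p.Prime] (N : ℕ), 2 < p →
  |∑ n ∈ Icc 1 N, (leg p n : ℝ)| ≤ 5 * (p : ℝ) ^ (2 / 3 : ℝ)

def BURG_s : Prop := ∃ κ : ℝ, 0 < κ ∧ κ ≤ 1 / 1000 ∧ ∃ p₀ : ℕ, ∀ (p : ℕ) [Fact p.Prime], p₀ ≤ p →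
  ∀ N : ℕ, (p : ℝ) ^ (0.32 : ℝ) ≤ N → |∑ n ∈ Icc 1 N, (leg p n : ℝ)| ≤ N * (p : ℝ) ^ (-κ)

def SIEG_s : Prop := ∀ ε : ℝ, 0 < ε → ∃ c : ℝ, 0 < c ∧ ∀ (p : ℕ) [Fact p.Prime], 2 < p → ∃ L : ℝ,
  c / (p : ℝ) ^ ε ≤ |L| ∧ Tendsto (fun N : ℕ => ∑ n ∈ Icc 1 N, (leg p n : ℝ) / n) atTop (𝓝 L)

/-- Tail of the series by partial summation. -/
def TAIL_s : Prop := ∀ (a : ℕ → ℝ) (L δ Q : ℝ) (U M : ℕ), 0 < U → U ≤ M → 0 ≤ δ →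
  (∀ N, U ≤ N → |∑ n ∈ Icc 1 N, a n| ≤ δ * N) → (∀ N, |∑ n ∈ Icc 1 N, a n| ≤ Q) →
  Tendsto (fun N : ℕ => ∑ n ∈ Icc 1 N, a n / n) atTop (𝓝 L) →
    |L - ∑ n ∈ Icc 1 U, a n / n| ≤ δ * (2 + Real.log M) + Q / M

/-- The sign count of step 8. -/
def FIN1_s : Prop := ∀ (p : ℕ) [Fact p.Prime] (c J : ℕ) (K : Finset ℕ) (r : ℕ → ℕ) (τ : ℤ),
  2 < p → 0 < c → c < p → (τ = 1 ∨ τ = -1) → (∀ k ∈ K, 0 < k ∧ k < p ∧ 0 < r k ∧ r k < c) →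
  Set.InjOn r K → 2 * J * c ≤ p → 4 * p ≤ #K * J ^ 2 →
    #K * J ≤ 4 * #{z ∈ K ×ˢ range (2 * J) | leg p z.1 * leg p (r z.1 + z.2 * c) = τ}

/-- `1` and the inert primes below `c`. -/
def KK (p : ℕ) [Fact p.Prime] (c : ℕ) : Finset ℕ :=
  insert 1 {q ∈ range c | q.Prime ∧ leg p q = -1}

/-- Split primes in the admissible range. -/
def SS (p : ℕ) [Fact p.Prime] : Finset ℕ :=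
  {c ∈ range p | c.Prime ∧ leg p c = 1 ∧ 512 * Nat.log 2 p * c ^ 3 ≤ p}

def TWO_s : Prop := ∀ (p : ℕ) [Fact p.Prime] (σ : ℤ), 2 < p → (σ = 1 ∨ σ = -1) →
  2 * od p + 2 * Ex p σ + 1 < p → leg p 2 = -1

def SPL_s : Prop := ∃ p₀ : ℕ, ∀ (p : ℕ) [Fact p.Prime], p₀ ≤ p → ∀ σ : ℤ, (σ = 1 ∨ σ = -1) →
  leg p 2 = -1 → Ex p σ * Nat.log 2 p ^ 6 ≤ p → ∀ c : ℕ, c.Prime → c ^ 3 ≤ p →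
    c ≤ 8 * Nat.log 2 p * #(KK p c)

def MANY_s : Prop := ∀ ε : ℝ, 0 < ε → ∃ p₀ : ℕ, ∀ (p : ℕ) [Fact p.Prime], p₀ ≤ p →
  (p : ℝ) ^ (-ε) ≤ ∑ c ∈ SS p, 1 / (c : ℝ)

/-- Number of pairs `a + b = N` with `λ a = e`, `λ b = e'`. -/
def cnt (N : ℕ) (e e' : ℤ) : ℕ := #{a ∈ Icc 1 (N - 1) | lam a = e ∧ lam (N - a) = e'}

def ODD3_s : Prop := ∀ (p : ℕ) [Fact p.Prime] (e : ℤ), (e = 1 ∨ e = -1) →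
  (od p : ℤ) ≤ |∑ n ∈ Icc 1 (p - 1), lam n| + 2 * cnt p e (-Sg.s * e)

def ODS3_s : Prop := ∀ (B : ℕ) (ε : ℝ), 0 < ε → ∃ p₀ : ℕ, ∀ (p : ℕ) [Fact p.Prime], p₀ ≤ p →
  ∀ e : ℤ, (e = 1 ∨ e = -1) → (cnt p e (-Sg.s * e) : ℝ) ≤ (p : ℝ) ^ (1 - ε) →
    od p * Nat.log 2 p ^ B ≤ p

def FIN3_s : Prop := ∃ p₀ : ℕ, ∀ (p : ℕ) [Fact p.Prime], p₀ ≤ p → ∀ (σ e s : ℤ) (c : ℕ),
  (σ = 1 ∨ σ = -1) → (e = 1 ∨ e = -1) → c ∈ SS p → c ≤ 8 * Nat.log 2 p * #(KK p c) →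
  leg p (p - 1) = s → Ex p σ * Nat.log 2 p ^ 5 ≤ p →
    p ≤ 512 * Nat.log 2 p ^ 2 * c *
      #{m ∈ Icc 1 ((p - 1) / c) | lam (c * m) = e ∧ lam (p - c * m) = -s * e}

def PRI3_s : Prop := ∀ ε : ℝ, 0 < ε → ∃ p₀ : ℕ, ∀ p : ℕ, p.Prime → p₀ ≤ p →
  ∀ e : ℤ, (e = 1 ∨ e = -1) → (p : ℝ) ^ (1 - ε) ≤ cnt p e (-Sg.s * e)

def MON_s : Prop := ∀ (M d : ℕ) (e e' : ℤ), 0 < d → cnt M e e' ≤ cnt (M * d) (lam d * e) (lam d * e')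

def POW_s : Prop := ∀ q K : ℕ, q.Prime → ∃ k : ℕ, ∀ e e' : ℤ, (e = 1 ∨ e = -1) →
  (e' = 1 ∨ e' = -1) → K ≤ cnt (q ^ k) e e'

def TOP3_s : Prop := ∀ ε : ℝ, 0 < ε → ∃ N₀ : ℕ, ∀ N p : ℕ, N₀ ≤ N → p.Prime → p ∣ N →
  ∀ e e' : ℤ, (e = 1 ∨ e = -1) → (e' = 1 ∨ e' = -1) → (p : ℝ) ^ (1 - ε) ≤ cnt N e e'

omit [Sg]

theorem lam_mul {a b : ℕ} (ha : a ≠ 0) (hb : b ≠ 0) : lam (a * b) = lam a * lam b := by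
  simp [lam, ArithmeticFunction.cardFactors_mul ha hb, pow_add]

theorem lam_prime {q : ℕ} (hq : q.Prime) : lam q = -1 := by
  simp [lam, ArithmeticFunction.cardFactors_apply_prime hq]

theorem lam_one : lam 1 = 1 := by simp [lam]

theorem lam_cases (n : ℕ) : lam n = 1 ∨ lam n = -1 := by
  unfold lam; exact neg_one_pow_eq_or ℤ _

theorem leg_mul (p : ℕ) [Fact p.Prime] (a b : ℕ) : leg p (a * b) = leg p a * leg p b := by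
  simp [leg, legendreSym.mul]

end

end Pool.Agent.G60
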