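import Pool.Agent.MP_b5e119_nt.G60.Defs

namespace Pool.Agent.G60

open Finset

theorem few_big (N : ℕ) : ∃ p₀ : ℕ, ∀ p, p₀ ≤ p → N ≤ Nat.log 2 p :=
  ⟨2 ^ N, fun _ h => Nat.le_log_of_pow_le (by norm_num) h⟩

theorem few_pow (m : ℕ) (hm : 40 ≤ m) : 16777216 * (m + 6) ≤ 2 ^ m := by
  induction m, hm using Nat.le_induction with
  | base => norm_num
  | succ m _ ih => rw [pow_succ]; omega

theorem few_card {a b p j r l t : ℕ} (hj : 0 < j) (h1 : a * b ^ r ≤ p * (4 * r) ^ r)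
    (h2 : 2 ^ j ≤ 4 * j * b) (h3 : p ≤ 2 ^ (l + 1)) (h4 : l ≤ j * r + j) (h5 : j * r ≤ l)
    (h6 : 16 * l ≤ 2 ^ t) : a ≤ 2 ^ (j + 1 + t * r) := by
  have k : a * 2 ^ (j * r) ≤ 2 ^ (j + 1 + t * r) * 2 ^ (j * r) :=
    calc a * 2 ^ (j * r) = a * (2 ^ j) ^ r := by rw [pow_mul]
      _ ≤ a * (4 * j * b) ^ r := Nat.mul_le_mul_left _ (Nat.pow_le_pow_left h2 r)
      _ = (4 * j) ^ r * (a * b ^ r) := by rw [mul_pow (4 * j)]; ring
      _ ≤ (4 * j) ^ r * (p * (4 * r) ^ r) := Nat.mul_le_mul_left _ h1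
      _ = p * (16 * (j * r)) ^ r := by
          rw [show 16 * (j * r) = 4 * j * (4 * r) by ring, mul_pow (4 * j)]; ring
      _ ≤ 2 ^ (j * r + j + 1) * (2 ^ t) ^ r :=
          Nat.mul_le_mul (h3.trans (Nat.pow_le_pow_right (by norm_num) (by omega)))
            (Nat.pow_le_pow_left (by omega) r)
      _ = 2 ^ (j + 1 + t * r) * 2 ^ (j * r) := by
          rw [← pow_mul, ← pow_add, ← pow_add]
          congr 1
          ring
  exact Nat.le_of_mul_le_mul_right k (by positivity)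

theorem few_row (hC : CHEB_s) (hS : SPEC_s) : FEW_s := by
  obtain ⟨l₀, hl⟩ := few_big 40
  obtain ⟨p₀, hp⟩ := few_big (l₀ + 1)
  refine ⟨8192, p₀, fun p hpp h => ?_⟩
  have p0 : p ≠ 0 := hpp.out.ne_zero
  obtain ⟨l, hl'⟩ : ∃ l, l = Nat.log 2 p := ⟨_, rfl⟩
  have a0 : l₀ + 1 ≤ l := hl' ▸ hp p h
  have a1 : 2 ^ l ≤ p := hl' ▸ Nat.pow_log_le_self 2 p0
  have a2 : p < 2 ^ (l + 1) := hl' ▸ Nat.lt_pow_succ_log_self (by norm_num) p
  rw [← hl']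
  obtain ⟨m, hm⟩ : ∃ m, m = Nat.log 2 l := ⟨_, rfl⟩
  have b0 : 40 ≤ m := hm ▸ hl l (by omega)
  have b1 : 2 ^ m ≤ l := hm ▸ Nat.pow_log_le_self 2 (by omega)
  have b2 : l < 2 ^ (m + 1) := hm ▸ Nat.lt_pow_succ_log_self (by norm_num) l
  have b3 : 16777216 * (m + 6) ≤ l := (few_pow m b0).trans b1
  obtain ⟨j, hj⟩ : ∃ j, j = 4096 * (m + 5) := ⟨_, rfl⟩
  have j0 : 0 < j := by omega
  obtain ⟨r, hr⟩ : ∃ r, r = (l - 1) / j := ⟨_, rfl⟩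
  have r1 : j * r ≤ l - 1 := hr ▸ Nat.mul_div_le _ _
  have r2 : l - 1 < j * (r + 1) := hr ▸ Nat.lt_mul_div_succ _ j0
  rw [mul_add, mul_one] at r2
  have lt : ∀ k, k < l → 2 ^ k < p := fun k hk =>
    (Nat.pow_lt_pow_right (by norm_num) hk).trans_le a1
  have c1 := hS p j r j0 (lt _ (by omega))
  have c2 : 2 ^ j ≤ 4 * j * #(PP j) := by
    have := hC.1 (2 ^ j) (by
      calc 2 = 2 ^ 1 := by norm_num
        _ ≤ 2 ^ j := Nat.pow_le_pow_right (by norm_num) j0)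
    rwa [Nat.log_pow (by norm_num)] at this
  have c3 := few_card (t := m + 5) j0 c1 c2 a2.le (by omega) (by omega) (by
    rw [show m + 5 = m + 1 + 4 by ring, pow_add 2 (m + 1)]
    omega)
  obtain ⟨s, hs⟩ : ∃ s, s = (m + 5) * r := ⟨_, rfl⟩
  have s1 : 4096 * s = j * r := by rw [hs, hj]; ring
  rw [← hs] at c3
  refine ⟨j, (511 * l + 1023) / 1024, j0, ?_, lt _ (by omega), by omega, by omega, ?_⟩
  · calc 2 ^ j ≤ 2 ^ (m * 8192) := Nat.pow_le_pow_right (by norm_num) (by omega)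
      _ = (2 ^ m) ^ 8192 := pow_mul _ _ _
      _ ≤ l ^ 8192 := Nat.pow_le_pow_left b1 _
  · obtain ⟨J, hJ⟩ : ∃ J, J = (511 * l + 1023) / 1024 := ⟨_, rfl⟩
    obtain ⟨g, hg⟩ : ∃ g, g = (l + 2) / 2 := ⟨_, rfl⟩
    rw [← hJ]
    have d1 : √(p : ℝ) ≤ 2 ^ g := by
      refine Real.sqrt_le_iff.2 ⟨by positivity, ?_⟩
      rw [← pow_mul]
      exact_mod_cast a2.le.trans (Nat.pow_le_pow_right (by norm_num) (by omega))
    have d2 : (#(LL p j) : ℝ) ≤ 2 ^ (j + 1 + s) := by exact_mod_cast c3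
    have d3 : (1 : ℝ) ≤ 2 * 2 ^ (j + 1 + s) * 2 ^ g := by
      have x1 : (1 : ℝ) ≤ 2 ^ (j + 1 + s) := one_le_pow₀ (by norm_num)
      have x2 : (1 : ℝ) ≤ 2 ^ g := one_le_pow₀ (by norm_num)
      nlinarith
    have d4 : 2 * (#(LL p j) : ℝ) * √(p : ℝ) ≤ 2 * 2 ^ (j + 1 + s) * 2 ^ g := by gcongr
    have d5 : (2 : ℝ) ^ (J + j + s + g + 5) * 2 ≤ p := by
      rw [← pow_succ]
      exact_mod_cast (Nat.pow_le_pow_right (by norm_num) (by omega)).trans a1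
    have d6 : (1 : ℝ) ≤ 2 ^ (J + j + s + g + 5) := one_le_pow₀ (by norm_num)
    calc (2 : ℝ) ^ (J + 2) * (2 * #(LL p j) * √(p : ℝ) + 1)
        ≤ 2 ^ (J + 2) * (2 * (2 * 2 ^ (j + 1 + s) * 2 ^ g)) :=
          mul_le_mul_of_nonneg_left (by linarith) (by positivity)
      _ = 2 ^ (J + j + s + g + 5) := by ring
      _ ≤ p - 1 := by linarith

end Pool.Agent.G60
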