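import Pool.Agent.MP_b5e119_nt.G60.Defs

namespace Pool.Agent.G60

open Finset

theorem fin1_leg (p : ℕ) [Fact p.Prime] (n : ℕ) (h0 : 0 < n) (h1 : n < p) :
    leg p n = 1 ∨ leg p n = -1 := by
  unfold leg
  apply legendreSym.eq_one_or_neg_one p
  rw [Int.cast_natCast, Ne, ZMod.natCast_eq_zero_iff]
  exact fun h => absurd (Nat.le_of_dvd h0 h) (by omega)

/-- The second moment bound in real form, over a set of distinct residues. -/
theorem fin1_sec (hSEC : SEC_s) (hU : UNIQ_s) (p : ℕ) [Fact p.Prime] (hp : 2 < p) {ι : Type}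
    (A : Finset ι) (u : ι → ℕ) (hu : Set.InjOn (fun a => ((u a : ℕ) : ZMod p)) A) (c H : ℕ)
    (hc : ¬p ∣ c) (hH : H ≤ p) :
    ∑ a ∈ A, (∑ j ∈ range H, (leg p (u a + j * c) : ℝ)) ^ 2 ≤ p * H := by
  classical
  obtain ⟨χ, hχ, -, hl, -⟩ := hU p hp
  have h := hSEC p χ c H hχ hc hH
  have e : ∀ a, (∑ j ∈ range H, (leg p (u a + j * c) : ℝ)) ^ 2 =
      ‖∑ j ∈ range H, χ (((u a : ℕ) : ZMod p) + (j : ZMod p) * c)‖ ^ 2 := by
    intro a
    have : ∑ j ∈ range H, χ (((u a : ℕ) : ZMod p) + (j : ZMod p) * c) =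
        ((∑ j ∈ range H, (leg p (u a + j * c) : ℝ) : ℝ) : ℂ) := by
      push_cast
      refine sum_congr rfl fun j _ => ?_
      rw [← hl]; push_cast; rfl
    rw [this, Complex.norm_real, Real.norm_eq_abs, sq_abs]
  simp_rw [e]
  refine le_trans ?_ h
  rw [← sum_image (f := fun x : ZMod p => ‖∑ j ∈ range H, χ (x + (j : ZMod p) * c)‖ ^ 2) hu]
  exact sum_le_sum_of_subset_of_nonneg (subset_univ _) fun _ _ _ => by positivity

theorem fin1_shift (g : ℕ → ℝ) (hg : ∀ t, 0 ≤ g t) (J i : ℕ) (hi : i < J) :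
    ∑ j ∈ range J, g (i + j) ≤ ∑ t ∈ range (2 * J), g t := by
  have h1 : ∑ t ∈ range (i + J), g t ≤ ∑ t ∈ range (2 * J), g t :=
    sum_le_sum_of_subset_of_nonneg (range_mono (by omega)) fun _ _ _ => hg _
  rw [sum_range_add] at h1
  have : 0 ≤ ∑ t ∈ range i, g t := sum_nonneg fun _ _ => hg _
  linarith

theorem fin1_row (hSEC : SEC_s) (hUNIQ : UNIQ_s) : FIN1_s := by
  intro p _ c J K r τ hp hc hcp hτ hK hr hJ h4
  have hJ0 : 0 < J := by
    rcases Nat.eq_zero_or_pos J with h | h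
    · subst h; simp at h4; omega
    · exact h
  have hJp : J ≤ p := by nlinarith
  have hpc : ¬p ∣ c := fun h => absurd (Nat.le_of_dvd hc h) (by omega)
  have hlt : ∀ k ∈ K, ∀ t < 2 * J, r k + t * c < p := by
    intro k hk t ht
    have h1 := (hK k hk).2.2.2
    have h2 : (t + 1) * c ≤ 2 * J * c := Nat.mul_le_mul_right c ht
    nlinarith
  have hinj : Set.InjOn (fun z : ℕ × ℕ => ((r z.1 + z.2 * c : ℕ) : ZMod p))
      (K ×ˢ range J : Finset (ℕ × ℕ)) := by
    rintro ⟨k, i⟩ ha ⟨k', i'⟩ hb hab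
    rw [mem_coe, mem_product, mem_range] at ha hb
    have ha' := hlt k ha.1 i (by have := ha.2; simp only at this; omega)
    have hb' := hlt k' hb.1 i' (by have := hb.2; simp only at this; omega)
    have h := congrArg ZMod.val hab
    simp only at h
    rw [ZMod.val_natCast, ZMod.val_natCast, Nat.mod_eq_of_lt ha', Nat.mod_eq_of_lt hb'] at h
    have h1 : r k = r k' := by
      have := congrArg (· % c) h
      simpa [Nat.mod_eq_of_lt (hK k ha.1).2.2.2, Nat.mod_eq_of_lt (hK k' hb.1).2.2.2] using this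
    have h2 : k = k' := hr (mem_coe.2 ha.1) (mem_coe.2 hb.1) h1
    have h3 : i = i' := by
      rw [h1] at h
      exact Nat.eq_of_mul_eq_mul_right hc (Nat.add_left_cancel h)
    rw [h2, h3]
  have hs := fin1_sec hSEC hUNIQ p hp (K ×ˢ range J) (fun z => r z.1 + z.2 * c) hinj c J hpc hJp
  -- the signed sum
  set T : ℕ × ℕ → ℝ := fun z => ∑ j ∈ range J, (leg p (r z.1 + z.2 * c + j * c) : ℝ) with hT
  have hτ2 : (τ : ℝ) ^ 2 = 1 := by rcases hτ with h | h <;> rw [h] <;> norm_num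
  have hcs := sq_sum_le_card_mul_sum_sq (s := K ×ˢ range J)
    (f := fun z => (τ : ℝ) * (leg p z.1 : ℝ) * T z)
  have e1 : ∑ z ∈ K ×ˢ range J, ((τ : ℝ) * (leg p z.1 : ℝ) * T z) ^ 2 =
      ∑ z ∈ K ×ˢ range J, T z ^ 2 := by
    refine sum_congr rfl fun z hz => ?_
    have hk := hK z.1 (mem_product.1 hz).1
    have : (leg p z.1 : ℝ) ^ 2 = 1 := by
      rcases fin1_leg p z.1 hk.1 hk.2.1 with h | h <;> rw [h] <;> norm_num
    rw [mul_pow, mul_pow, hτ2, this]; ring
  rw [e1, card_product, card_range] at hcs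
  have h4' : 4 * (p : ℝ) ≤ #K * (J : ℝ) ^ 2 := by exact_mod_cast h4
  have hJ' : (0 : ℝ) < J := by exact_mod_cast hJ0
  have hB : |∑ z ∈ K ×ˢ range J, (τ : ℝ) * (leg p z.1 : ℝ) * T z| ≤ #K * (J : ℝ) ^ 2 / 2 := by
    apply abs_le_of_sq_le_sq _ (by positivity)
    have hKJ : (0 : ℝ) ≤ #K * (J : ℝ) ^ 2 := by positivity
    calc _ ≤ ((#K * J : ℕ) : ℝ) * ∑ z ∈ K ×ˢ range J, T z ^ 2 := hcs
      _ ≤ ((#K * J : ℕ) : ℝ) * (p * J) := mul_le_mul_of_nonneg_left hs (by positivity)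
      _ = (#K * (J : ℝ) ^ 2) * (4 * p) / 4 := by push_cast; ring
      _ ≤ (#K * (J : ℝ) ^ 2) * (#K * (J : ℝ) ^ 2) / 4 := by gcongr
      _ = _ := by ring
  -- the indicator
  set g : ℕ → ℕ → ℝ := fun k t => if leg p k * leg p (r k + t * c) = τ then 1 else 0 with hg
  have hg0 : ∀ k t, 0 ≤ g k t := fun k t => by simp only [hg]; split_ifs <;> norm_num
  have e2 : ∀ z ∈ K ×ˢ range J, (J : ℝ) + (τ : ℝ) * (leg p z.1 : ℝ) * T z ≤
      2 * ∑ t ∈ range (2 * J), g z.1 t := by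
    intro z hz
    have hz1 := (mem_product.1 hz).1
    have hz2 := mem_range.1 (mem_product.1 hz).2
    have hk := hK z.1 hz1
    have e : (J : ℝ) + (τ : ℝ) * (leg p z.1 : ℝ) * T z = 2 * ∑ j ∈ range J, g z.1 (z.2 + j) := by
      have : (J : ℝ) = ∑ _j ∈ range J, (1 : ℝ) := by simp
      rw [this, hT, mul_sum, mul_sum, ← sum_add_distrib]
      refine sum_congr rfl fun j hj => ?_
      have hj' := mem_range.1 hj
      have h1 := fin1_leg p z.1 hk.1 hk.2.1
      have h2 := fin1_leg p (r z.1 + (z.2 + j) * c) (by have := hk.2.2.1; omega)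
        (hlt z.1 hz1 _ (by omega))
      rw [show r z.1 + z.2 * c + j * c = r z.1 + (z.2 + j) * c by ring]
      simp only [hg]
      rcases hτ with h | h <;> rcases h1 with h1 | h1 <;> rcases h2 with h2 | h2 <;>
        rw [h, h1, h2] <;> norm_num
    rw [e]
    have := fin1_shift (g z.1) (hg0 z.1) J z.2 hz2
    linarith
  have e3 := sum_le_sum e2
  have e4 : ∑ z ∈ K ×ˢ range J, 2 * ∑ t ∈ range (2 * J), g z.1 t =
      2 * J * (#{z ∈ K ×ˢ range (2 * J) | leg p z.1 * leg p (r z.1 + z.2 * c) = τ} : ℝ) := by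
    rw [card_filter, sum_product, sum_product]
    push_cast
    rw [mul_sum]
    refine sum_congr rfl fun k _ => ?_
    simp only [sum_const, card_range, nsmul_eq_mul, hg]
    ring
  rw [e4, sum_add_distrib, sum_const, card_product, card_range, nsmul_eq_mul] at e3
  have hB' := (abs_le.1 hB).1
  have h5 : (J : ℝ) * (#K * J) ≤ J * (4 *
      (#{z ∈ K ×ˢ range (2 * J) | leg p z.1 * leg p (r z.1 + z.2 * c) = τ} : ℝ)) := by
    push_cast at e3
    nlinarith
  exact_mod_cast le_of_mul_le_mul_left h5 hJ'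

end Pool.Agent.G60
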