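import Pool.Agent.MP_b5e119_nt.G60.Defs

namespace Pool.Agent.G60

open Finset

theorem fin3_leg_congr (p : ℕ) [Fact p.Prime] {a b : ℕ} (h : (a : ZMod p) = (b : ZMod p)) :
    leg p a = leg p b := by
  simp [leg, legendreSym, h]

theorem fin3_div (hC : CHEB_s) {p u : ℕ} (hu : 0 < u) (hup : u ≤ p) (K : Finset ℕ)
    (hK : ∀ k ∈ K, (k = 1 ∨ k.Prime) ∧ k ∣ u) : #K ≤ Nat.log 2 p + 1 := by
  have h1 : K ⊆ insert 1 {q ∈ u.divisors | q.Prime} := by
    intro k hk
    obtain ⟨h | h, hd⟩ := hK k hk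
    · simp [h]
    · exact mem_insert_of_mem (mem_filter.2 ⟨Nat.mem_divisors.2 ⟨hd, hu.ne'⟩, h⟩)
  have h2 := card_le_card h1
  have h3 := card_insert_le 1 {q ∈ u.divisors | q.Prime}
  have h4 := hC.2.2 u hu
  have h5 : Nat.log 2 u ≤ Nat.log 2 p := Nat.log_mono_right hup
  omega

theorem fin3_log (L : ℕ) : ∃ p₀ : ℕ, ∀ p : ℕ, p₀ ≤ p → L ≤ Nat.log 2 p :=
  ⟨2 ^ L, fun _ hp => Nat.le_log_of_pow_le Nat.one_lt_two hp⟩

theorem fin3_arith {l κ J c p e eX s G : ℕ} (hl : 2100 ≤ l) (hκ : 0 < κ)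
    (h1 : κ * J ≤ 4 * s) (h2 : s ≤ (l + 2) * eX + (l + 1) * G) (h3 : eX * κ ≤ (l + 1) * e)
    (h4 : e * l ^ 5 ≤ p) (h5 : c ≤ 8 * l * κ) (h6 : p ≤ 4 * c ^ 2 * J) :
    p ≤ 512 * l ^ 2 * c * G := by
  have a2 : p ≤ 256 * l ^ 2 * (κ ^ 2 * J) := by
    calc p ≤ 4 * c ^ 2 * J := h6
      _ ≤ 4 * (8 * l * κ) ^ 2 * J := by gcongr
      _ = _ := by ring
  have a5 : 2100 * (l * l) ≤ l ^ 3 := by
    calc 2100 * (l * l) ≤ l * (l * l) := by gcongr
      _ = _ := by ring
  have a6 : 2100 * l ≤ l * l := by gcongr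
  have a7 : 2048 * ((l + 2) * (l + 1)) ≤ l ^ 3 := by
    have : (l + 2) * (l + 1) = l * l + 3 * l + 2 := by ring
    omega
  have a3 : 8 * ((l + 2) * eX) ≤ κ * J := by
    refine Nat.le_of_mul_le_mul_right (c := κ * l ^ 5) ?_ (by have : 0 < l := by omega
                                                              positivity)
    calc 8 * ((l + 2) * eX) * (κ * l ^ 5) = 8 * (l + 2) * (eX * κ) * l ^ 5 := by ring
      _ ≤ 8 * (l + 2) * ((l + 1) * e) * l ^ 5 := by gcongr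
      _ = 8 * ((l + 2) * (l + 1)) * (e * l ^ 5) := by ring
      _ ≤ 8 * ((l + 2) * (l + 1)) * (256 * l ^ 2 * (κ ^ 2 * J)) :=
        Nat.mul_le_mul_left _ (h4.trans a2)
      _ = 2048 * ((l + 2) * (l + 1)) * (l ^ 2 * (κ ^ 2 * J)) := by ring
      _ ≤ l ^ 3 * (l ^ 2 * (κ ^ 2 * J)) := Nat.mul_le_mul_right _ a7
      _ = _ := by ring
  have a8 : (l + 1) * G ≤ 2 * l * G := Nat.mul_le_mul_right _ (by omega)
  have a9 : κ * J ≤ 8 * (2 * l * G) := by omega
  calc p ≤ 4 * c ^ 2 * J := h6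
    _ = 4 * c * J * c := by ring
    _ ≤ 4 * c * J * (8 * l * κ) := Nat.mul_le_mul_left _ h5
    _ = 32 * l * c * (κ * J) := by ring
    _ ≤ 32 * l * c * (8 * (2 * l * G)) := Nat.mul_le_mul_left _ a9
    _ = _ := by ring

theorem fin3_row (hC : CHEB_s) (hF : FIN1_s) : FIN3_s := by
  obtain ⟨p₀, hp₀⟩ := fin3_log 2100
  refine ⟨p₀, fun p _ hp σ e s c hσ he hcS hκ hm1 hE => ?_⟩
  have pp : p.Prime := Fact.out
  obtain ⟨-, hc, hcl, hcp⟩ := mem_filter.1 hcS
  have : Fact c.Prime := ⟨hc⟩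
  have hl3 := hp₀ p hp
  set l := Nat.log 2 p with hl
  have hc2 := hc.two_le
  have hcc : 2 * (c * c) + 2 ≤ p := by
    have : 2 * (c * c) + 2 ≤ 512 * l * c ^ 3 := by
      have h1 : 512 * 2100 * (2 * (c * c)) ≤ 512 * l * (c * (c * c)) := by gcongr
      have h2 : 4 ≤ c * c := by nlinarith
      calc _ ≤ 512 * 2100 * (2 * (c * c)) := by omega
        _ ≤ _ := h1
        _ = _ := by ring
    omega
  have hcp' : c < p := by
    have := Nat.le_mul_self c
    omega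
  have hs : s = 1 ∨ s = -1 := by
    rw [← hm1]
    refine legendreSym.eq_one_or_neg_one p ?_
    rw [Int.cast_natCast, Ne, ZMod.natCast_eq_zero_iff]
    exact fun h => absurd (Nat.le_of_dvd (by omega) h) (by omega)
  set K : Finset ℕ := KK p c with hKd
  have hK : ∀ k ∈ K, (k = 1 ∨ k.Prime) ∧ 0 < k ∧ k < c ∧ lam k = leg p k := by
    intro k hk
    rcases mem_insert.1 hk with rfl | h
    · exact ⟨Or.inl rfl, one_pos, by omega, by simp [lam_one, leg]⟩
    · obtain ⟨h1, h2, h3⟩ := mem_filter.1 h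
      exact ⟨Or.inr h2, h2.pos, mem_range.1 h1, by rw [lam_prime h2, h3]⟩
  have hκ0 : 0 < #K := card_pos.2 ⟨1, mem_insert_self _ _⟩
  set X := (p - 1) / c with hX
  set J := (p - 1) / (2 * (c * c)) with hJ
  have hXc : X * c ≤ p - 1 := Nat.div_mul_le_self _ _
  have hD : 0 < 2 * (c * c) := by positivity
  have hJ0 : 0 < J := Nat.div_pos (by omega) hD
  have hJX : 2 * J * c ≤ X := by
    rw [hX, Nat.le_div_iff_mul_le (by omega)]
    have := Nat.div_mul_le_self (p - 1) (2 * (c * c))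
    calc 2 * J * c * c = J * (2 * (c * c)) := by ring
      _ ≤ _ := this
  have hXp : X ≤ p := (Nat.div_le_self _ _).trans (Nat.sub_le p 1)
  have hpJ : p ≤ 4 * c ^ 2 * J := by
    have h1 : p - 1 < 2 * (c * c) * (J + 1) := Nat.lt_mul_div_succ _ hD
    have h2 : 2 * (c * c) * (J + 1) ≤ 2 * (c * c) * (2 * J) := by gcongr; omega
    have h3 : 2 * (c * c) * (2 * J) = 4 * c ^ 2 * J := by ring
    omega
  have h4p : 4 * p ≤ #K * J ^ 2 := by
    refine Nat.le_of_mul_le_mul_left (c := 128 * l * c ^ 4) ?_ (by have : 0 < l := by omega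
                                                                   positivity)
    calc 128 * l * c ^ 4 * (4 * p) = c * (p * (512 * l * c ^ 3)) := by ring
      _ ≤ (8 * l * #K) * ((4 * c ^ 2 * J) * (4 * c ^ 2 * J)) :=
        Nat.mul_le_mul hκ (Nat.mul_le_mul hpJ (hcp.trans hpJ))
      _ = _ := by ring
  have hp0 : (p : ZMod c) ≠ 0 := by
    rw [Ne, ZMod.natCast_eq_zero_iff]
    intro h
    rcases (Nat.dvd_prime pp).1 h with h | h <;> omega
  have hk0 : ∀ k ∈ K, (k : ZMod c) ≠ 0 := by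
    intro k hk h
    rw [ZMod.natCast_eq_zero_iff] at h
    have := Nat.le_of_dvd (hK k hk).2.1 h
    have := (hK k hk).2.2.1
    omega
  set r : ℕ → ℕ := fun k => ((p : ZMod c) * (k : ZMod c)⁻¹).val with hr
  have hrc : ∀ k, r k < c := fun k => ZMod.val_lt _
  have hr0 : ∀ k ∈ K, 0 < r k := fun k hk =>
    ZMod.val_pos.2 (mul_ne_zero hp0 (inv_ne_zero (hk0 k hk)))
  have hinj : Set.InjOn r K := by
    intro k hk k' hk' h
    have h1 := ZMod.val_injective c h
    have h2 : (k : ZMod c) = k' := inv_injective (mul_left_cancel₀ hp0 h1)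
    exact Nat.ModEq.eq_of_lt_of_lt ((ZMod.natCast_eq_natCast_iff _ _ _).1 h2) (hK k hk).2.2.1
      (hK k' hk').2.2.1
  have hS := hF p c J K r (-s * σ * e) (by omega) (by omega) hcp'
    (by rcases hσ with rfl | rfl <;> rcases he with rfl | rfl <;> rcases hs with h | h <;> simp [h])
    (fun k hk => ⟨(hK k hk).2.1, (hK k hk).2.2.1.trans hcp', hr0 k hk, hrc k⟩) hinj
    (hJX.trans hXp) h4p
  set S := {z ∈ K ×ˢ range (2 * J) | leg p z.1 * leg p (r z.1 + z.2 * c) = -s * σ * e} with hSd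
  set EX := {n ∈ Icc 1 X | lam n ≠ σ * leg p n} with hEX
  set G := {m ∈ Icc 1 X | lam (c * m) = e ∧ lam (p - c * m) = -s * e} with hG
  set m' : ℕ × ℕ → ℕ := fun z => r z.1 + z.2 * c with hm'
  set m : ℕ × ℕ → ℕ := fun z => (p - z.1 * m' z) / c with hm
  have key : ∀ z ∈ S, z.1 ∈ K ∧ 0 < m' z ∧ m' z ≤ X ∧ 0 < m z ∧ m z ≤ X ∧
      c * m z + z.1 * m' z = p ∧ leg p z.1 * leg p (m' z) = -s * σ * e := by
    rintro ⟨k, t⟩ hz
    obtain ⟨h1, h2⟩ := mem_filter.1 hz
    obtain ⟨hk, ht⟩ := mem_product.1 h1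
    simp only [mem_range] at hk ht h2
    have a0 : 0 < m' (k, t) := Nat.add_pos_left (hr0 k hk) _
    have a1 : m' (k, t) ≤ X := by
      have b1 : (t + 1) * c ≤ 2 * J * c := by gcongr; omega
      have b2 := hrc k
      have b3 : (t + 1) * c = t * c + c := by ring
      change r k + t * c ≤ X
      omega
    have a2 : k * m' (k, t) ≤ p - 1 := by
      refine le_trans ?_ hXc
      rw [mul_comm]
      exact Nat.mul_le_mul a1 (hK k hk).2.2.1.le
    have a3 : 0 < k * m' (k, t) := Nat.mul_pos (hK k hk).2.1 a0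
    have a4 : c ∣ p - k * m' (k, t) := by
      refine (Nat.modEq_iff_dvd' (by omega)).1 ((ZMod.natCast_eq_natCast_iff _ _ _).1 ?_)
      change ((k * (r k + t * c) : ℕ) : ZMod c) = p
      have := hk0 k hk
      simp only [hr, Nat.cast_mul, Nat.cast_add, ZMod.natCast_self, mul_zero, add_zero,
        ZMod.natCast_val, ZMod.cast_id', id_eq]
      field_simp
    have a5 : c * m (k, t) = p - k * m' (k, t) := Nat.mul_div_cancel' a4
    refine ⟨hk, a0, a1, ?_, ?_, by simp only; omega, h2⟩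
    · rcases Nat.eq_zero_or_pos (m (k, t)) with h | h
      · rw [h] at a5
        omega
      · exact h
    · rw [hX, Nat.le_div_iff_mul_le (by omega), mul_comm]
      omega
  have hsub : S ⊆ {z ∈ S | m' z ∈ EX} ∪ {z ∈ S | m z ∈ EX} ∪ {z ∈ S | m z ∈ G} := by
    intro z hz
    obtain ⟨hk, a0, a1, a2, a3, a4, a5⟩ := key z hz
    by_cases c1 : m' z ∈ EX
    · exact mem_union_left _ (mem_union_left _ (mem_filter.2 ⟨hz, c1⟩))
    by_cases c2 : m z ∈ EX
    · exact mem_union_left _ (mem_union_right _ (mem_filter.2 ⟨hz, c2⟩))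
    have b1 : lam (m' z) = σ * leg p (m' z) := by
      by_contra h
      exact c1 (mem_filter.2 ⟨mem_Icc.2 ⟨a0, a1⟩, h⟩)
    have b2 : lam (m z) = σ * leg p (m z) := by
      by_contra h
      exact c2 (mem_filter.2 ⟨mem_Icc.2 ⟨a2, a3⟩, h⟩)
    have b3 : leg p (z.1 * m' z) = leg p ((p - 1) * (c * m z)) := by
      refine fin3_leg_congr p ?_
      have b4 : ((c * m z + z.1 * m' z : ℕ) : ZMod p) = 0 := by rw [a4, ZMod.natCast_self]
      rw [Nat.cast_mul (p - 1), Nat.cast_pred pp.pos, ZMod.natCast_self]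
      rw [Nat.cast_add] at b4
      linear_combination b4
    rw [leg_mul, leg_mul, leg_mul, hm1, hcl, a5] at b3
    have hs2 : σ * σ = 1 := by rcases hσ with rfl | rfl <;> norm_num
    have hs3 : s * s = 1 := by rcases hs with h | h <;> simp [h]
    have hk1 := (hK _ hk).2.1
    refine mem_union_right _ (mem_filter.2 ⟨hz, mem_filter.2 ⟨mem_Icc.2 ⟨a2, a3⟩, ?_, ?_⟩⟩)
    · rw [lam_mul (by omega) a2.ne', lam_prime hc, b2]
      linear_combination (σ * s) * b3 + (σ * leg p (m z) + σ * σ * e) * hs3 + e * hs2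
    · rw [show p - c * m z = z.1 * m' z by omega, lam_mul hk1.ne' a0.ne', (hK _ hk).2.2.2, b1]
      linear_combination σ * a5 - s * e * hs2
  have hm'inj : ∀ z ∈ S, ∀ z' ∈ S, m' z = m' z' → z = z' := by
    rintro ⟨k, t⟩ hz ⟨k', t'⟩ hz' h
    change r k + t * c = r k' + t' * c at h
    have b1 := congrArg (· % c) h
    simp only [Nat.add_mul_mod_self_right, Nat.mod_eq_of_lt (hrc _)] at b1
    have b2 : k = k' := hinj (key _ hz).1 (key _ hz').1 b1
    have b3 : t * c = t' * c := by omega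
    rw [b2, Nat.eq_of_mul_eq_mul_right (by omega) b3]
  have hS1 : #{z ∈ S | m' z ∈ EX} ≤ #EX :=
    card_le_card_of_injOn m' (fun z hz => (mem_filter.1 hz).2)
      fun z hz z' hz' h => hm'inj z (mem_filter.1 hz).1 z' (mem_filter.1 hz').1 h
  have hS2 : ∀ T : Finset ℕ, #{z ∈ S | m z ∈ T} ≤ (l + 1) * #T := by
    intro T
    refine card_le_mul_card_image_of_maps_to (f := m) (fun z hz => (mem_filter.1 hz).2) _
      fun n _ => ?_
    rcases eq_empty_or_nonempty {z ∈ {z ∈ S | m z ∈ T} | m z = n} with h | ⟨z₀, h₀⟩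
    · simp [h]
    obtain ⟨h₁, h₂⟩ := mem_filter.1 h₀
    obtain ⟨hk, a0, a1, a2, a3, a4, a5⟩ := key z₀ (mem_filter.1 h₁).1
    have hu : ∀ z ∈ {z ∈ {z ∈ S | m z ∈ T} | m z = n}, z ∈ S ∧ z.1 * m' z = z₀.1 * m' z₀ := by
      intro z hz
      obtain ⟨b1, b2⟩ := mem_filter.1 hz
      have b3 := (key z (mem_filter.1 b1).1).2.2.2.2.2.1
      rw [b2] at b3
      rw [h₂] at a4
      exact ⟨(mem_filter.1 b1).1, by omega⟩
    rw [← card_image_of_injOn (f := Prod.fst)]
    · refine fin3_div hC (Nat.mul_pos (hK _ hk).2.1 a0) (by omega) _ fun k hk' => ?_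
      obtain ⟨z, hz, rfl⟩ := mem_image.1 hk'
      exact ⟨(hK _ (key z (hu z hz).1).1).1, (hu z hz).2 ▸ Dvd.intro _ rfl⟩
    · intro z hz z' hz' h
      refine hm'inj z (hu z hz).1 z' (hu z' hz').1 ?_
      have b1 := (hu z hz).2
      rw [← (hu z' hz').2, h] at b1
      exact Nat.eq_of_mul_eq_mul_left (hK _ (key z' (hu z' hz').1).1).2.1 b1
  have hS3 : #S ≤ (l + 2) * #EX + (l + 1) * #G := by
    have b1 := (card_le_card hsub).trans (card_union_le _ _)
    have b2 := card_union_le {z ∈ S | m' z ∈ EX} {z ∈ S | m z ∈ EX}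
    have b3 := hS2 EX
    have b4 := hS2 G
    have b5 : (l + 2) * #EX = (l + 1) * #EX + #EX := by ring
    omega
  have hE2 : #EX * #K ≤ (l + 1) * Ex p σ := by
    rw [← card_product]
    refine card_le_mul_card_image_of_maps_to (f := fun z : ℕ × ℕ => z.1 * z.2) (fun z hz => ?_) _
      fun u hu => ?_
    · obtain ⟨b1, b2⟩ := mem_product.1 hz
      obtain ⟨b3, b4⟩ := mem_filter.1 b1
      obtain ⟨b5, b6⟩ := mem_Icc.1 b3
      obtain ⟨-, b7, b8, b9⟩ := hK _ b2
      have b10 : z.1 * z.2 ≤ X * c := Nat.mul_le_mul b6 b8.le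
      refine mem_filter.2 ⟨mem_Ico.2 ⟨Nat.mul_pos b5 b7, by omega⟩, fun h => b4 ?_⟩
      rw [lam_mul (by omega) b7.ne', leg_mul, ← b9, ← mul_assoc] at h
      exact mul_right_cancel₀ (by rcases lam_cases z.2 with h | h <;> simp [h]) h
    · obtain ⟨b1, b2⟩ := mem_Ico.1 (mem_filter.1 hu).1
      rw [← card_image_of_injOn (f := Prod.snd)]
      · refine fin3_div hC b1 b2.le _ fun k hk' => ?_
        obtain ⟨z, hz, rfl⟩ := mem_image.1 hk'
        obtain ⟨b3, b4⟩ := mem_filter.1 hz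
        exact ⟨(hK _ (mem_product.1 b3).2).1, b4 ▸ Dvd.intro_left _ rfl⟩
      · intro z hz z' hz' h
        obtain ⟨b3, b4⟩ := mem_filter.1 hz
        obtain ⟨b5, b6⟩ := mem_filter.1 hz'
        refine Prod.ext ?_ h
        rw [← b6, h] at b4
        exact Nat.eq_of_mul_eq_mul_right (hK _ (mem_product.1 b5).2).2.1 b4
  exact fin3_arith hl3 hκ0 hS hS3 hE2 hE hκ hpJ

end Pool.Agent.G60
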