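import Pool.Agent.MP_b5e119_nt.G60.Defs

namespace Pool.Agent.G60

open Finset Filter Topology

theorem many_abs (p : ℕ) [Fact p.Prime] (n : ℕ) : |(leg p n : ℝ)| ≤ 1 := by
  have h : leg p n = 0 ∨ leg p n = 1 ∨ leg p n = -1 := by
    unfold leg
    by_cases h0 : ((n : ℤ) : ZMod p) = 0
    · exact Or.inl ((legendreSym.eq_zero_iff p _).2 h0)
    · exact Or.inr (legendreSym.eq_one_or_neg_one p h0)
  rcases h with h | h | h <;> simp [h]

theorem many_inert (p : ℕ) [Fact p.Prime] (q : ℕ) (hq : 0 < q) (hqp : q < p) (h1 : leg p q ≠ 1) :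
    leg p q = -1 := by
  have h0 : ((q : ℤ) : ZMod p) ≠ 0 := by
    rw [Int.cast_natCast, Ne, ZMod.natCast_eq_zero_iff]
    exact fun h => absurd (Nat.le_of_dvd hq h) (by omega)
  rcases legendreSym.eq_one_or_neg_one p h0 with h | h
  · exact absurd h h1
  · exact h

theorem many_eq (p : ℕ) [Fact p.Prime] :
    ∀ n, 0 < n → (∀ q, q.Prime → q ∣ n → leg p q = -1) → leg p n = lam n := by
  intro n
  induction n using Nat.strong_induction_on with
  | _ n ih =>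
    intro hn h
    by_cases h1 : n = 1
    · subst h1; simp [leg, lam_one]
    · obtain ⟨m, hm⟩ := Nat.minFac_dvd n
      have hp := Nat.minFac_prime h1
      have hm0 : m ≠ 0 := by rintro rfl; omega
      have h2 := hp.two_le
      have hmn : m < n := by
        have : 2 * m ≤ n.minFac * m := Nat.mul_le_mul_right m h2
        omega
      have e1 : leg p n = leg p n.minFac * leg p m := by rw [← leg_mul, ← hm]
      have e2 : lam n = lam n.minFac * lam m := by rw [← lam_mul hp.ne_zero hm0, ← hm]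
      have hd : m ∣ n := Dvd.intro_left _ hm.symm
      rw [e1, e2, h _ hp (Nat.minFac_dvd n), lam_prime hp,
        ih m hmn (by omega) fun q hq hqm => h q hq (hqm.trans hd)]

theorem many_harm (n : ℕ) : ∑ m ∈ Icc 1 n, (1 / (m : ℝ)) ≤ 1 + Real.log n := by
  have h := harmonic_le_one_add_log n
  rw [harmonic_eq_sum_Icc] at h
  simpa using h

/-- The hyperbola step: a small convolution sum makes the partial `L`-series small. -/
theorem many_hyp (hH : HYP_s) (a : ℕ → ℝ) (x U : ℕ) (δ R : ℝ) (hU : 0 < U) (hUx : U ≤ x)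
    (hδ : 0 ≤ δ) (ha : ∀ n, |a n| ≤ 1) (hS : ∀ N, U ≤ N → |∑ n ∈ Icc 1 N, a n| ≤ δ * N)
    (hR : |∑ n ∈ Icc 1 x, ∑ d ∈ n.divisors, a d| ≤ R) :
    x * |∑ n ∈ Icc 1 U, a n / n| ≤ R + U + 2 * δ * x * (1 + Real.log x) := by
  have h := hH a (fun _ => 1) x U hU hUx
  have e0 : ∀ n : ℕ, ∑ y ∈ n.divisorsAntidiagonal, a y.1 * (1 : ℝ) = ∑ d ∈ n.divisors, a d := by
    intro n
    rw [Nat.sum_divisorsAntidiagonal (fun i _ => a i * (1 : ℝ))]
    simp
  simp only [e0] at h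
  simp only [sum_const, Nat.card_Icc, Nat.add_sub_cancel, nsmul_eq_mul, mul_one, one_mul] at h
  have hx0 : (0 : ℝ) < x := by exact_mod_cast hU.trans_le hUx
  have h2 : |∑ m ∈ Icc 1 (x / U), (∑ d ∈ Icc 1 (x / m), a d - ∑ d ∈ Icc 1 U, a d)| ≤
      2 * δ * x * (1 + Real.log x) := by
    refine (abs_sum_le_sum_abs _ _).trans ?_
    have hb : ∀ m ∈ Icc 1 (x / U), |∑ d ∈ Icc 1 (x / m), a d - ∑ d ∈ Icc 1 U, a d| ≤
        2 * δ * x * (1 / (m : ℝ)) := by
      intro m hm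
      rw [mem_Icc] at hm
      have hmU : m * U ≤ x := (Nat.le_div_iff_mul_le hU).1 hm.2
      have hUm : U ≤ x / m := (Nat.le_div_iff_mul_le hm.1).2 (by rw [mul_comm]; exact hmU)
      have h3 := hS _ hUm
      have h4 := hS _ le_rfl
      have h5 : ((x / m : ℕ) : ℝ) ≤ x / m := Nat.cast_div_le
      have h6 : (U : ℝ) ≤ ((x / m : ℕ) : ℝ) := by exact_mod_cast hUm
      have h7 := abs_sub (∑ d ∈ Icc 1 (x / m), a d) (∑ d ∈ Icc 1 U, a d)
      have h8 : δ * ((x / m : ℕ) : ℝ) ≤ δ * (x / m) := mul_le_mul_of_nonneg_left h5 hδ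
      have h9 : δ * (U : ℝ) ≤ δ * ((x / m : ℕ) : ℝ) := mul_le_mul_of_nonneg_left h6 hδ
      have e : 2 * δ * x * (1 / (m : ℝ)) = 2 * (δ * (x / m)) := by ring
      rw [e]; linarith
    refine (sum_le_sum hb).trans ?_
    rw [← mul_sum]
    refine mul_le_mul_of_nonneg_left ?_ (by positivity)
    refine le_trans ?_ (many_harm x)
    refine sum_le_sum_of_subset_of_nonneg (Icc_subset_Icc le_rfl (Nat.div_le_self _ _)) ?_
    intro i _ _; positivity
  have h1 : |x * ∑ n ∈ Icc 1 U, a n / n - ∑ d ∈ Icc 1 U, a d * ((x / d : ℕ) : ℝ)| ≤ U := by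
    rw [mul_sum, ← sum_sub_distrib]
    refine (abs_sum_le_sum_abs _ _).trans ?_
    have hb : ∀ d ∈ Icc 1 U, |x * (a d / d) - a d * ((x / d : ℕ) : ℝ)| ≤ 1 := by
      intro d hd
      rw [mem_Icc] at hd
      have hd0 : (0 : ℝ) < d := by exact_mod_cast hd.1
      have h5 : ((x / d : ℕ) : ℝ) ≤ x / d := Nat.cast_div_le
      have h6 : (x : ℝ) / d ≤ ((x / d : ℕ) : ℝ) + 1 := by
        rw [div_le_iff₀ hd0]
        have := (Nat.lt_div_mul_add (a := x) hd.1).le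
        have h7 : (x : ℝ) ≤ ((x / d * d + d : ℕ) : ℝ) := by exact_mod_cast this
        push_cast at h7
        linarith
      have e : x * (a d / d) - a d * ((x / d : ℕ) : ℝ) = a d * (x / d - ((x / d : ℕ) : ℝ)) := by
        ring
      rw [e, abs_mul]
      have h8 : |(x : ℝ) / d - ((x / d : ℕ) : ℝ)| ≤ 1 := abs_le.2 ⟨by linarith, by linarith⟩
      exact mul_le_one₀ (ha d) (abs_nonneg _) h8
    refine (sum_le_sum hb).trans ?_
    simp
  have e : x * |∑ n ∈ Icc 1 U, a n / n| = |x * ∑ n ∈ Icc 1 U, a n / n| := by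
    rw [abs_mul, abs_of_pos hx0]
  rw [e]
  rw [abs_le] at h1 h2 hR ⊢
  constructor <;> linarith [h1.1, h1.2, h2.1, h2.2, hR.1, hR.2]

theorem many_tau (hH : HYP_s) (y : ℕ) :
    ∑ m ∈ Icc 1 y, (#m.divisors : ℝ) ≤ y * (1 + Real.log y) := by
  rcases Nat.eq_zero_or_pos y with rfl | hy
  · simp
  have h := hH (fun _ => 1) (fun _ => 1) y y hy le_rfl
  have e0 : ∀ n : ℕ, ∑ _z ∈ n.divisorsAntidiagonal, (1 : ℝ) * 1 = #n.divisors := by
    intro n
    rw [Nat.sum_divisorsAntidiagonal (fun _ _ => (1 : ℝ) * 1)]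
    simp
  simp only [e0] at h
  rw [h, Nat.div_self hy]
  simp only [Icc_self, sum_singleton, Nat.div_one, sub_self, add_zero, sum_const,
    Nat.card_Icc, Nat.add_sub_cancel, nsmul_eq_mul, mul_one, one_mul]
  refine le_trans ?_ (mul_le_mul_of_nonneg_left (many_harm y) (Nat.cast_nonneg y))
  rw [mul_sum]
  refine sum_le_sum fun d _ => ?_
  rw [mul_one_div]
  exact Nat.cast_div_le

/-- Only numbers with a split prime factor distinguish the Legendre symbol from `λ`. -/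
theorem many_split (hSQ : SQ_s) (hH : HYP_s) (p : ℕ) [Fact p.Prime] (x : ℕ) (C : Finset ℕ)
    (hx : 0 < x) (hC : ∀ c ∈ C, c.Prime) (hin : ∀ q, q.Prime → q ≤ x → q ∉ C → leg p q = -1) :
    |∑ n ∈ Icc 1 x, ∑ d ∈ n.divisors, (leg p d : ℝ)| ≤
      √x + 4 * x * (1 + Real.log x) * ∑ c ∈ C, 1 / (c : ℝ) := by
  obtain ⟨s1, s2⟩ := hSQ x
  have hx1 : (1 : ℝ) ≤ x := by exact_mod_cast hx
  have hlx : 0 ≤ Real.log x := Real.log_nonneg hx1
  have s3 : |∑ n ∈ Icc 1 x, ∑ d ∈ n.divisors, (lam d : ℝ)| ≤ √x := by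
    have e : ∑ n ∈ Icc 1 x, ∑ d ∈ n.divisors, (lam d : ℝ) =
        ((∑ n ∈ Icc 1 x, ∑ d ∈ n.divisors, lam d : ℤ) : ℝ) := by push_cast; rfl
    rw [e, abs_of_nonneg (by exact_mod_cast s1)]
    exact s2
  have hpt : ∀ n ∈ Icc 1 x, |∑ d ∈ n.divisors, (leg p d : ℝ) - ∑ d ∈ n.divisors, (lam d : ℝ)| ≤
      ∑ c ∈ C, if c ∣ n then 2 * (#n.divisors : ℝ) else 0 := by
    intro n hn
    rw [mem_Icc] at hn
    have hnn : ∀ c ∈ C, (0 : ℝ) ≤ if c ∣ n then 2 * (#n.divisors : ℝ) else 0 := by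
      intro c _; split_ifs <;> positivity
    by_cases hc : ∃ c ∈ C, c ∣ n
    · obtain ⟨c, hc, hcn⟩ := hc
      refine le_trans ?_ (single_le_sum hnn hc)
      rw [if_pos hcn, ← sum_sub_distrib]
      refine (abs_sum_le_sum_abs _ _).trans ?_
      have hb : ∀ d ∈ n.divisors, |(leg p d : ℝ) - lam d| ≤ 2 := by
        intro d _
        have a1 := abs_le.1 (many_abs p d)
        rcases lam_cases d with h | h <;> rw [h, abs_le] <;> push_cast <;> constructor <;>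
          linarith [a1.1, a1.2]
      refine (sum_le_sum hb).trans ?_
      simp [mul_comm]
    · have e : ∑ d ∈ n.divisors, (leg p d : ℝ) = ∑ d ∈ n.divisors, (lam d : ℝ) := by
        refine sum_congr rfl fun d hd => ?_
        rw [many_eq p d (Nat.pos_of_mem_divisors hd) fun q hq hqd => ?_]
        have hqn : q ∣ n := hqd.trans (Nat.dvd_of_mem_divisors hd)
        exact hin q hq ((Nat.le_of_dvd hn.1 hqn).trans hn.2) fun h => hc ⟨q, h, hqn⟩
      rw [e, sub_self, abs_zero]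
      exact sum_nonneg hnn
  have hc : ∀ c ∈ C, (∑ n ∈ Icc 1 x, if c ∣ n then 2 * (#n.divisors : ℝ) else 0) ≤
      4 * x * (1 + Real.log x) * (1 / (c : ℝ)) := by
    intro c hc
    have cp := hC c hc
    have c0 : (0 : ℝ) < c := by exact_mod_cast cp.pos
    rw [← sum_filter]
    have hsub : {n ∈ Icc 1 x | c ∣ n} ⊆ (Icc 1 (x / c)).image (c * ·) := by
      intro n hn
      obtain ⟨h1, m, rfl⟩ := mem_filter.1 hn
      rw [mem_Icc] at h1
      refine mem_image.2 ⟨m, mem_Icc.2 ⟨?_, ?_⟩, rfl⟩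
      · exact Nat.pos_of_mul_pos_left h1.1
      · exact (Nat.le_div_iff_mul_le cp.pos).2 (by rw [mul_comm]; exact h1.2)
    refine (sum_le_sum_of_subset_of_nonneg hsub fun _ _ _ => by positivity).trans ?_
    rw [sum_image fun a _ b _ h => Nat.eq_of_mul_eq_mul_left cp.pos h]
    have hb : ∀ m ∈ Icc 1 (x / c), 2 * (#(c * m).divisors : ℝ) ≤ 4 * (#m.divisors : ℝ) := by
      intro m _
      have a1 : #(c * m).divisors ≤ #c.divisors * #m.divisors := by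
        rw [Nat.divisors_mul]; exact card_mul_le
      have a2 : #c.divisors ≤ 2 := by rw [cp.divisors]; exact card_le_two
      have a3 : #(c * m).divisors ≤ 2 * #m.divisors := a1.trans (Nat.mul_le_mul_right _ a2)
      have a4 : (#(c * m).divisors : ℝ) ≤ 2 * #m.divisors := by exact_mod_cast a3
      linarith
    refine (sum_le_sum hb).trans ?_
    rw [← mul_sum]
    have a5 := many_tau hH (x / c)
    have a6 : ((x / c : ℕ) : ℝ) ≤ x / c := Nat.cast_div_le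
    have a7 : Real.log ((x / c : ℕ) : ℝ) ≤ Real.log x := by
      rcases Nat.eq_zero_or_pos (x / c) with h | h
      · rw [h]; simpa using hlx
      · exact Real.log_le_log (by exact_mod_cast h) (by exact_mod_cast Nat.div_le_self _ _)
    have a8 : ((x / c : ℕ) : ℝ) * (1 + Real.log ((x / c : ℕ) : ℝ)) ≤ x / c * (1 + Real.log x) :=
      le_trans (mul_le_mul_of_nonneg_left (by linarith) (Nat.cast_nonneg _))
        (mul_le_mul_of_nonneg_right a6 (by linarith))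
    have e : 4 * x * (1 + Real.log x) * (1 / (c : ℝ)) = 4 * (x / c * (1 + Real.log x)) := by ring
    rw [e]; linarith
  have h1 : |∑ n ∈ Icc 1 x, ∑ d ∈ n.divisors, (leg p d : ℝ) -
      ∑ n ∈ Icc 1 x, ∑ d ∈ n.divisors, (lam d : ℝ)| ≤
      4 * x * (1 + Real.log x) * ∑ c ∈ C, 1 / (c : ℝ) := by
    rw [← sum_sub_distrib, mul_sum]
    refine (abs_sum_le_sum_abs _ _).trans ((sum_le_sum hpt).trans ?_)
    rw [sum_comm]
    exact sum_le_sum hc
  rw [abs_le] at h1 s3 ⊢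
  constructor <;> linarith [h1.1, h1.2, s3.1, s3.2]

/-- `L(1, χ)` is bounded by the reciprocals of the small split primes. -/
theorem many_core (hSQ : SQ_s) (hH : HYP_s) (hB : BURG_s) (hB2 : BUR2_s) (hT : TAIL_s) :
    ∃ κ : ℝ, 0 < κ ∧ ∃ p₀ : ℕ, ∀ (p : ℕ) [Fact p.Prime], p₀ ≤ p → ∀ L : ℝ,
      Tendsto (fun N : ℕ => ∑ n ∈ Icc 1 N, (leg p n : ℝ) / n) atTop (𝓝 L) →
      |L| ≤ (p : ℝ) ^ (-κ) * (17 + 3 * Real.log p) +
        4 * (1 + Real.log p) * ∑ c ∈ SS p, 1 / (c : ℝ) := by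
  obtain ⟨κ, hκ, hκ1, p₁, hB⟩ := hB
  have ev1 : ∀ᶠ p : ℕ in atTop, (204800 : ℝ) ≤ (p : ℝ) ^ (1 / 200 : ℝ) :=
    ((tendsto_rpow_atTop (by norm_num)).comp tendsto_natCast_atTop_atTop).eventually_ge_atTop _
  obtain ⟨p₀, hp₀⟩ := eventually_atTop.1 (ev1.and
    ((eventually_ge_atTop p₁).and (eventually_ge_atTop 3)))
  refine ⟨κ, hκ, p₀, fun p _ hp L hlim => ?_⟩
  obtain ⟨h1, h3, h4⟩ := hp₀ p hp
  have hp1 : (1 : ℝ) ≤ p := by exact_mod_cast (by omega : 1 ≤ p)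
  have hp0 : (0 : ℝ) < p := by linarith
  obtain ⟨t, ht⟩ : ∃ t : ℝ, t = (p : ℝ) ^ (1 / 200 : ℝ) := ⟨_, rfl⟩
  rw [← ht] at h1
  have ht0 : 0 < t := by linarith
  have ht1 : 1 ≤ t := by linarith
  have hpt : (p : ℝ) = t ^ 200 := by
    rw [ht, ← Real.rpow_natCast, ← Real.rpow_mul hp0.le]; norm_num
  have h64 : (p : ℝ) ^ (0.32 : ℝ) = t ^ 64 := by
    rw [ht, ← Real.rpow_natCast, ← Real.rpow_mul hp0.le]; norm_num
  obtain ⟨δ, hδ⟩ : ∃ δ : ℝ, δ = (p : ℝ) ^ (-κ) := ⟨_, rfl⟩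
  have hδ0 : 0 < δ := by rw [hδ]; positivity
  have hδt : 1 ≤ δ * t := by
    rw [hδ, ht, ← Real.rpow_add hp0]
    exact Real.one_le_rpow hp1 (by linarith)
  have hδ3 : 5 * (p : ℝ) ^ (2 / 3 : ℝ) / p ≤ 5 * δ := by
    rw [div_le_iff₀ hp0, mul_assoc]
    refine mul_le_mul_of_nonneg_left ?_ (by norm_num)
    have e : δ * p = (p : ℝ) ^ (-κ + 1) := by rw [hδ, Real.rpow_add hp0, Real.rpow_one]
    rw [e]
    exact Real.rpow_le_rpow_of_exponent_le hp1 (by linarith)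
  obtain ⟨x, hx⟩ : ∃ x : ℕ, x = ⌊t ^ 66⌋₊ := ⟨_, rfl⟩
  obtain ⟨U, hU⟩ : ∃ U : ℕ, U = ⌈t ^ 65⌉₊ := ⟨_, rfl⟩
  have h65 : 1 ≤ t ^ 65 := one_le_pow₀ ht1
  have hx1 : (x : ℝ) ≤ t ^ 66 := by rw [hx]; exact Nat.floor_le (by positivity)
  have hx2 : t ^ 66 < x + 1 := by rw [hx]; exact Nat.lt_floor_add_one _
  have hU1 : t ^ 65 ≤ U := by rw [hU]; exact Nat.le_ceil _
  have hU2 : (U : ℝ) < t ^ 65 + 1 := by rw [hU]; exact Nat.ceil_lt_add_one (by positivity)
  have e66 : t ^ 66 = t ^ 65 * t := by ring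
  have h66 : 102400 * t ^ 65 ≤ t ^ 66 := by rw [e66]; nlinarith
  have hUx' : (U : ℝ) ≤ x := by linarith
  have hUx : U ≤ x := by exact_mod_cast hUx'
  have hU0' : (0 : ℝ) < U := by linarith
  have hU0 : 0 < U := by exact_mod_cast hU0'
  have hx0 : (0 : ℝ) < x := by linarith
  have hxp' : (x : ℝ) < p := by
    rw [hpt]
    exact hx1.trans_lt (pow_lt_pow_right₀ (by linarith) (by norm_num))
  have hxp : x < p := by exact_mod_cast hxp'
  have hl : (Nat.log 2 p : ℝ) ≤ 400 * t := by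
    have a1 : ((2 : ℝ)) ^ Nat.log 2 p ≤ p := by
      exact_mod_cast Nat.pow_log_le_self 2 (by omega : p ≠ 0)
    have a2 := Real.log_le_log (by positivity) a1
    have a3 : Real.log p = 200 * Real.log t := by
      rw [hpt, Real.log_pow]; norm_num
    rw [Real.log_pow, a3] at a2
    have a4 := Real.log_le_sub_one_of_pos ht0
    have a5 := Real.log_two_gt_d9
    have a6 : (0 : ℝ) ≤ Nat.log 2 p := Nat.cast_nonneg _
    nlinarith
  have hin : ∀ q, q.Prime → q ≤ x → q ∉ SS p → leg p q = -1 := by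
    intro q hq hqx hno
    refine many_inert p q hq.pos (by omega) fun h =>
      hno (mem_filter.2 ⟨mem_range.2 (by omega), hq, h, ?_⟩)
    have b1 : (q : ℝ) ≤ t ^ 66 := le_trans (by exact_mod_cast hqx) hx1
    have b2 : (q : ℝ) ^ 3 ≤ (t ^ 66) ^ 3 := pow_le_pow_left₀ (Nat.cast_nonneg _) b1 3
    have b3 : (512 : ℝ) * Nat.log 2 p * (q : ℝ) ^ 3 ≤ 512 * (400 * t) * (t ^ 66) ^ 3 := by
      gcongr
    have b4 : 512 * (400 * t) * (t ^ 66) ^ 3 = 204800 * t ^ 199 := by ring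
    have b5 : 204800 * t ^ 199 ≤ t * t ^ 199 := mul_le_mul_of_nonneg_right h1 (by positivity)
    have b6 : t * t ^ 199 = p := by rw [hpt]; ring
    have b7 : (512 : ℝ) * Nat.log 2 p * (q : ℝ) ^ 3 ≤ p := by linarith
    exact_mod_cast b7
  have hsum : ∀ N, U ≤ N → |∑ n ∈ Icc 1 N, (leg p n : ℝ)| ≤ δ * N := by
    intro N hN
    have c1 : (U : ℝ) ≤ N := by exact_mod_cast hN
    have c2 : t ^ 64 ≤ t ^ 65 := pow_le_pow_right₀ ht1 (by norm_num)
    have := hB p h3 N (by rw [h64]; linarith)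
    rw [hδ, mul_comm]; exact this
  have hR := many_split hSQ hH p x (SS p) (by omega) (fun c hc => (mem_filter.1 hc).2.1) hin
  have hh := many_hyp hH (fun n => (leg p n : ℝ)) x U δ _ hU0 hUx hδ0.le (many_abs p) hsum hR
  have htail := hT (fun n => (leg p n : ℝ)) L δ (5 * (p : ℝ) ^ (2 / 3 : ℝ)) U p hU0 (by omega)
    hδ0.le hsum (fun N => hB2 p N (by omega)) hlim
  have hsq : √(x : ℝ) ≤ U := by
    rw [Real.sqrt_le_left hU0'.le]
    have d1 : (t ^ 65) ^ 2 ≤ (U : ℝ) ^ 2 := pow_le_pow_left₀ (by positivity) hU1 2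
    have d2 : t ^ 66 ≤ (t ^ 65) ^ 2 := by
      rw [← pow_mul]; exact pow_le_pow_right₀ ht1 (by norm_num)
    linarith
  have hU4 : (U : ℝ) ≤ 4 * δ * x := by
    have d1 : t ^ 66 ≤ 2 * x := by linarith
    have d2 : t ^ 65 ≤ δ * t ^ 66 := by rw [e66]; nlinarith
    have d3 : δ * t ^ 66 ≤ δ * (2 * x) := mul_le_mul_of_nonneg_left d1 hδ0.le
    linarith
  have hlog : Real.log x ≤ Real.log p := Real.log_le_log hx0 hxp'.le
  obtain ⟨T, hTe⟩ : ∃ T : ℝ, T = ∑ n ∈ Icc 1 U, (leg p n : ℝ) / n := ⟨_, rfl⟩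
  simp only [← hTe] at hh htail
  obtain ⟨Z, hZ⟩ : ∃ Z : ℝ, Z = ∑ c ∈ SS p, 1 / (c : ℝ) := ⟨_, rfl⟩
  have hZ0 : 0 ≤ Z := by rw [hZ]; exact sum_nonneg fun _ _ => by positivity
  rw [← hZ] at hh ⊢
  rw [← hδ]
  have hT1 : |T| ≤ δ * (10 + 2 * Real.log p) + 4 * (1 + Real.log p) * Z := by
    refine le_of_mul_le_mul_left ?_ hx0
    have d1 : 2 * δ * x * (1 + Real.log x) ≤ 2 * δ * x * (1 + Real.log p) :=
      mul_le_mul_of_nonneg_left (by linarith) (by positivity)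
    have d2 : 4 * x * (1 + Real.log x) * Z ≤ 4 * x * (1 + Real.log p) * Z :=
      mul_le_mul_of_nonneg_right (mul_le_mul_of_nonneg_left (by linarith) (by positivity)) hZ0
    have e : x * (δ * (10 + 2 * Real.log p) + 4 * (1 + Real.log p) * Z) =
        2 * (4 * δ * x) + 2 * δ * x * (1 + Real.log p) + 4 * x * (1 + Real.log p) * Z := by
      ring
    rw [e]; linarith
  have d1 : |L| ≤ |L - T| + |T| := by simpa using abs_add_le (L - T) T
  have e : δ * (17 + 3 * Real.log p) =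
      δ * (2 + Real.log p) + 5 * δ + δ * (10 + 2 * Real.log p) := by ring
  rw [e]; linarith

theorem many_row (hSQ : SQ_s) (hH : HYP_s) (hB : BURG_s) (hB2 : BUR2_s) (hS : SIEG_s)
    (hT : TAIL_s) : MANY_s := by
  intro ε hε
  obtain ⟨κ₁, hκ₁, p₁, hc⟩ := many_core hSQ hH hB hB2 hT
  obtain ⟨κ, hκ, hκ1, hκ2⟩ : ∃ κ : ℝ, 0 < κ ∧ κ ≤ κ₁ ∧ κ ≤ ε :=
    ⟨min κ₁ ε, lt_min hκ₁ hε, min_le_left _ _, min_le_right _ _⟩
  obtain ⟨c₀, hc₀, hS⟩ := hS (κ / 2) (by positivity)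
  have ev2 : ∀ᶠ p : ℕ in atTop, (21 + 28 / κ) / c₀ < (p : ℝ) ^ (κ / 4) :=
    ((tendsto_rpow_atTop (by positivity)).comp tendsto_natCast_atTop_atTop).eventually_gt_atTop _
  obtain ⟨p₀, hp₀⟩ := eventually_atTop.1 (ev2.and
    ((eventually_ge_atTop p₁).and (eventually_ge_atTop 3)))
  refine ⟨p₀, fun p _ hp => ?_⟩
  obtain ⟨h2, h3, h4⟩ := hp₀ p hp
  obtain ⟨L, hL, hlim⟩ := hS p (by omega)
  have hL0 := hc p h3 L hlim
  by_contra hno
  rw [not_le] at hno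
  have hp1 : (1 : ℝ) ≤ p := by exact_mod_cast (by omega : 1 ≤ p)
  have hp0 : (0 : ℝ) < p := by linarith
  have hlp : 0 ≤ Real.log p := Real.log_nonneg hp1
  obtain ⟨δ, hδ⟩ : ∃ δ : ℝ, δ = (p : ℝ) ^ (-κ) := ⟨_, rfl⟩
  have hδ0 : 0 < δ := by rw [hδ]; positivity
  have g1 : (p : ℝ) ^ (-κ₁) ≤ δ := by
    rw [hδ]; exact Real.rpow_le_rpow_of_exponent_le hp1 (by linarith)
  have g2 : (p : ℝ) ^ (-ε) ≤ δ := by
    rw [hδ]; exact Real.rpow_le_rpow_of_exponent_le hp1 (by linarith)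
  have hL1 : |L| ≤ δ * (21 + 7 * Real.log p) := by
    have g3 : (p : ℝ) ^ (-κ₁) * (17 + 3 * Real.log p) ≤ δ * (17 + 3 * Real.log p) :=
      mul_le_mul_of_nonneg_right g1 (by linarith)
    have g4 : 4 * (1 + Real.log p) * ∑ c ∈ SS p, 1 / (c : ℝ) ≤ 4 * (1 + Real.log p) * δ :=
      mul_le_mul_of_nonneg_left (hno.le.trans g2) (by linarith)
    have e : δ * (21 + 7 * Real.log p) =
        δ * (17 + 3 * Real.log p) + 4 * (1 + Real.log p) * δ := by ring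
    rw [e]; linarith
  obtain ⟨s, hs⟩ : ∃ s : ℝ, s = (p : ℝ) ^ (κ / 4) := ⟨_, rfl⟩
  have hs1 : 1 ≤ s := by rw [hs]; exact Real.one_le_rpow hp1 (by positivity)
  have hs0 : 0 < s := by linarith
  have hs2 : (p : ℝ) ^ (κ / 2) = s ^ 2 := by
    rw [hs, ← Real.rpow_natCast, ← Real.rpow_mul hp0.le]; congr 1; push_cast; ring
  have hs4 : δ * s ^ 4 = 1 := by
    rw [hδ, hs, ← Real.rpow_natCast, ← Real.rpow_mul hp0.le, ← Real.rpow_add hp0]
    have e : -κ + κ / 4 * ((4 : ℕ) : ℝ) = 0 := by push_cast; ring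
    rw [e, Real.rpow_zero]
  have hlg : Real.log p ≤ s / (κ / 4) := by
    rw [hs]; exact Real.log_le_rpow_div hp0.le (by positivity)
  rw [← hs] at h2
  rw [hs2, div_le_iff₀ (by positivity)] at hL
  rw [div_lt_iff₀ hc₀] at h2
  have f1 : 21 + 7 * Real.log p ≤ (21 + 28 / κ) * s := by
    have e : (21 + 28 / κ) * s = 21 * s + 7 * (s / (κ / 4)) := by field_simp; ring
    rw [e]; linarith
  have f2 : |L| ≤ δ * ((21 + 28 / κ) * s) :=
    hL1.trans (mul_le_mul_of_nonneg_left f1 hδ0.le)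
  have f3 : δ * ((21 + 28 / κ) * s) < δ * (s * c₀ * s) :=
    mul_lt_mul_of_pos_left (mul_lt_mul_of_pos_right h2 hs0) hδ0
  have f4 : |L| * s ^ 2 < δ * (s * c₀ * s) * s ^ 2 :=
    mul_lt_mul_of_pos_right (f2.trans_lt f3) (by positivity)
  have f5 : δ * (s * c₀ * s) * s ^ 2 = c₀ * (δ * s ^ 4) := by ring
  rw [f5, hs4, mul_one] at f4
  linarith

end Pool.Agent.G60
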