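import Pool.Agent.MP_b5e119_nt.G60.Defs

namespace Pool.Agent.G60

open Finset Filter

variable [Sg]

omit [Sg] in
theorem ods3_log (x : ℕ) (hx : 1 ≤ x) : (Nat.log 2 x : ℝ) ≤ 2 * Real.log x := by
  have a1 : ((2 : ℝ)) ^ Nat.log 2 x ≤ (x : ℝ) := by
    exact_mod_cast Nat.pow_log_le_self 2 (by omega : x ≠ 0)
  have a2 := Real.log_le_log (by positivity) a1
  rw [Real.log_pow] at a2
  have a3 := Real.log_two_gt_d9
  have a4 : (0 : ℝ) ≤ Nat.log 2 x := Nat.cast_nonneg _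
  nlinarith

omit [Sg] in
theorem ods3_ev (B : ℕ) (ε : ℝ) (hε : 0 < ε) :
    ∃ p₁ : ℕ, ∀ p : ℕ, p₁ ≤ p → 4 * (2 * Real.log p) ^ B ≤ (p : ℝ) ^ ε := by
  have h1 := (isLittleO_log_rpow_rpow_atTop (B : ℝ) hε).bound
    (c := 1 / (4 * 2 ^ B)) (by positivity)
  obtain ⟨y, hy⟩ := eventually_atTop.1 h1
  refine ⟨⌈y⌉₊ + 1, fun p hp => ?_⟩
  have hp1 : (1 : ℝ) ≤ p := by exact_mod_cast (by omega : 1 ≤ p)
  have hyp : y ≤ p := (Nat.le_ceil y).trans (by exact_mod_cast (by omega : ⌈y⌉₊ ≤ p))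
  have h2 := hy p hyp
  have hl : 0 ≤ Real.log p := Real.log_nonneg hp1
  rw [Real.rpow_natCast, Real.norm_of_nonneg (by positivity), Real.norm_of_nonneg (by positivity),
    one_div, ← div_eq_inv_mul, le_div_iff₀ (by positivity)] at h2
  rw [mul_pow]
  linarith

theorem ods3_row (hLIO : LIO_s) (hODD3 : ODD3_s) : ODS3_s := by
  intro B ε hε
  obtain ⟨C, hC, h⟩ := hLIO (B + 1)
  obtain ⟨p₁, hp₁⟩ := ods3_ev B ε hε
  refine ⟨⌈Real.exp (2 * C * 4 ^ B)⌉₊ + 3 + p₁, fun p _ hp e he hc => ?_⟩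
  have hq := hp₁ p (by omega)
  have hlp := ods3_log p (by omega)
  obtain ⟨x, rfl⟩ : ∃ x, p = x + 1 := ⟨p - 1, by omega⟩
  have hx2 : 2 ≤ x := by omega
  have hxR : (2 : ℝ) ≤ x := by exact_mod_cast hx2
  have h1 := h x hx2
  have h2 := hODD3 (x + 1) e he
  rw [Nat.add_sub_cancel] at h2
  have h3 : (od (x + 1) : ℝ) ≤ |∑ n ∈ Icc 1 x, (lam n : ℝ)| + 2 * cnt (x + 1) e (-Sg.s * e) := by
    exact_mod_cast h2
  have hL : 2 * C * 4 ^ B ≤ Real.log x := by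
    rw [Real.le_log_iff_exp_le (by linarith)]
    refine (Nat.le_ceil _).trans ?_
    exact_mod_cast (by omega : ⌈Real.exp (2 * C * 4 ^ B)⌉₊ ≤ x)
  have hL0 : 0 < Real.log x := Real.log_pos (by linarith)
  have hP : (0 : ℝ) < ((x + 1 : ℕ) : ℝ) := by positivity
  have hl : (Nat.log 2 (x + 1) : ℝ) ≤ 4 * Real.log x := by
    have a1 : ((x + 1 : ℕ) : ℝ) ≤ (x : ℝ) ^ 2 := by push_cast; nlinarith
    have a2 := Real.log_le_log hP a1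
    rw [Real.log_pow] at a2
    push_cast at a2 hlp ⊢
    linarith
  have h5 : |∑ n ∈ Icc 1 x, (lam n : ℝ)| * (Nat.log 2 (x + 1) : ℝ) ^ B ≤ ((x + 1 : ℕ) : ℝ) / 2 := by
    calc _ ≤ C * x / Real.log x ^ (B + 1) * (4 * Real.log x) ^ B := by gcongr
      _ = 2 * C * 4 ^ B / Real.log x * (x / 2) := by rw [mul_pow]; field_simp; ring
      _ ≤ 1 * (x / 2) := by
        gcongr
        exact (div_le_one hL0).2 hL
      _ ≤ _ := by push_cast; linarith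
  have h6 : 2 * (cnt (x + 1) e (-Sg.s * e) : ℝ) * (Nat.log 2 (x + 1) : ℝ) ^ B ≤
      ((x + 1 : ℕ) : ℝ) / 2 := by
    have hl0 : 0 ≤ Real.log ((x + 1 : ℕ) : ℝ) := Real.log_nonneg (by push_cast; linarith)
    calc _ ≤ 2 * ((x + 1 : ℕ) : ℝ) ^ (1 - ε) * (2 * Real.log ((x + 1 : ℕ) : ℝ)) ^ B := by gcongr
      _ = ((x + 1 : ℕ) : ℝ) ^ (1 - ε) * (4 * (2 * Real.log ((x + 1 : ℕ) : ℝ)) ^ B) / 2 := by ring
      _ ≤ ((x + 1 : ℕ) : ℝ) ^ (1 - ε) * ((x + 1 : ℕ) : ℝ) ^ ε / 2 := by gcongr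
      _ = _ := by rw [← Real.rpow_add hP, sub_add_cancel, Real.rpow_one]
  have h7 : (od (x + 1) : ℝ) * (Nat.log 2 (x + 1) : ℝ) ^ B ≤ ((x + 1 : ℕ) : ℝ) := by
    calc _ ≤ (|∑ n ∈ Icc 1 x, (lam n : ℝ)| + 2 * cnt (x + 1) e (-Sg.s * e)) *
          (Nat.log 2 (x + 1) : ℝ) ^ B := by gcongr
      _ ≤ _ := by rw [add_mul]; linarith
  exact_mod_cast h7

end Pool.Agent.G60
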