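import Pool.Agent.MP_b5e119_nt.G60.Defs

namespace Pool.Agent.G60

open Finset

theorem pow_card (N : ℕ) [NeZero N] {c : ℕ} (hc : 0 < c) (P : ZMod N → Prop) [DecidablePred P] :
    #{a : ZMod N | P ((c : ZMod N) * a)} ≤ c * #{a : ZMod N | P a} := by
  have hN : 0 < N := Nat.pos_of_ne_zero (NeZero.ne N)
  rw [← card_range c, ← card_product, card_range]
  refine card_le_card_of_injOn (fun a => (c * a.val / N, (c : ZMod N) * a)) (fun a ha => ?_)
    fun a _ b _ h => ?_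
  · simp only [coe_filter, mem_univ, true_and, Set.mem_ofPred_eq] at ha
    simp only [coe_product, Set.mem_prod, mem_coe, mem_range, mem_filter, mem_univ, true_and]
    refine ⟨?_, ha⟩
    rw [Nat.div_lt_iff_lt_mul hN]
    exact Nat.mul_lt_mul_of_pos_left (ZMod.val_lt a) hc
  · simp only [Prod.mk.injEq] at h
    obtain ⟨h1, h2⟩ := h
    have h3 := congrArg ZMod.val h2
    rw [ZMod.val_mul, ZMod.val_mul, ZMod.val_natCast, Nat.mod_mul_mod, Nat.mod_mul_mod] at h3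
    have h4 := Nat.div_add_mod (c * a.val) N
    have h5 := Nat.div_add_mod (c * b.val) N
    rw [h1, h3, h5] at h4
    exact ZMod.val_injective N (Nat.eq_of_mul_eq_mul_left hc h4.symm)

theorem pow_small (N : ℕ) [NeZero N] {m : ℕ} (hm : m ≠ 0) (c : ZMod N) (h : m * c.val < N) :
    ff N ((m : ZMod N) * c) = lam m * ff N c := by
  by_cases hc : c = 0
  · simp [ff, hc]
  have hv : c.val ≠ 0 := fun e => hc ((ZMod.val_eq_zero c).1 e)
  have e : ((m : ZMod N) * c).val = m * c.val := by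
    have : (m : ZMod N) * c = ((m * c.val : ℕ) : ZMod N) := by
      rw [Nat.cast_mul, ZMod.natCast_zmod_val]
    rw [this, ZMod.val_natCast, Nat.mod_eq_of_lt h]
  have hne : (m : ZMod N) * c ≠ 0 := fun e' => by
    rw [e', ZMod.val_zero] at e
    exact mul_ne_zero hm hv e.symm
  unfold ff
  rw [if_neg hne, if_neg hc, e, lam_mul hm hv]

theorem pow_window (N : ℕ) [NeZero N] {m : ℕ} (hm : m ≠ 0) (b : ZMod N) {s : ℤ} (hs : s ≠ 0)
    (h : m * b.valMinAbs.natAbs ≤ N) (h0 : (m : ZMod N) * b ≠ 0) (h1 : ff N (-b) = s * ff N b)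
    (h2 : ff N (-((m : ZMod N) * b)) = s * ff N ((m : ZMod N) * b)) :
    ff N ((m : ZMod N) * b) = lam m * ff N b := by
  have hb : b ≠ 0 := fun e => h0 (by rw [e, mul_zero])
  have key : ∀ c : ZMod N, m * c.val ≤ N → (m : ZMod N) * c ≠ 0 → m * c.val < N := by
    intro c hc hne
    refine lt_of_le_of_ne hc fun e => hne ?_
    have : (m : ZMod N) * c = ((m * c.val : ℕ) : ZMod N) := by
      rw [Nat.cast_mul, ZMod.natCast_zmod_val]
    rw [this, e, ZMod.natCast_self]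
  rw [ZMod.valMinAbs_natAbs_eq_min] at h
  rcases le_total b.val (N - b.val) with hle | hle
  · rw [min_eq_left hle] at h
    exact pow_small N hm b (key b h h0)
  · rw [min_eq_right hle] at h
    have hv : (-b).val = N - b.val := by rw [ZMod.neg_val, if_neg hb]
    have := pow_small N hm (-b) (key (-b) (by rwa [hv]) (by rw [mul_neg]; exact neg_ne_zero.2 h0))
    rw [mul_neg, h2, h1, mul_left_comm] at this
    exact mul_left_cancel₀ hs this

theorem pow_dir (N : ℕ) [NeZero N] (m : ℕ) (h2 : 2 ≤ m) (a : ZMod N) :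
    ∃ k ∈ Ico 1 m, m * ((k : ZMod N) * a).valMinAbs.natAbs ≤ N := by
  have hp0 : (0 : ℝ) < N := by exact_mod_cast Nat.pos_of_ne_zero (NeZero.ne N)
  obtain ⟨j, k, hk0, hk, hle⟩ :=
    Real.exists_int_int_abs_mul_sub_le ((a.val : ℝ) / N) (n := m - 1) (by omega)
  lift k to ℕ using hk0.le
  refine ⟨k, by rw [mem_Ico]; omega, ?_⟩
  have hm1 : ((m - 1 : ℕ) : ℝ) + 1 = m := by
    rw [Nat.cast_sub (by omega)]
    simp
  have hm0 : (0 : ℝ) < m := by exact_mod_cast (by omega : 0 < m)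
  rw [hm1] at hle
  have h3 : (m : ℝ) * |(k : ℝ) * a.val - j * N| ≤ N := by
    have e : (k : ℝ) * a.val - j * N = (((k : ℤ) : ℝ) * ((a.val : ℝ) / N) - j) * N := by
      push_cast
      field_simp
    rw [e, abs_mul, abs_of_pos hp0]
    rw [le_div_iff₀ hm0] at hle
    nlinarith
  have h4 : m * ((k : ℤ) * a.val - j * N).natAbs ≤ N := by
    have : ((m * ((k : ℤ) * a.val - j * N).natAbs : ℕ) : ℝ) ≤ N := by
      rw [Nat.cast_mul, Nat.cast_natAbs]
      push_cast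
      exact h3
    exact_mod_cast this
  have h5 : ((k : ZMod N) * a).valMinAbs.natAbs ≤ ((k : ℤ) * a.val - j * N).natAbs := by
    refine ZMod.natAbs_min_of_le_div_two N _ _ ?_ (ZMod.natAbs_valMinAbs_le _)
    simp
  exact (Nat.mul_le_mul_left m h5).trans h4

theorem pow_tr [Sg] (N : ℕ) [NeZero N] (m : ℕ) (h2 : 2 ≤ m) :
    bad N m ≤ ∑ s ∈ Ico 1 m, ((m + 1) * bad N s + (s + m * s) * (od N + 1)) := by
  classical
  have h0 : m ≠ 0 := by omega
  have hsg : Sg.s ≠ 0 := by rcases Sg.hs with h | h <;> rw [h] <;> norm_num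
  let A : ℕ → Finset (ZMod N) := fun s =>
    ((univ.filter fun a : ZMod N => ff N ((s : ZMod N) * a) ≠ lam s * ff N a) ∪
      (univ.filter fun a : ZMod N =>
        ff N ((s : ZMod N) * ((m : ZMod N) * a)) ≠ lam s * ff N ((m : ZMod N) * a))) ∪
    (((univ.filter fun a : ZMod N => ff N (-((s : ZMod N) * a)) ≠ Sg.s * ff N ((s : ZMod N) * a)) ∪
      (univ.filter fun a : ZMod N =>
        ff N (-(((m * s : ℕ) : ZMod N) * a)) ≠ Sg.s * ff N (((m * s : ℕ) : ZMod N) * a))) ∪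
      (univ.filter fun a : ZMod N => ((m * s : ℕ) : ZMod N) * a = 0))
  have hA : ∀ s ∈ Ico 1 m, #(A s) ≤ (m + 1) * bad N s + (s + m * s) * (od N + 1) := by
    intro s hs
    have hs0 : 0 < s := (mem_Ico.1 hs).1
    have hms : 0 < m * s := by positivity
    have i1 := pow_card N (c := m) (by omega) fun a => ff N ((s : ZMod N) * a) ≠ lam s * ff N a
    have i2 := pow_card N hs0 fun a => ff N (-a) ≠ Sg.s * ff N a
    have i3 := pow_card N hms fun a => ff N (-a) ≠ Sg.s * ff N a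
    have i4 := pow_card N hms fun a => a = 0
    have i5 : #{a : ZMod N | a = 0} = 1 := by simp [filter_eq']
    rw [i5] at i4
    refine (card_union_le _ _).trans ((add_le_add (card_union_le _ _)
      ((card_union_le _ _).trans (add_le_add (card_union_le _ _) le_rfl))).trans ?_)
    unfold bad od
    nlinarith
  refine le_trans ?_ ((card_biUnion_le (s := Ico 1 m) (t := A)).trans (sum_le_sum hA))
  unfold bad
  refine card_le_card fun a ha => ?_
  rw [mem_biUnion]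
  obtain ⟨s, hs, hw⟩ := pow_dir N m h2 a
  refine ⟨s, hs, ?_⟩
  by_contra n3
  simp only [mem_filter, mem_univ, true_and] at ha
  simp only [A, mem_union, mem_filter, mem_univ, true_and, not_or, not_not] at n3
  obtain ⟨⟨e1, e2⟩, ⟨e3, e4⟩, e6⟩ := n3
  rw [Nat.cast_mul, mul_assoc] at e4 e6
  have e5 := pow_window N h0 _ hsg hw e6 e3 e4
  apply ha
  have hl : lam s ≠ 0 := by
    unfold lam
    exact pow_ne_zero _ (by norm_num)
  apply mul_left_cancel₀ hl
  rw [← e2, mul_left_comm (s : ZMod N), e5, e1, mul_left_comm]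

theorem pow_gdir (m : ℕ) : ∃ C : ℕ, ∀ s, 0 < s → s ≤ m → ∀ (i : Sg) (N : ℕ) [NeZero N],
    bad N s ≤ C * (@od i N _ + 1) := by
  induction m with
  | zero => exact ⟨0, fun s h1 h2 => by omega⟩
  | succ m ih =>
    obtain ⟨C, hC⟩ := ih
    refine ⟨C + (m + 1) * ((m + 2) * C + (m + 2) * (m + 1)), fun s h1 h2 i N _ => ?_⟩
    rcases Nat.lt_or_ge s (m + 1) with h | h
    · exact (hC s h1 (by omega) i N).trans (Nat.mul_le_mul_right _ (Nat.le_add_right _ _))
    obtain rfl : s = m + 1 := by omega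
    rcases Nat.eq_zero_or_pos m with rfl | hm
    · simp [bad, lam_one]
    refine (pow_tr N (m + 1) (by omega)).trans ?_
    refine (sum_le_card_nsmul _ _ (((m + 2) * C + (m + 2) * (m + 1)) * (od N + 1)) ?_).trans ?_
    · intro t ht
      have ht' := mem_Ico.1 ht
      have h3 := Nat.mul_le_mul_left (m + 2) (hC t ht'.1 (by omega) i N)
      have h4 : (t + (m + 1) * t) * (od N + 1) ≤ (m + 2) * (m + 1) * (od N + 1) :=
        Nat.mul_le_mul_right _ (by nlinarith)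
      nlinarith
    · rw [Nat.card_Ico, smul_eq_mul, ← mul_assoc]
      exact Nat.mul_le_mul_right _ (by
        refine le_trans ?_ (Nat.le_add_left _ _)
        exact Nat.mul_le_mul_right _ (by omega))

/-- Transfer of counts from residues to naturals. -/
theorem pow_nat (N : ℕ) [NeZero N] (P : ZMod N → Prop) [DecidablePred P] (Q : ℕ → Prop)
    [DecidablePred Q] (h : ∀ a < N, Q a → P (a : ZMod N)) :
    #{a ∈ range N | Q a} ≤ #{a : ZMod N | P a} := by
  refine card_le_card_of_injOn (fun a => (a : ZMod N)) (fun a ha => ?_) fun a ha b hb e => ?_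
  · simp only [coe_filter, mem_range, Set.mem_ofPred_eq] at ha
    simpa using h a ha.1 ha.2
  · simp only [coe_filter, mem_range, Set.mem_ofPred_eq] at ha hb
    have := congrArg ZMod.val e
    rwa [ZMod.val_natCast, ZMod.val_natCast, Nat.mod_eq_of_lt ha.1, Nat.mod_eq_of_lt hb.1] at this

theorem pow_ff (N : ℕ) [NeZero N] (x : ℕ) (h : x % N ≠ 0) : ff N (x : ZMod N) = lam (x % N) := by
  unfold ff
  rw [if_neg, ZMod.val_natCast]
  intro e
  have := congrArg ZMod.val e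
  rw [ZMod.val_natCast, ZMod.val_zero] at this
  exact h this

theorem pow_refl (N : ℕ) (e e' : ℤ) : cnt N e e' = cnt N e' e := by
  unfold cnt
  refine card_bij' (fun a _ => N - a) (fun a _ => N - a) ?_ ?_ ?_ ?_
  all_goals
    intro a ha
    simp only [mem_filter, mem_Icc] at ha ⊢
  · have : N - (N - a) = a := by omega
    rw [this]
    exact ⟨by omega, ha.2.2, ha.2.1⟩
  · have : N - (N - a) = a := by omega
    rw [this]
    exact ⟨by omega, ha.2.2, ha.2.1⟩
  · omega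
  · omega

theorem pow_sum (N : ℕ) : ∑ n ∈ Icc 1 (N - 1), lam n =
    (cnt N 1 1 : ℤ) + cnt N 1 (-1) - cnt N (-1) 1 - cnt N (-1) (-1) := by
  unfold cnt
  simp only [card_filter]
  push_cast
  rw [← sum_add_distrib, ← sum_sub_distrib, ← sum_sub_distrib]
  refine sum_congr rfl fun a _ => ?_
  rcases lam_cases a with h | h <;> rcases lam_cases (N - a) with h' | h' <;> simp [h, h']

theorem pow_od [Sg] (N : ℕ) [NeZero N] : od N ≤ cnt N 1 (-Sg.s) + cnt N (-1) Sg.s := by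
  unfold od cnt
  refine le_trans ?_ (card_union_le _ _)
  refine card_le_card_of_injOn (fun a => a.val) (fun a ha => ?_) fun a _ b _ e =>
    ZMod.val_injective N e
  simp only [coe_filter, mem_univ, true_and, Set.mem_ofPred_eq] at ha
  have h0 : a ≠ 0 := fun e => ha (by simp [e, ff])
  have hv : a.val ≠ 0 := fun e => h0 ((ZMod.val_eq_zero a).1 e)
  have hlt := ZMod.val_lt a
  unfold ff at ha
  rw [if_neg (neg_ne_zero.2 h0), if_neg h0, ZMod.neg_val, if_neg h0] at ha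
  simp only [coe_union, coe_filter, mem_Icc, Set.mem_union, Set.mem_ofPred_eq]
  have hI : 1 ≤ a.val ∧ a.val ≤ N - 1 := by omega
  rcases lam_cases a.val with h | h <;> rcases lam_cases (N - a.val) with h' | h' <;>
    rcases Sg.hs with h'' | h'' <;> simp [h, h', h'', hI] at ha ⊢

theorem pow_odd (N : ℕ) [NeZero N] (e e' : ℤ) (he : e = 1 ∨ e = -1) (he' : e' = 1 ∨ e' = -1) :
    ∃ i : Sg, (@od i N _ : ℤ) ≤ |∑ n ∈ Icc 1 (N - 1), lam n| + 2 * cnt N e e' := by
  have h1 := pow_sum N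
  have h2 := pow_refl N 1 (-1)
  have h3 := le_abs_self (∑ n ∈ Icc 1 (N - 1), lam n)
  have h4 := neg_abs_le (∑ n ∈ Icc 1 (N - 1), lam n)
  have h5 := @pow_od ⟨1, Or.inl rfl⟩ N _
  have h6 := @pow_od ⟨-1, Or.inr rfl⟩ N _
  simp only [neg_neg] at h5 h6
  rcases he with rfl | rfl <;> rcases he' with rfl | rfl
  · exact ⟨⟨-1, Or.inr rfl⟩, by omega⟩
  · exact ⟨⟨1, Or.inl rfl⟩, by omega⟩
  · exact ⟨⟨1, Or.inl rfl⟩, by omega⟩
  · exact ⟨⟨-1, Or.inr rfl⟩, by omega⟩

/-- Residues whose sign is not read modulo `q ^ j`. -/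
def powD (q j k : ℕ) : ℕ := #{a ∈ range (q ^ k) | lam a ≠ lam (a % q ^ j)}

theorem pow_fib (q M : ℕ) (hM : 0 < M) (P : ℕ → Prop) [DecidablePred P] :
    #{a ∈ range (M * q) | P (a % M)} ≤ q * #{a ∈ range M | P a} := by
  rw [← card_range q, ← card_product, card_range]
  refine card_le_card_of_injOn (fun a => (a / M, a % M)) (fun a ha => ?_) fun a _ b _ h => ?_
  · simp only [coe_filter, mem_range, Set.mem_ofPred_eq] at ha
    simp only [coe_product, Set.mem_prod, mem_coe, mem_range, mem_filter]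
    exact ⟨(Nat.div_lt_iff_lt_mul hM).2 (by rw [mul_comm]; exact ha.1), Nat.mod_lt _ hM, ha.2⟩
  · simp only [Prod.mk.injEq] at h
    rw [← Nat.div_add_mod a M, ← Nat.div_add_mod b M, h.1, h.2]

theorem pow_step (q j k : ℕ) (hq : q.Prime) (hjk : j ≤ k) [NeZero (q ^ (k + 1))] :
    powD q j (k + 1) ≤ bad (q ^ (k + 1)) q + q + q * powD q j k := by
  have hM : 0 < q ^ k := pow_pos hq.pos k
  have h1 := pow_fib q (q ^ k) hM fun a => lam a ≠ lam (a % q ^ j)
  have h2 := pow_fib q (q ^ k) hM fun a => a = 0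
  have h3 : #{a ∈ range (q ^ k) | a = 0} ≤ 1 :=
    card_le_one.2 fun a ha b hb => by rw [(mem_filter.1 ha).2, (mem_filter.1 hb).2]
  have h4 := pow_nat (q ^ (k + 1))
    (fun a => ff (q ^ (k + 1)) ((q : ZMod (q ^ (k + 1))) * a) ≠ lam q * ff (q ^ (k + 1)) a)
    (fun a => a % q ^ k ≠ 0 ∧ lam a ≠ lam (a % q ^ k)) (by
      intro a ha hQ
      have a0 : a ≠ 0 := fun e => hQ.1 (by rw [e, Nat.zero_mod])
      have e1 : q * a % q ^ (k + 1) = q * (a % q ^ k) := by
        rw [pow_succ', Nat.mul_mod_mul_left]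
      rw [← Nat.cast_mul, pow_ff _ _ (by rw [e1]; exact mul_ne_zero hq.ne_zero hQ.1),
        pow_ff _ _ (by rw [Nat.mod_eq_of_lt ha]; exact a0), e1, Nat.mod_eq_of_lt ha,
        lam_mul hq.ne_zero hQ.1, lam_prime hq]
      intro e
      apply hQ.2
      linarith)
  rw [← pow_succ] at h1 h2
  have h5 : powD q j (k + 1) ≤
      #{a ∈ range (q ^ (k + 1)) | a % q ^ k ≠ 0 ∧ lam a ≠ lam (a % q ^ k)} +
      #{a ∈ range (q ^ (k + 1)) | a % q ^ k = 0} +
      #{a ∈ range (q ^ (k + 1)) | lam (a % q ^ k) ≠ lam (a % q ^ k % q ^ j)} := by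
    unfold powD
    refine le_trans (card_le_card fun a ha => ?_)
      ((card_union_le _ _).trans (add_le_add (card_union_le _ _) le_rfl))
    simp only [mem_union, mem_filter] at ha ⊢
    rw [Nat.mod_mod_of_dvd _ (pow_dvd_pow q hjk)]
    by_cases c1 : a % q ^ k = 0
    · exact Or.inl (Or.inr ⟨ha.1, c1⟩)
    by_cases c2 : lam a = lam (a % q ^ k)
    · exact Or.inr ⟨ha.1, by rw [← c2]; exact ha.2⟩
    · exact Or.inl (Or.inl ⟨ha.1, c1, c2⟩)
  have h6 := Nat.mul_le_mul_left q h3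
  unfold bad
  unfold powD at h5 ⊢
  omega

theorem pow_end (q j k r : ℕ) (hq : q.Prime) (hjk : j ≤ k) (hr : r.Prime) (hqr : q < r)
    (h1 : r ≡ 1 [MOD q ^ j]) [NeZero (q ^ k)] :
    q ^ k ≤ bad (q ^ k) r + 1 + 2 * powD q j k := by
  have hM : 0 < q ^ k := pow_pos hq.pos k
  have hco : Nat.Coprime (q ^ k) r := Nat.Coprime.pow_left _ ((Nat.coprime_primes hq hr).2 hqr.ne)
  have h4 := pow_nat (q ^ k)
    (fun a => ff (q ^ k) ((r : ZMod (q ^ k)) * a) ≠ lam r * ff (q ^ k) a)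
    (fun a => a ≠ 0 ∧ lam (r * a % q ^ k) = lam a) (by
      intro a ha hQ
      have e1 : r * a % q ^ k ≠ 0 := fun e => by
        have := Nat.le_of_dvd (Nat.pos_of_ne_zero hQ.1)
          (hco.dvd_of_dvd_mul_left (Nat.dvd_of_mod_eq_zero e))
        omega
      rw [← Nat.cast_mul, pow_ff _ _ e1, pow_ff _ _ (by rw [Nat.mod_eq_of_lt ha]; exact hQ.1),
        Nat.mod_eq_of_lt ha, hQ.2, lam_prime hr]
      rcases lam_cases a with h | h <;> rw [h] <;> norm_num)
  have h3 : #{a ∈ range (q ^ k) | a = 0} ≤ 1 :=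
    card_le_one.2 fun a ha b hb => by rw [(mem_filter.1 ha).2, (mem_filter.1 hb).2]
  have h2 : #{a ∈ range (q ^ k) | lam (r * a % q ^ k) ≠ lam (r * a % q ^ k % q ^ j)} ≤
      powD q j k := by
    unfold powD
    refine card_le_card_of_injOn (fun a => r * a % q ^ k) (fun a ha => ?_) fun a ha b hb e => ?_
    · simp only [coe_filter, mem_range, Set.mem_ofPred_eq] at ha ⊢
      exact ⟨Nat.mod_lt _ hM, ha.2⟩
    · simp only [coe_filter, mem_range, Set.mem_ofPred_eq] at ha hb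
      have := Nat.ModEq.cancel_left_of_coprime hco e
      exact Nat.ModEq.eq_of_lt_of_lt this ha.1 hb.1
  have h5 : #(range (q ^ k)) ≤
      #{a ∈ range (q ^ k) | a ≠ 0 ∧ lam (r * a % q ^ k) = lam a} +
      #{a ∈ range (q ^ k) | a = 0} +
      (#{a ∈ range (q ^ k) | lam (r * a % q ^ k) ≠ lam (r * a % q ^ k % q ^ j)} +
        #{a ∈ range (q ^ k) | lam a ≠ lam (a % q ^ j)}) := by
    refine le_trans (card_le_card fun a ha => ?_)
      ((card_union_le _ _).trans (add_le_add (card_union_le _ _) (card_union_le _ _)))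
    simp only [mem_union, mem_filter] at ha ⊢
    have e2 : r * a % q ^ k % q ^ j = a % q ^ j := by
      rw [Nat.mod_mod_of_dvd _ (pow_dvd_pow q hjk)]
      have e3 : r * a ≡ 1 * a [MOD q ^ j] := h1.mul_right a
      rw [one_mul] at e3
      exact e3
    rw [e2]
    by_cases c1 : a = 0
    · exact Or.inl (Or.inr ⟨ha, c1⟩)
    by_cases c2 : lam (r * a % q ^ k) = lam (a % q ^ j)
    · by_cases c3 : lam a = lam (a % q ^ j)
      · exact Or.inl (Or.inl ⟨ha, c1, by rw [c2, c3]⟩)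
      · exact Or.inr (Or.inr ⟨ha, c3⟩)
    · exact Or.inr (Or.inl ⟨ha, c2⟩)
  rw [card_range] at h5
  unfold bad
  unfold powD at h2 ⊢
  omega

theorem pow_sq (k : ℕ) : k ^ 2 ≤ 2 * 2 ^ k := by
  induction k with
  | zero => simp
  | succ k ih =>
    rcases Nat.lt_or_ge k 3 with h | h
    · interval_cases k <;> norm_num
    · rw [pow_succ 2 k]; nlinarith

/-- The bound `C q ^ k / k ^ 2` for the partial sums. -/
theorem pow_lio (hLIO : LIO_s) (q : ℕ) (hq : q.Prime) : ∃ C : ℝ, 0 < C ∧ ∀ k : ℕ, 2 ≤ k →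
    ((|∑ n ∈ Icc 1 (q ^ k - 1), lam n| : ℤ) : ℝ) * (k : ℝ) ^ 2 ≤ C * (q : ℝ) ^ k := by
  obtain ⟨C, hC0, hC⟩ := hLIO 2
  refine ⟨16 * C, by positivity, fun k hk => ?_⟩
  have h2 : 2 ^ k ≤ q ^ k := Nat.pow_le_pow_left hq.two_le k
  obtain ⟨t, rfl⟩ : ∃ t, k = t + 1 := ⟨k - 1, by omega⟩
  have h3 : 2 ≤ 2 ^ t := by
    calc 2 = 2 ^ 1 := rfl
      _ ≤ 2 ^ t := Nat.pow_le_pow_right (by norm_num) (by omega)
  have h4 : 2 ^ t ≤ q ^ (t + 1) - 1 := by rw [pow_succ] at h2; omega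
  have h5 := hC (q ^ (t + 1) - 1) (h3.trans h4)
  have ht : (1 : ℝ) ≤ t := by exact_mod_cast (by omega : 1 ≤ t)
  have h6 : ((t : ℝ) + 1) / 4 ≤ Real.log ((q ^ (t + 1) - 1 : ℕ) : ℝ) := by
    have h7 : Real.log ((2 : ℝ) ^ t) ≤ Real.log ((q ^ (t + 1) - 1 : ℕ) : ℝ) :=
      Real.log_le_log (by positivity) (by exact_mod_cast h4)
    rw [Real.log_pow] at h7
    have := Real.log_two_gt_d9
    nlinarith
  have h8 : ((q ^ (t + 1) - 1 : ℕ) : ℝ) ≤ (q : ℝ) ^ (t + 1) := by exact_mod_cast Nat.sub_le _ _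
  have h9 : (((t : ℝ) + 1) / 4) ^ 2 ≤ Real.log ((q ^ (t + 1) - 1 : ℕ) : ℝ) ^ 2 :=
    pow_le_pow_left₀ (by positivity) h6 2
  rw [le_div_iff₀ (lt_of_lt_of_le (by positivity) h9)] at h5
  push_cast
  have h10 := mul_le_mul_of_nonneg_left h9
    (abs_nonneg (∑ n ∈ Icc 1 (q ^ (t + 1) - 1), (lam n : ℝ)))
  have h11 := mul_le_mul_of_nonneg_left h8 hC0.le
  nlinarith

theorem pow_row (hLIO : LIO_s) : POW_s := by
  intro q K hq
  by_contra hn
  push Not at hn
  obtain ⟨C, hC0, hC⟩ := pow_lio hLIO q hq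
  have hq2 : (2 : ℝ) ≤ q := by exact_mod_cast hq.two_le
  have hsq : ∀ k : ℕ, (k : ℝ) ^ 2 ≤ 2 * (q : ℝ) ^ k := fun k => by
    have h1 : ((k ^ 2 : ℕ) : ℝ) ≤ ((2 * 2 ^ k : ℕ) : ℝ) := by exact_mod_cast pow_sq k
    have h2 : (2 : ℝ) ^ k ≤ (q : ℝ) ^ k := pow_le_pow_left₀ (by norm_num) hq2 k
    push_cast at h1
    linarith
  have hne : ∀ k, NeZero (q ^ k) := fun k => ⟨(pow_pos hq.pos k).ne'⟩
  have hbad : ∀ m, 0 < m → ∃ B : ℝ, 0 ≤ B ∧ ∀ k, 2 ≤ k →
      ((@bad (q ^ k) (hne k) m : ℝ) + m) * (k : ℝ) ^ 2 ≤ B * (q : ℝ) ^ k := by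
    intro m hm
    obtain ⟨G, hG⟩ := pow_gdir m
    refine ⟨G * (C + 2 * (2 * K + 1)) + 2 * m, by positivity, fun k hk => ?_⟩
    have := hne k
    obtain ⟨e, e', he, he', hlt⟩ := hn k
    obtain ⟨i, hi⟩ := pow_odd (q ^ k) e e' he he'
    have h1 : (bad (q ^ k) m : ℝ) ≤ G * (od (q ^ k) + 1) := by exact_mod_cast hG m hm le_rfl i (q ^ k)
    have h2 : (od (q ^ k) : ℝ) ≤ ((|∑ n ∈ Icc 1 (q ^ k - 1), lam n| : ℤ) : ℝ) + 2 * K := by
      have : (od (q ^ k) : ℤ) ≤ |∑ n ∈ Icc 1 (q ^ k - 1), lam n| + 2 * K := by omega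
      exact_mod_cast this
    have h3 := hC k hk
    have h4 := hsq k
    have h5 : ((od (q ^ k) : ℝ) + 1) * (k : ℝ) ^ 2 ≤ (C + 2 * (2 * K + 1)) * (q : ℝ) ^ k := by
      have h6 := mul_le_mul_of_nonneg_right h2 (sq_nonneg (k : ℝ))
      have h7 := mul_le_mul_of_nonneg_left h4 (by positivity : (0 : ℝ) ≤ 2 * K + 1)
      nlinarith
    have h8 := mul_le_mul_of_nonneg_right h1 (sq_nonneg (k : ℝ))
    have h9 := mul_le_mul_of_nonneg_left h5 (Nat.cast_nonneg (α := ℝ) G)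
    have h10 := mul_le_mul_of_nonneg_left h4 (Nat.cast_nonneg (α := ℝ) m)
    nlinarith
  obtain ⟨B, hB0, hB⟩ := hbad q hq.pos
  obtain ⟨j₀, hj₀⟩ := exists_nat_ge (8 * B)
  obtain ⟨j, hj2, hjB⟩ : ∃ j : ℕ, 2 ≤ j ∧ 8 * B ≤ j :=
    ⟨j₀ + 2, by omega, by push_cast; linarith⟩
  have hj0 : (0 : ℝ) < j := by exact_mod_cast (by omega : 0 < j)
  have hD : ∀ k, j ≤ k → (powD q j k : ℝ) ≤ B * (q : ℝ) ^ k * (1 / j - 1 / k) := by
    intro k hk
    induction k, hk using Nat.le_induction with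
    | base =>
      have : powD q j j = 0 := by
        unfold powD
        rw [card_eq_zero, filter_eq_empty_iff]
        intro a ha
        rw [Nat.mod_eq_of_lt (mem_range.1 ha)]
        simp
      simp [this]
    | succ k hk ih =>
      have := hne (k + 1)
      have h1 : (powD q j (k + 1) : ℝ) ≤ bad (q ^ (k + 1)) q + q + q * powD q j k := by
        exact_mod_cast pow_step q j k hq hk
      have h2 := hB (k + 1) (by omega)
      have hk0 : (0 : ℝ) < k := by exact_mod_cast (by omega : 0 < k)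
      push_cast at h2 ⊢
      rw [← le_div_iff₀ (by positivity)] at h2
      have h3 : B * (q : ℝ) ^ (k + 1) / ((k : ℝ) + 1) ^ 2 ≤
          B * (q : ℝ) ^ (k + 1) * (1 / k - 1 / (k + 1)) := by
        rw [div_eq_mul_one_div]
        refine mul_le_mul_of_nonneg_left ?_ (by positivity)
        rw [div_sub_div _ _ hk0.ne' (by positivity), div_le_div_iff₀ (by positivity) (by positivity)]
        nlinarith
      have h4 := mul_le_mul_of_nonneg_left ih (by positivity : (0 : ℝ) ≤ q)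
      have h5 : B * (q : ℝ) ^ (k + 1) * (1 / j - 1 / (k + 1)) =
          B * (q : ℝ) ^ (k + 1) * (1 / k - 1 / (k + 1)) +
            q * (B * (q : ℝ) ^ k * (1 / j - 1 / k)) := by ring
      linarith
  obtain ⟨r, hr, hqr, hr1⟩ := Nat.exists_prime_gt_modEq_one (k := q ^ j) q (hne j).ne
  obtain ⟨B', hB'0, hB'⟩ := hbad r hr.pos
  obtain ⟨k₀, hk₀⟩ := exists_nat_ge (4 * B')
  obtain ⟨k, hjk, hkB⟩ : ∃ k : ℕ, j ≤ k ∧ 4 * B' ≤ k :=
    ⟨k₀ + j, by omega, by push_cast; linarith⟩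
  have := hne k
  have h1 : ((q : ℝ)) ^ k ≤ bad (q ^ k) r + 1 + 2 * powD q j k := by
    exact_mod_cast pow_end q j k r hq hjk hr hqr hr1
  have h2 := hB' k (by omega)
  have h3 := hD k hjk
  have hk1 : (1 : ℝ) ≤ k := by exact_mod_cast (by omega : 1 ≤ k)
  have hQ : (0 : ℝ) < (q : ℝ) ^ k := by positivity
  have h4 : B * (q : ℝ) ^ k * (1 / j - 1 / k) ≤ (q : ℝ) ^ k / 8 := by
    have h5 : (1 : ℝ) / j - 1 / k ≤ 1 / j := by
      have : (0 : ℝ) ≤ 1 / k := by positivity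
      linarith
    have h6 : B * (1 / j) ≤ 1 / 8 := by
      rw [mul_one_div, div_le_iff₀ hj0]; linarith
    have h7 := mul_le_mul_of_nonneg_left h5 (by positivity : 0 ≤ B * (q : ℝ) ^ k)
    nlinarith
  have hr1' : (1 : ℝ) ≤ r := by exact_mod_cast hr.one_le
  have h8 : (bad (q ^ k) r : ℝ) + r ≤ (q : ℝ) ^ k / 4 := by
    by_contra hlt
    push Not at hlt
    have h9 := mul_lt_mul_of_pos_right hlt (by positivity : (0 : ℝ) < (k : ℝ) ^ 2)
    have h10 : B' * (q : ℝ) ^ k ≤ (k : ℝ) ^ 2 / 4 * (q : ℝ) ^ k :=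
      mul_le_mul_of_nonneg_right (by nlinarith) hQ.le
    nlinarith
  linarith

end Pool.Agent.G60
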