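import Pool.Agent.MP_b5e119_nt.G60.Defs

namespace Pool.Agent.G60

open Finset Filter Topology

theorem pri3_fib (hC : CHEB_s) (p : ℕ) [Fact p.Prime] (e e' : ℤ) :
    ∑ c ∈ SS p, #{m ∈ Icc 1 ((p - 1) / c) | lam (c * m) = e ∧ lam (p - c * m) = e'} ≤
      Nat.log 2 p * cnt p e e' := by
  rw [← card_sigma]
  refine card_le_mul_card_image_of_maps_to (f := fun z : (Σ _ : ℕ, ℕ) => z.1 * z.2)
    (fun z hz => ?_) _ fun u hu => ?_
  · obtain ⟨h1, h2⟩ := mem_sigma.1 hz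
    obtain ⟨h3, h4⟩ := mem_filter.1 h2
    obtain ⟨h5, h6⟩ := mem_Icc.1 h3
    have hc := (mem_filter.1 h1).2.1.pos
    refine mem_filter.2 ⟨mem_Icc.2 ⟨Nat.mul_pos hc h5, ?_⟩, h4⟩
    rw [mul_comm]
    exact (Nat.le_div_iff_mul_le hc).1 h6
  · obtain ⟨b1, b2⟩ := mem_Icc.1 (mem_filter.1 hu).1
    refine le_trans ?_ ((hC.2.2 u b1).trans (Nat.log_mono_right (by omega)))
    refine card_le_card_of_injOn (fun z => z.1) (fun z hz => ?_) fun z hz z' hz' h => ?_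
    · obtain ⟨b3, b4⟩ := mem_filter.1 (mem_coe.1 hz)
      exact mem_coe.2 (mem_filter.2 ⟨Nat.mem_divisors.2 ⟨b4 ▸ Dvd.intro _ rfl, by omega⟩,
        (mem_filter.1 (mem_sigma.1 b3).1).2.1⟩)
    · obtain ⟨b3, b4⟩ := mem_filter.1 (mem_coe.1 hz)
      obtain ⟨b5, b6⟩ := mem_filter.1 (mem_coe.1 hz')
      obtain ⟨c, m⟩ := z
      obtain ⟨c', m'⟩ := z'
      have hc := (mem_filter.1 (mem_sigma.1 b3).1).2.1.pos
      simp only at h b4 b6 hc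
      subst h
      rw [Nat.eq_of_mul_eq_mul_left hc (b4.trans b6.symm)]

theorem pri3_log (ε : ℝ) (hε : 0 < ε) :
    ∀ᶠ p : ℕ in atTop, 512 * (Nat.log 2 p : ℝ) ^ 3 ≤ (p : ℝ) ^ (ε / 2) := by
  have ev : ∀ᶠ p : ℕ in atTop, 4096 / (ε / 12) ^ 3 ≤ (p : ℝ) ^ (ε / 4) :=
    ((tendsto_rpow_atTop (by positivity)).comp tendsto_natCast_atTop_atTop).eventually_ge_atTop _
  filter_upwards [ev, eventually_ge_atTop 1] with p h1 hp
  have hp0 : (0 : ℝ) < p := by exact_mod_cast hp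
  have a1 : ((2 : ℝ)) ^ Nat.log 2 p ≤ p := by
    exact_mod_cast Nat.pow_log_le_self 2 (by omega : p ≠ 0)
  have a2 := Real.log_le_log (by positivity) a1
  rw [Real.log_pow] at a2
  have a3 := Real.log_two_gt_d9
  have a4 : (0 : ℝ) ≤ Nat.log 2 p := Nat.cast_nonneg _
  have a5 : Real.log p ≤ (p : ℝ) ^ (ε / 12) / (ε / 12) :=
    Real.log_le_rpow_div hp0.le (by positivity)
  have a6 : (Nat.log 2 p : ℝ) ≤ 2 * ((p : ℝ) ^ (ε / 12) / (ε / 12)) := by nlinarith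
  have a7 : ((p : ℝ) ^ (ε / 12)) ^ 3 = (p : ℝ) ^ (ε / 4) := by
    rw [← Real.rpow_natCast, ← Real.rpow_mul hp0.le]
    congr 1
    push_cast
    ring
  have a8 : (p : ℝ) ^ (ε / 2) = (p : ℝ) ^ (ε / 4) * (p : ℝ) ^ (ε / 4) := by
    rw [← Real.rpow_add hp0]
    congr 1
    ring
  calc 512 * (Nat.log 2 p : ℝ) ^ 3 ≤ 512 * (2 * ((p : ℝ) ^ (ε / 12) / (ε / 12))) ^ 3 := by gcongr
    _ = 4096 / (ε / 12) ^ 3 * ((p : ℝ) ^ (ε / 12)) ^ 3 := by ring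
    _ ≤ (p : ℝ) ^ (ε / 4) * (p : ℝ) ^ (ε / 4) := by rw [a7]; gcongr
    _ = _ := a8.symm

variable [Sg]

theorem pri3_row (hC : CHEB_s) (hO : ODS3_s) (hS : STR_s) (hT : TWO_s) (hL : SPL_s) (hM : MANY_s)
    (hF : FIN3_s) : PRI3_s := by
  intro ε hε
  obtain ⟨B, p₁, hS⟩ := hS 6
  obtain ⟨p₂, hO⟩ := hO (B + 1) ε hε
  obtain ⟨p₃, hL⟩ := hL
  obtain ⟨p₄, hM⟩ := hM (ε / 2) (by positivity)
  obtain ⟨p₅, hF⟩ := hF
  obtain ⟨p₆, h6⟩ := eventually_atTop.1 (pri3_log ε hε)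
  refine ⟨p₁ + p₂ + p₃ + p₄ + p₅ + p₆ + 256, fun p pp hp e he => ?_⟩
  have : Fact p.Prime := ⟨pp⟩
  by_contra hno
  rw [not_le] at hno
  have hl : 8 ≤ Nat.log 2 p := Nat.le_log_of_pow_le Nat.one_lt_two (by omega)
  have h1 := hO p (by omega) e he hno.le
  have hpw : ∀ a b : ℕ, a ≤ b → Nat.log 2 p ^ a ≤ Nat.log 2 p ^ b := fun a b h =>
    Nat.pow_le_pow_right (by omega) h
  obtain ⟨σ, hσ, hE, hm⟩ := hS p (by omega)
    ((Nat.mul_le_mul_left _ (hpw _ _ (Nat.le_succ B))).trans h1)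
  have h8 : ∀ a : ℕ, 1 ≤ a → 8 ≤ Nat.log 2 p ^ a := fun a h =>
    hl.trans ((pow_one _).ge.trans (hpw 1 a h))
  have o8 : od p * 8 ≤ p := (Nat.mul_le_mul_left _ (h8 _ (by omega))).trans h1
  have e8 : Ex p σ * 8 ≤ p := (Nat.mul_le_mul_left _ (h8 _ (by omega))).trans hE
  have h2 := hT p σ (by omega) hσ (by omega)
  have hp0 : (0 : ℝ) < p := by exact_mod_cast pp.pos
  have key : ∀ c ∈ SS p, (p : ℝ) * (1 / (c : ℝ)) ≤ 512 * (Nat.log 2 p : ℝ) ^ 2 *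
      (#{m ∈ Icc 1 ((p - 1) / c) | lam (c * m) = e ∧ lam (p - c * m) = -Sg.s * e} : ℕ) := by
    intro c hc
    obtain ⟨-, c1, -, c3⟩ := mem_filter.1 hc
    have c4 : c ^ 3 ≤ p := le_trans (Nat.le_mul_of_pos_left _ (by omega)) c3
    have c5 := hF p (by omega) σ e Sg.s c hσ he hc (hL p (by omega) σ hσ h2 hE c c1 c4) hm
      ((Nat.mul_le_mul_left _ (hpw 5 6 (by omega))).trans hE)
    have c0 : (0 : ℝ) < c := by exact_mod_cast c1.pos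
    rw [mul_one_div, div_le_iff₀ c0, mul_right_comm]
    exact_mod_cast c5
  have s1 := sum_le_sum key
  rw [← mul_sum, ← mul_sum, ← Nat.cast_sum] at s1
  have s2 : ((∑ c ∈ SS p, #{m ∈ Icc 1 ((p - 1) / c) |
      lam (c * m) = e ∧ lam (p - c * m) = -Sg.s * e} : ℕ) : ℝ) ≤
      (Nat.log 2 p : ℝ) * cnt p e (-Sg.s * e) := by exact_mod_cast pri3_fib hC p e (-Sg.s * e)
  have s3 := hM p (by omega)
  have s4 := h6 p (by omega)
  have l0 : (0 : ℝ) < Nat.log 2 p := by exact_mod_cast (by omega : 0 < Nat.log 2 p)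
  have s5 : (p : ℝ) * (p : ℝ) ^ (-(ε / 2)) = (p : ℝ) ^ (ε / 2) * (p : ℝ) ^ (1 - ε) := by
    rw [← Real.rpow_add hp0, mul_comm, ← Real.rpow_add_one hp0.ne']
    congr 1
    ring
  have s6 : (p : ℝ) ^ (ε / 2) * (p : ℝ) ^ (1 - ε) <
      512 * (Nat.log 2 p : ℝ) ^ 3 * (p : ℝ) ^ (1 - ε) := by
    calc _ = (p : ℝ) * (p : ℝ) ^ (-(ε / 2)) := s5.symm
      _ ≤ (p : ℝ) * ∑ c ∈ SS p, 1 / (c : ℝ) := by gcongr
      _ ≤ 512 * (Nat.log 2 p : ℝ) ^ 2 * ((Nat.log 2 p : ℝ) * cnt p e (-Sg.s * e)) :=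
        s1.trans (by gcongr)
      _ = 512 * (Nat.log 2 p : ℝ) ^ 3 * cnt p e (-Sg.s * e) := by ring
      _ < _ := by gcongr
  exact absurd (lt_of_mul_lt_mul_right s6 (by positivity)) (not_lt.2 s4)

end Pool.Agent.G60
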