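import Pool.Agent.MP_b5e119_nt.G60.Defs

namespace Pool.Agent.G60

open Finset

theorem spl_count (hC : CHEB_s) (p : ℕ) (Q A E : Finset ℕ) (hQ : ∀ q ∈ Q, q.Prime)
    (hE : ∀ u ∈ E, 0 < u ∧ u ≤ p) (h : ∀ q ∈ Q, ∀ n ∈ A, q * n ∈ E) :
    #Q * #A ≤ Nat.log 2 p * #E := by
  rw [← card_product]
  refine card_le_mul_card_image_of_maps_to (f := fun z : ℕ × ℕ => z.1 * z.2) ?_ _ ?_
  · intro z hz
    rw [mem_product] at hz
    exact h _ hz.1 _ hz.2
  · intro u hu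
    obtain ⟨h0, h1⟩ := hE u hu
    refine le_trans ?_ ((hC.2.2 u h0).trans (Nat.log_mono_right h1))
    refine card_le_card_of_injOn (fun z => z.1) ?_ ?_
    · intro z hz
      simp only [coe_filter, mem_product, Set.mem_ofPred_eq] at hz
      simp only [coe_filter, Nat.mem_divisors, Set.mem_ofPred_eq]
      exact ⟨⟨⟨z.2, hz.2.symm⟩, h0.ne'⟩, hQ _ hz.1.1⟩
    · intro z hz w hw hzw
      simp only [coe_filter, mem_product, Set.mem_ofPred_eq] at hz hw
      have h2 : z.1 = w.1 := hzw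
      have h3 : z.1 * z.2 = z.1 * w.2 := by rw [hz.2, h2, hw.2]
      exact Prod.ext h2 (Nat.eq_of_mul_eq_mul_left (hQ _ hz.1.1).pos h3)

theorem spl_leg (p : ℕ) [Fact p.Prime] (n : ℕ) (h0 : 0 < n) (h1 : n < p) :
    leg p n = 1 ∨ leg p n = -1 := by
  unfold leg
  apply legendreSym.eq_one_or_neg_one
  rw [Int.cast_natCast, Ne, ZMod.natCast_eq_zero_iff]
  exact Nat.not_dvd_of_pos_of_lt h0 h1

theorem spl_fin (l p y X e a t : ℕ) (hp : 0 < p) (hX : p ≤ 2 * (y * X)) (ha : X ≤ 2 * a)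
    (h1 : t * a ≤ l * e) (h2 : e * l ^ 6 ≤ p) : t * l ^ 5 ≤ 4 * y := by
  have h3 : t * p ≤ 4 * y * (l * e) := by
    calc t * p ≤ t * (2 * (y * (2 * a))) :=
          Nat.mul_le_mul_left _ (hX.trans (Nat.mul_le_mul_left _ (Nat.mul_le_mul_left _ ha)))
      _ = 4 * y * (t * a) := by ring
      _ ≤ 4 * y * (l * e) := Nat.mul_le_mul_left _ h1
  have h4 : t * l ^ 5 * p ≤ 4 * y * p := by
    calc t * l ^ 5 * p = t * p * l ^ 5 := by ring
      _ ≤ 4 * y * (l * e) * l ^ 5 := Nat.mul_le_mul_right _ h3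
      _ = 4 * y * (e * l ^ 6) := by ring
      _ ≤ 4 * y * p := Nat.mul_le_mul_left _ h2
  exact Nat.le_of_mul_le_mul_right h4 hp

theorem spl_dich (hC : CHEB_s) (p : ℕ) [Fact p.Prime] (σ : ℤ) (_hσ : σ = 1 ∨ σ = -1)
    (hE : Ex p σ * Nat.log 2 p ^ 6 ≤ p) (y : ℕ) (hy : 2 ≤ y) (hyp : y ^ 3 ≤ p) :
    #{q ∈ range (y + 1) | q.Prime ∧ leg p q = -1} * Nat.log 2 p ^ 5 ≤ 4 * y ∨
      #{q ∈ range (y + 1) | q.Prime ∧ leg p q = 1} * Nat.log 2 p ^ 5 ≤ 4 * y := by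
  have hp : 0 < p := (Fact.out : p.Prime).pos
  have h4 : 4 * y ≤ p := by
    refine le_trans ?_ hyp
    have : 4 ≤ y * y := by nlinarith
    calc 4 * y ≤ y * y * y := Nat.mul_le_mul_right _ this
      _ = y ^ 3 := by ring
  obtain ⟨X, hX⟩ : ∃ X, X = (p - 1) / y := ⟨_, rfl⟩
  have hX1 : y * X ≤ p - 1 := by rw [hX]; exact Nat.mul_div_le _ _
  have hX2 : p ≤ 2 * (y * X) := by
    have h5 := Nat.div_add_mod (p - 1) y
    have h6 := Nat.mod_lt (p - 1) (show 0 < y by omega)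
    rw [← hX] at h5
    omega
  have hEE : ∀ u ∈ ({n ∈ Ico 1 p | lam n ≠ σ * leg p n} : Finset ℕ), 0 < u ∧ u ≤ p := by
    intro u hu
    simp only [mem_filter, mem_Ico] at hu
    omega
  have hqn : ∀ q n : ℕ, q.Prime → q < y + 1 → n ∈ Icc 1 X → q * n ∈ Ico 1 p := by
    intro q n hq hqy hn
    rw [mem_Icc] at hn
    rw [mem_Ico]
    have h7 : q * n ≤ y * X := Nat.mul_le_mul (by omega) hn.2
    have h8 : 0 < q * n := Nat.mul_pos hq.pos hn.1
    omega
  have hsum := card_filter_add_card_filter_not (s := Icc 1 X)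
    (fun n => lam n ≠ σ * leg p n)
  rw [Nat.card_Icc] at hsum
  rcases le_total (#{n ∈ Icc 1 X | lam n ≠ σ * leg p n})
    (#{n ∈ Icc 1 X | ¬ lam n ≠ σ * leg p n}) with h | h
  · right
    refine spl_fin _ p y X (Ex p σ) (#{n ∈ Icc 1 X | ¬ lam n ≠ σ * leg p n}) _ hp hX2
      (by omega) ?_ hE
    refine spl_count hC p _ _ _ (fun q hq => (mem_filter.1 hq).2.1) hEE ?_
    intro q hq n hn
    simp only [mem_filter, mem_range] at hq
    rw [mem_filter] at hn ⊢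
    refine ⟨hqn q n hq.2.1 hq.1 hn.1, ?_⟩
    have hn0 : n ≠ 0 := by have := (mem_Icc.1 hn.1).1; omega
    rw [lam_mul hq.2.1.ne_zero hn0, lam_prime hq.2.1, leg_mul, hq.2.2, one_mul,
      ← not_not.1 hn.2]
    rcases lam_cases n with h9 | h9 <;> rw [h9] <;> norm_num
  · left
    refine spl_fin _ p y X (Ex p σ) (#{n ∈ Icc 1 X | lam n ≠ σ * leg p n}) _ hp hX2
      (by omega) ?_ hE
    refine spl_count hC p _ _ _ (fun q hq => (mem_filter.1 hq).2.1) hEE ?_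
    intro q hq n hn
    simp only [mem_filter, mem_range] at hq
    rw [mem_filter] at hn ⊢
    refine ⟨hqn q n hq.2.1 hq.1 hn.1, ?_⟩
    have hn0 : n ≠ 0 := by have := (mem_Icc.1 hn.1).1; omega
    rw [lam_mul hq.2.1.ne_zero hn0, lam_prime hq.2.1, leg_mul, hq.2.2]
    intro h9
    apply hn.2
    linarith

theorem spl_pi (hC : CHEB_s) (p : ℕ) [Fact p.Prime] (y : ℕ) (hy : 2 ≤ y) (hyp : y < p) :
    y ≤ 4 * Nat.log 2 p * (#{q ∈ range (y + 1) | q.Prime ∧ leg p q = -1} +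
      #{q ∈ range (y + 1) | q.Prime ∧ leg p q = 1}) := by
  refine (hC.1 y hy).trans (Nat.mul_le_mul
    (Nat.mul_le_mul_left _ (Nat.log_mono_right hyp.le)) ?_)
  refine le_trans (card_le_card ?_) (card_union_le _ _)
  intro q hq
  simp only [mem_filter, mem_range, mem_union] at hq ⊢
  rcases spl_leg p q hq.2.pos (by omega) with h | h
  · exact Or.inr ⟨hq.1, hq.2, h⟩
  · exact Or.inl ⟨hq.1, hq.2, h⟩

theorem spl_lt (y p : ℕ) (hy : 2 ≤ y) (hyp : y ^ 3 ≤ p) : y < p := by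
  refine lt_of_lt_of_le ?_ hyp
  calc y = y ^ 1 := (pow_one y).symm
    _ < y ^ 3 := Nat.pow_lt_pow_right (by omega) (by norm_num)

theorem spl_ind (hC : CHEB_s) (p : ℕ) [Fact p.Prime] (σ : ℤ) (hσ : σ = 1 ∨ σ = -1)
    (h2 : leg p 2 = -1) (hl : 3 ≤ Nat.log 2 p)
    (hE : Ex p σ * Nat.log 2 p ^ 6 ≤ p) (y : ℕ) (hy : 2 ≤ y) : y ^ 3 ≤ p →
    #{q ∈ range (y + 1) | q.Prime ∧ leg p q = 1} * Nat.log 2 p ^ 5 ≤ 4 * y := by
  have hl4 : 81 ≤ Nat.log 2 p ^ 4 := by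
    calc 81 = 3 ^ 4 := by norm_num
      _ ≤ _ := Nat.pow_le_pow_left hl 4
  induction y, hy using Nat.le_induction with
  | base =>
    intro hyp
    rcases spl_dich hC p σ hσ hE 2 le_rfl hyp with h | h
    · exfalso
      have h3 : 1 ≤ #{q ∈ range (2 + 1) | q.Prime ∧ leg p q = -1} :=
        card_pos.2 ⟨2, mem_filter.2 ⟨by simp, Nat.prime_two, h2⟩⟩
      have h4 : 3 ^ 5 ≤ Nat.log 2 p ^ 5 := Nat.pow_le_pow_left hl 5
      have h5 := Nat.mul_le_mul h3 h4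
      omega
    · exact h
  | succ y hy ih =>
    intro hyp
    have hyp' : y ^ 3 ≤ p := (Nat.pow_le_pow_left (Nat.le_succ y) 3).trans hyp
    have ih' := ih hyp'
    rcases spl_dich hC p σ hσ hE (y + 1) (by omega) hyp with h | h
    · exfalso
      have h3 : #{q ∈ range (y + 1) | q.Prime ∧ leg p q = -1} ≤
          #{q ∈ range (y + 1 + 1) | q.Prime ∧ leg p q = -1} :=
        card_le_card (filter_subset_filter _ (range_subset_range.2 (by omega)))
      have h4 := spl_pi hC p y hy (spl_lt y p hy hyp')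
      have h5 := (Nat.mul_le_mul_right (Nat.log 2 p ^ 5) h3).trans h
      generalize #{q ∈ range (y + 1) | q.Prime ∧ leg p q = -1} = a at h4 h5
      generalize #{q ∈ range (y + 1) | q.Prime ∧ leg p q = 1} = b at h4 ih'
      generalize Nat.log 2 p = l at h4 h5 ih' hl4
      have h6 : y * l ^ 4 ≤ 4 * (a * l ^ 5) + 4 * (b * l ^ 5) := by
        calc y * l ^ 4 ≤ 4 * l * (a + b) * l ^ 4 := Nat.mul_le_mul_right _ h4
          _ = _ := by ring
      have h7 : y * 81 ≤ y * l ^ 4 := Nat.mul_le_mul_left _ hl4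
      omega
    · exact h

theorem spl_row (hC : CHEB_s) : SPL_s := by
  refine ⟨8, ?_⟩
  intro p _ hp σ hσ h2 hE c hc hcp
  have hl : 3 ≤ Nat.log 2 p := by
    calc 3 = Nat.log 2 8 := by norm_num
      _ ≤ _ := Nat.log_mono_right hp
  have hl4 : 81 ≤ Nat.log 2 p ^ 4 := by
    calc 81 = 3 ^ 4 := by norm_num
      _ ≤ _ := Nat.pow_le_pow_left hl 4
  have h3 := spl_ind hC p σ hσ h2 hl hE c hc.two_le hcp
  have h4 := spl_pi hC p c hc.two_le (spl_lt c p hc.two_le hcp)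
  have h5 : #{q ∈ range (c + 1) | q.Prime ∧ leg p q = -1} ≤ #(KK p c) := by
    unfold KK
    rw [card_insert_of_notMem (by simp [Nat.not_prime_one])]
    refine le_trans (card_le_card ?_) (card_insert_le c _)
    intro q hq
    simp only [mem_filter, mem_range, mem_insert] at hq ⊢
    rcases Nat.lt_succ_iff_lt_or_eq.1 hq.1 with h | h
    · exact Or.inr ⟨h, hq.2⟩
    · exact Or.inl h
  generalize #{q ∈ range (c + 1) | q.Prime ∧ leg p q = -1} = a at h4 h5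
  generalize #{q ∈ range (c + 1) | q.Prime ∧ leg p q = 1} = b at h4 h3
  generalize #(KK p c) = k at h5
  generalize Nat.log 2 p = l at h4 h3 hl4
  have h6 : 81 * (l * b) ≤ 4 * c := by
    calc 81 * (l * b) ≤ l ^ 4 * (l * b) := Nat.mul_le_mul_right _ hl4
      _ = b * l ^ 5 := by ring
      _ ≤ _ := h3
  have h7 : l * a ≤ l * k := Nat.mul_le_mul_left _ h5
  have h8 : 4 * l * (a + b) = 4 * (l * a) + 4 * (l * b) := by ring
  have h9 : 8 * l * k = 8 * (l * k) := by ring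
  omega

end Pool.Agent.G60
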