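import Pool.Agent.MP_b5e119_nt.G60.Defs

namespace Pool.Agent.G60

open Finset

theorem st2_E (l C : ℕ) (h : C ^ 4 ≤ l) : ∃ E : ℕ, C ≤ E ∧ E ^ 4 ≤ l ∧ l ≤ (E + 1) ^ 4 := by
  refine ⟨Nat.sqrt (Nat.sqrt l), ?_, ?_, ?_⟩
  · rw [Nat.le_sqrt', Nat.le_sqrt']
    calc (C ^ 2) ^ 2 = C ^ 4 := by ring
      _ ≤ l := h
  · have h1 := Nat.sqrt_le' (Nat.sqrt l)
    have h2 := Nat.sqrt_le' l
    calc Nat.sqrt (Nat.sqrt l) ^ 4 = (Nat.sqrt (Nat.sqrt l) ^ 2) ^ 2 := by ring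
      _ ≤ Nat.sqrt l ^ 2 := Nat.pow_le_pow_left h1 2
      _ ≤ l := h2
  · have h1 : Nat.sqrt l + 1 ≤ (Nat.sqrt (Nat.sqrt l) + 1) ^ 2 := Nat.lt_succ_sqrt' (Nat.sqrt l)
    have h2 : l < (Nat.sqrt l + 1) ^ 2 := Nat.lt_succ_sqrt' l
    calc l ≤ (Nat.sqrt l + 1) ^ 2 := h2.le
      _ ≤ ((Nat.sqrt (Nat.sqrt l) + 1) ^ 2) ^ 2 := Nat.pow_le_pow_left h1 2
      _ = _ := by ring

theorem st2_row [Sg] (hSUB : SUB_s) (hTR : TR_s) (hDIR : DIR_s) (hFEJ : FEJ_s) (hSMO : SMO_s) :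
    ST2_s := by
  intro A K
  obtain ⟨k, hk⟩ : ∃ k, k = 8 * (A + 2 * K) + 3 := ⟨_, rfl⟩
  obtain ⟨y, hy⟩ := hSMO k
  obtain ⟨c1, hc1⟩ : ∃ c, c = 1 + 8 * K + 8 * (y * k * K) := ⟨_, rfl⟩
  obtain ⟨c2, hc2⟩ : ∃ c, c = 16 * (K * k * 3 ^ y) + 2 := ⟨_, rfl⟩
  refine ⟨k + 3 + A, 2 ^ ((c1 + 2 * c2 + y + 2) ^ 4), fun p hp h0 hod m hm hmK => ?_⟩
  have hpp : p.Prime := hp.out
  obtain ⟨hb1, -, hlist⟩ := hSUB p
  rcases Nat.lt_or_ge m 2 with hm2 | hm2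
  · obtain rfl : m = 1 := by omega
    rw [hb1]; simp
  have hl0 : (c1 + 2 * c2 + y + 2) ^ 4 ≤ Nat.log 2 p := Nat.le_log_of_pow_le (by norm_num) h0
  have hlp : 2 ^ Nat.log 2 p ≤ p := Nat.pow_log_le_self 2 hpp.pos.ne'
  generalize Nat.log 2 p = l at *
  obtain ⟨E, hE, hE4, hlE⟩ := st2_E l _ hl0
  obtain ⟨T, hT, hTl⟩ := hy E
  have hE2 : 2 ≤ E := by omega
  have hEE : E ≤ E ^ 2 := by nlinarith
  have hEl : E ≤ l := le_trans (Nat.le_self_pow (by norm_num) E) hE4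
  have hlpos : 0 < l := by omega
  have hyp : y < p := by
    have := Nat.lt_two_pow_self (n := l)
    omega
  obtain ⟨w, hw⟩ : ∃ w, w = 8 * K * E := ⟨_, rfl⟩
  have hl2 : l ≤ 2 ^ (4 * E) := by
    have h1 : E + 1 ≤ 2 ^ E := Nat.lt_two_pow_self
    calc l ≤ (E + 1) ^ 4 := hlE
      _ ≤ (2 ^ E) ^ 4 := Nat.pow_le_pow_left h1 4
      _ = _ := by ring
  have hmm : m ^ 2 ≤ l ^ (2 * K) := by
    calc m ^ 2 ≤ (l ^ K) ^ 2 := Nat.pow_le_pow_left hmK 2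
      _ = _ := by ring
  have hmw : m ^ 2 ≤ 2 ^ w := by
    calc m ^ 2 ≤ l ^ (2 * K) := hmm
      _ ≤ (2 ^ (4 * E)) ^ (2 * K) := Nat.pow_le_pow_left hl2 _
      _ = _ := by rw [hw, ← pow_mul]; congr 1; ring
  have hexp : 1 + w + y * (k * E) * w < l := by
    have h1 : 1 + w + y * (k * E) * w ≤ c1 * E ^ 2 := by
      have h2 : 1 ≤ E ^ 2 := by omega
      have h3 : K * E ≤ K * E ^ 2 := Nat.mul_le_mul_left K hEE
      have h4 : y * (k * E) * w = 8 * (y * k * K) * E ^ 2 := by rw [hw]; ring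
      have h5 : c1 * E ^ 2 = E ^ 2 + 8 * (K * E ^ 2) + 8 * (y * k * K) * E ^ 2 := by rw [hc1]; ring
      have h6 : w = 8 * (K * E) := by rw [hw]; ring
      omega
    have h2 : c1 * E ^ 2 < E ^ 2 * E ^ 2 := Nat.mul_lt_mul_of_pos_right (by omega) (by omega)
    have h3 : E ^ 2 * E ^ 2 = E ^ 4 := by ring
    omega
  have hx : ∀ x, 0 < x → x ≤ y → ¬p ∣ x ∧ bad p x ≤ 3 ^ y * od p := by
    intro x h1 h2
    refine ⟨fun h => by have := Nat.le_of_dvd h1 h; omega, ?_⟩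
    have h3 := hDIR p x h1 (by omega)
    have h4 : 3 ^ (x - 1) * od p ≤ 3 ^ y * od p :=
      Nat.mul_le_mul_right _ (Nat.pow_le_pow_right (by norm_num) (by omega))
    omega
  have ht : ∀ t ∈ T, (0 < t ∧ 2 * m ^ 2 * t ^ w < p) ∧ ¬p ∣ t ^ w ∧
      bad p (t ^ w) ≤ w * (k * E * (3 ^ y * od p)) := by
    intro t htT
    obtain ⟨L, rfl, hlen, hL⟩ := hTl t htT
    have hnd : ¬p ∣ L.prod := fun h => by
      obtain ⟨x, hxL, hd⟩ := (Prime.dvd_prod_iff hpp.prime).1 h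
      exact (hx x (hL x hxL).1 (hL x hxL).2).1 hd
    have hle : L.prod ≤ 2 ^ (y * (k * E)) := by
      calc L.prod ≤ (2 ^ y) ^ L.length := List.prod_le_pow_card L _ fun x hxL =>
            (hL x hxL).2.trans Nat.lt_two_pow_self.le
        _ ≤ (2 ^ y) ^ (k * E) := Nat.pow_le_pow_right (by positivity) hlen
        _ = _ := by rw [← pow_mul]
    have hb : bad p L.prod ≤ k * E * (3 ^ y * od p) :=
      (hlist L _ fun x hxL => hx x (hL x hxL).1 (hL x hxL).2).trans (Nat.mul_le_mul_right _ hlen)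
    refine ⟨⟨Nat.pos_of_ne_zero fun h => hnd (by rw [h]; exact dvd_zero _), ?_⟩,
      fun h => hnd (hpp.dvd_of_dvd_pow h), ?_⟩
    · calc 2 * m ^ 2 * L.prod ^ w ≤ 2 * 2 ^ w * (2 ^ (y * (k * E))) ^ w :=
            Nat.mul_le_mul (Nat.mul_le_mul_left 2 hmw) (Nat.pow_le_pow_left hle w)
        _ = 2 ^ (1 + w + y * (k * E) * w) := by rw [← pow_mul]; ring
        _ < 2 ^ l := Nat.pow_lt_pow_right (by norm_num) hexp
        _ ≤ p := hlp
    · have := hlist (List.replicate w L.prod) (k * E * (3 ^ y * od p)) fun x hxr => by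
        rw [List.eq_of_mem_replicate hxr]; exact ⟨hnd, hb⟩
      rwa [List.prod_replicate, List.length_replicate] at this
  have hmp : ¬p ∣ m := fun h => by
    have h1 := Nat.le_of_dvd hm h
    have h2 : m ≤ m ^ 2 := Nat.le_self_pow (by norm_num) m
    have h3 : 2 ^ w < 2 ^ l := Nat.pow_lt_pow_right (by norm_num) (by omega)
    omega
  have hF := hFEJ p m w T hm2 hmw fun t htT => (ht t htT).1
  have hR := hTR p m (T.image (· ^ w)) hmp fun s hs => by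
    obtain ⟨t, htT, rfl⟩ := mem_image.1 hs
    exact (ht t htT).2.1
  have hS : ∑ s ∈ T.image (· ^ w), (2 * bad p s + 2 * od p) ≤ E ^ k * (c2 * E ^ 2 * od p) := by
    have h1 : ∀ s ∈ T.image (· ^ w), 2 * bad p s + 2 * od p ≤ c2 * E ^ 2 * od p := by
      intro s hs
      obtain ⟨t, htT, rfl⟩ := mem_image.1 hs
      have h2 := (ht t htT).2.2
      have h3 : c2 * E ^ 2 * od p = 2 * (w * (k * E * (3 ^ y * od p))) + 2 * (E ^ 2 * od p) := by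
        rw [hc2, hw]; ring
      have h4 : od p ≤ E ^ 2 * od p := Nat.le_mul_of_pos_left _ (by omega)
      omega
    calc _ ≤ #(T.image (· ^ w)) • (c2 * E ^ 2 * od p) := sum_le_card_nsmul _ _ _ h1
      _ ≤ E ^ k * (c2 * E ^ 2 * od p) := by
        rw [smul_eq_mul]; exact Nat.mul_le_mul_right _ (card_image_le.trans hT.le)
  rw [hT] at hF
  generalize far p m (T.image (· ^ w)) = Z at hF hR
  generalize ∑ s ∈ T.image (· ^ w), (2 * bad p s + 2 * od p) = Y at hR hS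
  have hl8 : l ≤ E ^ 8 := by
    have h1 : E + 1 ≤ E ^ 2 := by nlinarith
    calc l ≤ (E + 1) ^ 4 := hlE
      _ ≤ (E ^ 2) ^ 4 := Nat.pow_le_pow_left h1 4
      _ = _ := by ring
  have hZ : Z * (2 * l ^ A) ≤ p := by
    have h1 : 2 * l ^ A * (4 * l ^ (2 * K)) ≤ E ^ k := by
      calc 2 * l ^ A * (4 * l ^ (2 * K)) = 2 ^ 3 * l ^ (A + 2 * K) := by ring
        _ ≤ E ^ 3 * (E ^ 8) ^ (A + 2 * K) :=
          Nat.mul_le_mul (Nat.pow_le_pow_left hE2 3) (Nat.pow_le_pow_left hl8 _)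
        _ = E ^ k := by rw [hk, ← pow_mul, ← pow_add, add_comm]
    apply Nat.le_of_mul_le_mul_right _ (show 0 < 4 * l ^ (2 * K) by positivity)
    calc Z * (2 * l ^ A) * (4 * l ^ (2 * K)) = Z * (2 * l ^ A * (4 * l ^ (2 * K))) := by ring
      _ ≤ Z * E ^ k := Nat.mul_le_mul_left _ h1
      _ ≤ 4 * m ^ 2 * p := hF
      _ ≤ 4 * l ^ (2 * K) * p := Nat.mul_le_mul_right _ (Nat.mul_le_mul_left _ hmm)
      _ = _ := by ring
  have hY : Y * (2 * l ^ A) ≤ p := by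
    calc Y * (2 * l ^ A) ≤ E ^ k * (c2 * E ^ 2 * od p) * (2 * l ^ A) := Nat.mul_le_mul_right _ hS
      _ = od p * (E ^ (k + 2) * (2 * c2) * l ^ A) := by ring
      _ ≤ od p * (l ^ (k + 2) * l * l ^ A) := Nat.mul_le_mul_left _ (Nat.mul_le_mul_right _
          (Nat.mul_le_mul (Nat.pow_le_pow_left hEl _) (by omega)))
      _ = od p * l ^ (k + 3 + A) := by ring
      _ ≤ p := hod
  have h1 : bad p m * (2 * l ^ A) ≤ (Z + Y) * (2 * l ^ A) := Nat.mul_le_mul_right _ hR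
  have h2 : bad p m * (2 * l ^ A) = 2 * (bad p m * l ^ A) := by ring
  rw [add_mul] at h1
  omega

end Pool.Agent.G60
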