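import Pool.Agent.MP_b5e119_nt.G60.Defs

namespace Pool.Agent.G60

open Finset Filter Topology

theorem str_leg (p : ℕ) [Fact p.Prime] (n : ℕ) :
    leg p n = quadraticChar (ZMod p) (n : ZMod p) := by
  simp [leg, legendreSym]

theorem str_ex (p : ℕ) [Fact p.Prime] (σ : ℤ) :
    Ex p σ = #{a : ZMod p | ff p a ≠ σ * quadraticChar (ZMod p) a} := by
  unfold Ex
  refine card_nbij' (fun n => (n : ZMod p)) (fun a => a.val) ?_ ?_ ?_ ?_
  · intro n hn
    simp only [coe_filter, mem_Ico, Set.mem_ofPred_eq, mem_univ, true_and] at hn ⊢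
    obtain ⟨⟨h1, h2⟩, h3⟩ := hn
    have h0 : (n : ZMod p) ≠ 0 := by
      rw [Ne, ZMod.natCast_eq_zero_iff]
      exact Nat.not_dvd_of_pos_of_lt h1 h2
    rw [ff, if_neg h0, ZMod.val_cast_of_lt h2, ← str_leg]
    exact h3
  · intro a ha
    simp only [coe_filter, mem_Ico, Set.mem_ofPred_eq, mem_univ, true_and] at ha ⊢
    have h0 : a ≠ 0 := by
      rintro rfl
      simp [ff] at ha
    rw [ff, if_neg h0] at ha
    refine ⟨⟨Nat.pos_of_ne_zero fun h => h0 ((ZMod.val_eq_zero a).1 h), ZMod.val_lt a⟩, ?_⟩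
    rw [str_leg, ZMod.natCast_zmod_val]
    exact ha
  · intro n hn
    simp only [coe_filter, mem_Ico, Set.mem_ofPred_eq] at hn
    exact ZMod.val_cast_of_lt hn.1.2
  · intro a _
    exact ZMod.natCast_zmod_val a

theorem str_ff (p : ℕ) [Fact p.Prime] (a : ZMod p) (h : a ≠ 0) : ff p a = 1 ∨ ff p a = -1 := by
  rw [ff, if_neg h]; exact lam_cases _

theorem str_sum (p : ℕ) [Fact p.Prime] (σ : ℤ) (hσ : σ = 1 ∨ σ = -1) :
    σ * ∑ a : ZMod p, ff p a * quadraticChar (ZMod p) a = (p : ℤ) - 1 - 2 * Ex p σ := by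
  have h : ∀ a : ZMod p, σ * (ff p a * quadraticChar (ZMod p) a) =
      1 - (if a = 0 then 1 else 0) -
        2 * (if ff p a ≠ σ * quadraticChar (ZMod p) a then 1 else 0) := by
    intro a
    by_cases h0 : a = 0
    · subst h0; simp [ff]
    · rcases str_ff p a h0 with h1 | h1 <;> rcases quadraticChar_dichotomy h0 with h2 | h2 <;>
        rcases hσ with h3 | h3 <;> simp [h0, h1, h2, h3]
  rw [mul_sum, sum_congr rfl fun a _ => h a, sum_sub_distrib, sum_sub_distrib, ← mul_sum,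
    sum_boole, sum_boole, ← str_ex]
  simp [ZMod.card, filter_eq']

theorem str_even [Sg] (p : ℕ) [Fact p.Prime] (σ : ℤ) (hσ : σ = 1 ∨ σ = -1)
    (h1 : quadraticChar (ZMod p) (-1) = -Sg.s) :
    σ * ∑ a : ZMod p, ff p a * quadraticChar (ZMod p) a ≤ od p := by
  have hneg : ∀ a : ZMod p, quadraticChar (ZMod p) (-a) = -Sg.s * quadraticChar (ZMod p) a := by
    intro a
    rw [neg_eq_neg_one_mul, map_mul, h1]
  have e : ∑ a : ZMod p, ff p a * quadraticChar (ZMod p) a =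
      ∑ a : ZMod p, ff p (-a) * (-Sg.s * quadraticChar (ZMod p) a) := by
    rw [← Equiv.sum_comp (Equiv.neg (ZMod p))]
    exact sum_congr rfl fun a _ => by rw [Equiv.neg_apply, hneg]
  have h : ∀ a : ZMod p, σ * (ff p a * quadraticChar (ZMod p) a) +
      σ * (ff p (-a) * (-Sg.s * quadraticChar (ZMod p) a)) ≤
        2 * (if ff p (-a) ≠ Sg.s * ff p a then 1 else 0) := by
    intro a
    by_cases h0 : a = 0
    · subst h0; simp [ff]
    · rcases str_ff p a h0 with h1 | h1 <;> rcases quadraticChar_dichotomy h0 with h2 | h2 <;>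
        rcases hσ with h3 | h3 <;> rcases str_ff p (-a) (neg_ne_zero.2 h0) with h4 | h4 <;>
        rcases Sg.hs with h5 | h5 <;> simp [h1, h2, h3, h4, h5]
  have hs := sum_le_sum fun a (_ : a ∈ (univ : Finset (ZMod p))) => h a
  rw [sum_add_distrib, ← mul_sum, ← mul_sum, ← mul_sum, ← e, sum_boole] at hs
  unfold od
  linarith

theorem str_mu (p : ℕ) [Fact p.Prime] (χ₀ : Ch p)
    (h : ∀ n : ℕ, χ₀ (n : ZMod p) = (leg p n : ℂ)) :
    mu p χ₀ = (((∑ a : ZMod p, ff p a * quadraticChar (ZMod p) a : ℤ) : ℝ) / ((p : ℝ) - 1)) ^ 2 := by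
  have h' : ∀ a : ZMod p, χ₀ a = ((quadraticChar (ZMod p) a : ℤ) : ℂ) := by
    intro a
    have := h a.val
    rwa [str_leg, ZMod.natCast_zmod_val] at this
  have e : co p (fun a => (ff p a : ℂ)) χ₀ =
      ((((∑ a : ZMod p, ff p a * quadraticChar (ZMod p) a : ℤ) : ℝ) / ((p : ℝ) - 1) : ℝ) : ℂ) := by
    unfold co
    simp only [h', map_intCast]
    push_cast
    rfl
  rw [mu, e, Complex.norm_real, Real.norm_eq_abs, sq_abs]

theorem str_row [Sg] (hCON : CON_s) (hUNIQ : UNIQ_s) : STR_s := by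
  intro A
  obtain ⟨B, p₁, h1⟩ := hCON (A + 1)
  refine ⟨B + 1, p₁ + 2 ^ 4, fun p _ hp hod => ?_⟩
  have hl : 4 ≤ Nat.log 2 p := Nat.le_log_of_pow_le (by norm_num) (by omega)
  have hp2 : 2 < p := by omega
  obtain ⟨χ₀, -, -, hleg, hu⟩ := hUNIQ p hp2
  have hB : 1 ≤ Nat.log 2 p ^ B := Nat.one_le_pow _ _ (by omega)
  have hA : 1 ≤ Nat.log 2 p ^ A := Nat.one_le_pow _ _ (by omega)
  have hod1 : od p * Nat.log 2 p ^ B ≤ p :=
    le_trans (Nat.mul_le_mul_left _ (Nat.pow_le_pow_right (by omega) (by omega))) hod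
  have hod4 : od p * 4 ≤ p := by
    refine le_trans (Nat.mul_le_mul_left _ ?_) hod
    rw [pow_succ]
    nlinarith
  have hc := h1 p (by omega) hod1 χ₀ hu
  rw [str_mu p χ₀ hleg] at hc
  set S : ℤ := ∑ a : ZMod p, ff p a * quadraticChar (ZMod p) a with hS
  obtain ⟨σ, hσ, hσS⟩ : ∃ σ : ℤ, (σ = 1 ∨ σ = -1) ∧ 0 ≤ σ * S := by
    rcases le_total 0 S with h | h
    · exact ⟨1, Or.inl rfl, by linarith⟩
    · exact ⟨-1, Or.inr rfl, by linarith⟩
  have hsum := str_sum p σ hσ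
  rw [← hS] at hsum
  have hp1 : (0 : ℝ) < (p : ℝ) - 1 := by
    have : (2 : ℝ) < p := by exact_mod_cast hp2
    linarith
  have hEx : 2 * Ex p σ * Nat.log 2 p ^ (A + 1) ≤ p := by
    set t : ℝ := ((σ * S : ℤ) : ℝ) / ((p : ℝ) - 1) with ht
    have ht2 : ((S : ℝ) / ((p : ℝ) - 1)) ^ 2 = t ^ 2 := by
      rw [ht]
      rcases hσ with h | h <;> rw [h] <;> push_cast <;> ring
    have ht0 : 0 ≤ t := div_nonneg (by exact_mod_cast hσS) hp1.le
    have hte : (2 * Ex p σ : ℝ) = ((p : ℝ) - 1) * (1 - t) := by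
      rw [ht, hsum]; push_cast; field_simp; ring
    have ht1 : 0 ≤ 1 - t := by
      have : 0 ≤ ((p : ℝ) - 1) * (1 - t) := by rw [← hte]; positivity
      exact nonneg_of_mul_nonneg_right this hp1
    rw [ht2] at hc
    have hL : (0 : ℝ) ≤ (Nat.log 2 p : ℝ) ^ (A + 1) := by positivity
    have a1 : (1 - t) * (Nat.log 2 p : ℝ) ^ (A + 1) ≤ 1 :=
      le_trans (mul_le_mul_of_nonneg_right (by nlinarith) hL) hc
    have a2 : (2 * Ex p σ : ℝ) * (Nat.log 2 p : ℝ) ^ (A + 1) ≤ p := by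
      rw [hte, mul_assoc]
      nlinarith
    exact_mod_cast a2
  have hEx1 : Ex p σ * Nat.log 2 p ^ A ≤ p := by
    refine le_trans ?_ hEx
    rw [pow_succ]
    nlinarith [Nat.zero_le (Ex p σ * Nat.log 2 p ^ A)]
  have hEx4 : 2 * Ex p σ * 4 ≤ p := by
    refine le_trans (Nat.mul_le_mul_left _ ?_) hEx
    rw [pow_succ]
    nlinarith
  refine ⟨σ, hσ, hEx1, ?_⟩
  have hm : ((p - 1 : ℕ) : ZMod p) = -1 := by
    rw [Nat.cast_sub (by omega)]; simp
  rw [str_leg, hm]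
  by_contra hne
  have h : quadraticChar (ZMod p) (-1) = -Sg.s := by
    rcases quadraticChar_dichotomy (neg_ne_zero.2 (one_ne_zero : (1 : ZMod p) ≠ 0)) with h | h <;>
      rcases Sg.hs with h5 | h5 <;> rw [h, h5] at hne <;> rw [h, h5] <;> simp at hne ⊢
  have := str_even p σ hσ h
  rw [← hS, hsum] at this
  omega

end Pool.Agent.G60
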