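import Pool.Agent.MP_b5e119_nt.G60.Defs

namespace Pool.Agent.G60

open Finset

theorem top3_prime (hP : ∀ i : Sg, @PRI3_s i) (ε : ℝ) (hε : 0 < ε) : ∃ p₀ : ℕ, ∀ p : ℕ, p.Prime →
    p₀ ≤ p → ∀ e e' : ℤ, (e = 1 ∨ e = -1) → (e' = 1 ∨ e' = -1) →
      (p : ℝ) ^ (1 - ε) ≤ cnt p e e' := by
  obtain ⟨p₁, h1⟩ := hP ⟨1, Or.inl rfl⟩ ε hε
  obtain ⟨p₂, h2⟩ := hP ⟨-1, Or.inr rfl⟩ ε hε
  refine ⟨max p₁ p₂, fun p hp h e e' he he' => ?_⟩
  have h3 : (p : ℝ) ^ (1 - ε) ≤ cnt p e (-1 * e) := h1 p hp (le_of_max_le_left h) e he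
  have h4 : (p : ℝ) ^ (1 - ε) ≤ cnt p e (- -1 * e) := h2 p hp (le_of_max_le_right h) e he
  rcases (by omega : e' = -1 * e ∨ e' = - -1 * e) with rfl | rfl
  · exact h3
  · exact h4

theorem top3_lift (hM : MON_s) {M N : ℕ} (h : M ∣ N) (hN : N ≠ 0) {x : ℝ}
    (hx : ∀ e e' : ℤ, (e = 1 ∨ e = -1) → (e' = 1 ∨ e' = -1) → x ≤ cnt M e e') (e e' : ℤ)
    (he : e = 1 ∨ e = -1) (he' : e' = 1 ∨ e' = -1) : x ≤ cnt N e e' := by
  obtain ⟨d, rfl⟩ := h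
  have h1 := hM M d (lam d * e) (lam d * e') (Nat.pos_of_ne_zero (right_ne_zero_of_mul hN))
  have h2 : ∀ t, lam d * (lam d * t) = t := fun t => by
    rcases lam_cases d with h | h <;> rw [h] <;> ring
  rw [h2, h2] at h1
  refine (hx _ _ ?_ ?_).trans (Nat.cast_le.2 h1) <;> rcases lam_cases d with h | h <;> rw [h] <;>
    omega

theorem top3_row (hP : ∀ i : Sg, @PRI3_s i) (hM : MON_s) (hW : POW_s) : TOP3_s := by
  intro ε hε
  obtain ⟨p₀, h0⟩ := top3_prime hP ε hε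
  obtain ⟨p₁, h1⟩ := top3_prime hP (1 / 2) one_half_pos
  choose! k hk using fun q => hW q p₀
  refine ⟨∏ q ∈ range (p₁ + p₀ ^ 2) with q.Prime, q ^ k q + 1, fun N p hN hp hpN => ?_⟩
  have hN0 : N ≠ 0 := by omega
  by_cases h : p₀ ≤ p
  · exact top3_lift hM hpN hN0 (h0 p hp h)
  have h2 : (p : ℝ) ^ (1 - ε) ≤ p₀ := by
    have h3 : (1 : ℝ) ≤ p := by exact_mod_cast hp.one_le
    have h4 := Real.rpow_le_rpow_of_exponent_le h3 (show 1 - ε ≤ 1 by linarith)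
    rw [Real.rpow_one] at h4
    exact h4.trans (Nat.cast_le.2 (not_le.1 h).le)
  by_cases h3 : ∃ q, q.Prime ∧ q ∣ N ∧ p₁ + p₀ ^ 2 ≤ q
  · obtain ⟨q, hq, hqN, h4⟩ := h3
    refine top3_lift hM hqN hN0 fun e e' he he' => h2.trans (le_trans ?_
      (h1 q hq (le_of_add_le_left h4) e e' he he'))
    rw [show (1 : ℝ) - 1 / 2 = 1 / 2 by norm_num, ← Real.sqrt_eq_rpow]
    exact Real.le_sqrt_of_sq_le (by exact_mod_cast le_of_add_le_right h4)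
  by_cases h4 : ∃ q, q.Prime ∧ q ^ k q ∣ N
  · obtain ⟨q, hq, hqN⟩ := h4
    exact top3_lift hM hqN hN0 fun e e' he he' => h2.trans (Nat.cast_le.2 (hk q hq e e' he he'))
  refine absurd hN (not_le.2 (Nat.lt_succ_of_le ?_))
  calc N = ∏ q ∈ N.primeFactors, q ^ N.factorization q :=
        (Nat.prod_factorization_pow_eq_self hN0).symm
    _ ≤ ∏ q ∈ N.primeFactors, q ^ k q := prod_le_prod' fun q hq => by
        have hq' := Nat.prime_of_mem_primeFactors hq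
        refine Nat.pow_le_pow_right hq'.pos (not_lt.1 fun h5 => h4 ⟨q, hq', ?_⟩)
        exact (hq'.pow_dvd_iff_le_factorization hN0).2 h5.le
    _ ≤ _ := prod_le_prod_of_subset_of_one_le' (fun q hq => mem_filter.2 ⟨mem_range.2 (not_le.1
        fun h5 => h3 ⟨q, Nat.prime_of_mem_primeFactors hq, Nat.dvd_of_mem_primeFactors hq, h5⟩),
          Nat.prime_of_mem_primeFactors hq⟩) fun q hq _ =>
        Nat.one_le_pow _ _ (mem_filter.1 hq).2.pos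

end Pool.Agent.G60
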