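import Pool.Agent.MP_b5e119_nt.G60.Defs

namespace Pool.Agent.G60

variable [Sg]

open Finset

omit [Sg] in
theorem two_leg (p : ℕ) [Fact p.Prime] (n : ℕ) :
    leg p n = quadraticChar (ZMod p) (n : ZMod p) := by
  simp [leg, legendreSym]

omit [Sg] in
theorem two_card (p : ℕ) [Fact p.Prime] (σ : ℤ) :
    #{a : ZMod p | a ≠ 0 ∧ ff p a ≠ σ * quadraticChar (ZMod p) a} ≤ Ex p σ := by
  unfold Ex
  refine card_le_card_of_injOn ZMod.val (fun a ha => ?_) (ZMod.val_injective p).injOn
  simp only [coe_filter, mem_univ, true_and, Set.mem_ofPred_eq] at ha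
  simp only [coe_filter, mem_Ico, Set.mem_ofPred_eq]
  refine ⟨⟨ZMod.val_pos.2 ha.1, ZMod.val_lt a⟩, ?_⟩
  have h := ha.2
  rw [ff, if_neg ha.1] at h
  rwa [two_leg, ZMod.natCast_zmod_val]

theorem two_row (hDIR : DIR_s) : TWO_s := by
  intro p hp σ h2 hσ hlt
  by_contra hc
  have h20 : ((2 : ℕ) : ZMod p) ≠ 0 := by
    rw [Ne, ZMod.natCast_eq_zero_iff]
    exact Nat.not_dvd_of_pos_of_lt (by omega) h2
  have h1 : quadraticChar (ZMod p) ((2 : ℕ) : ZMod p) = 1 :=
    (quadraticChar_dichotomy h20).resolve_right (by rwa [two_leg] at hc)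
  have hb := hDIR p 2 (by omega) h2
  have hE := two_card p σ
  set E : Finset (ZMod p) := {a : ZMod p | a ≠ 0 ∧ ff p a ≠ σ * quadraticChar (ZMod p) a} with hEd
  have hE2 : #{a : ZMod p | ((2 : ℕ) : ZMod p) * a ∈ E} ≤ #E :=
    card_le_card_of_injOn (fun a => ((2 : ℕ) : ZMod p) * a) (fun a ha => by simpa using ha)
      (mul_right_injective₀ h20).injOn
  have hsub : (univ : Finset (ZMod p)) ⊆ insert 0
      (univ.filter (fun a : ZMod p => ff p (((2 : ℕ) : ZMod p) * a) ≠ lam 2 * ff p a) ∪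
        (E ∪ univ.filter fun a : ZMod p => ((2 : ℕ) : ZMod p) * a ∈ E)) := by
    intro a _
    by_contra hn
    simp only [hEd, mem_insert, mem_union, mem_filter, mem_univ, true_and, not_or, not_and,
      not_not] at hn
    obtain ⟨ha, hn1, hn2, hn3⟩ := hn
    have h3 := hn2 ha
    have h4 := hn3 (mul_ne_zero h20 ha)
    rw [map_mul, h1, one_mul, hn1, lam_prime Nat.prime_two, h3] at h4
    rcases quadraticChar_dichotomy ha with h | h <;> rcases hσ with h' | h' <;>
      rw [h, h'] at h4 <;> omega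
  have hc1 := (card_le_card hsub).trans ((card_insert_le _ _).trans
    (Nat.add_le_add_right ((card_union_le _ _).trans
      (Nat.add_le_add_left (card_union_le _ _) _)) 1))
  rw [card_univ, ZMod.card] at hc1
  unfold bad at hb
  omega

end Pool.Agent.G60
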