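import Pool.Agent.MP_b5e119_nt.G60.Defs

namespace Pool.Agent.G60

open Finset

theorem uniq_gen (p : ℕ) [Fact p.Prime] (g : (ZMod p)ˣ) (hg : ∀ x, x ∈ Subgroup.zpowers g)
    (χ : Ch p) (h2 : χ ^ 2 = 1) (h1 : χ ≠ 1) : χ (g : ZMod p) = -1 := by
  have h : χ (g : ZMod p) ^ 2 = 1 := by
    rw [← MulChar.pow_apply_coe, h2, MulChar.one_apply_coe]
  rcases sq_eq_one_iff.1 h with h | h
  · exact absurd ((MulChar.eq_iff hg χ 1).2 (by rw [h, MulChar.one_apply_coe])) h1
  · exact h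

theorem uniq_row : UNIQ_s := by
  intro p hp h2
  have hr : ringChar (ZMod p) ≠ 2 := by
    rw [ZMod.ringChar_zmod_n]
    omega
  have hne : (quadraticChar (ZMod p)).ringHomComp (Int.castRingHom ℂ) ≠ 1 :=
    (MulChar.ringHomComp_ne_one_iff (RingHom.injective_int _)).2 (quadraticChar_ne_one hr)
  have hsq : (quadraticChar (ZMod p)).ringHomComp (Int.castRingHom ℂ) ^ 2 = 1 :=
    ((quadraticChar_isQuadratic (ZMod p)).comp _).sq_eq_one
  refine ⟨(quadraticChar (ZMod p)).ringHomComp (Int.castRingHom ℂ), hne, hsq, fun n => ?_,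
    fun χ h h' => ?_⟩
  · simp [leg, legendreSym]
  · obtain ⟨g, hg⟩ := IsCyclic.exists_generator (α := (ZMod p)ˣ)
    exact (MulChar.eq_iff hg _ _).2 ((uniq_gen p g hg χ h h').trans
      (uniq_gen p g hg _ hsq hne).symm)

end Pool.Agent.G60
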