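import Pool.Agent.MP_b5e119_nt.G60.Defs

namespace Pool.Agent.G60

open Finset

theorem vin1_pos {j : ℕ} (hj : 1 ≤ j) : (0 : ℝ) < #(PP j) := by
  have h : 2 ∈ PP j := by
    refine mem_filter.2 ⟨mem_range.2 ?_, Nat.prime_two⟩
    have := Nat.pow_le_pow_right (show 0 < 2 by norm_num) hj
    omega
  exact_mod_cast card_pos.2 ⟨2, h⟩

theorem vin1_card (j : ℕ) : (#(PP j) : ℝ) ≤ 2 ^ j := by
  have h : PP j ⊆ Icc 1 (2 ^ j) := fun q hq => by
    have h1 := mem_filter.1 hq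
    have h2 := mem_range.1 h1.1
    exact mem_Icc.2 ⟨h1.2.one_le, by omega⟩
  have h2 := card_le_card h
  rw [Nat.card_Icc, Nat.add_sub_cancel] at h2
  exact_mod_cast h2

theorem vin1_am {x t : ℝ} (ht : 0 < t) : x ≤ (t * x ^ 2 + 1 / t) / 2 := by
  have h : 0 ≤ (t * x - 1) ^ 2 / t := by positivity
  have e : (t * x - 1) ^ 2 / t = t * x ^ 2 + 1 / t - 2 * x := by field_simp; ring
  linarith

theorem vin1_step (g : ℕ → ℂ) (A B : Finset ℕ) (hA : (0 : ℝ) < #A) (hB : (0 : ℝ) < #B) {t : ℝ}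
    (ht : 0 < t) : (∑ q ∈ B, ‖g q + 1‖) / #B ≤ (∑ q ∈ A, ‖g q + 1‖) / #A +
      (t * ((∑ q ∈ A, ∑ q' ∈ B, ‖g q - g q'‖ ^ 2) / ((#A : ℝ) * #B)) + 1 / t) / 2 := by
  have h1 : ∑ q ∈ A, ∑ q' ∈ B, ‖g q' + 1‖ ≤
      ∑ q ∈ A, ∑ q' ∈ B, (‖g q + 1‖ + (t / 2 * ‖g q - g q'‖ ^ 2 + 1 / t / 2)) := by
    refine sum_le_sum fun q _ => sum_le_sum fun q' _ => ?_
    have e : g q' + 1 = (g q + 1) - (g q - g q') := by ring
    have h2 := norm_sub_le (g q + 1) (g q - g q')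
    have h3 := vin1_am (x := ‖g q - g q'‖) ht
    rw [e]
    linarith
  simp only [sum_add_distrib, sum_const, nsmul_eq_mul, ← mul_sum] at h1
  rw [div_le_iff₀ hB]
  refine le_of_mul_le_mul_left (h1.trans (le_of_eq ?_)) hA
  field_simp

theorem vin1_succ {p : ℕ} (χ : Ch p) {j : ℕ} (hj : 1 ≤ j) : VV p χ (j + 1) = VV p χ j +
    (∑ q ∈ PP j, ∑ q' ∈ PP (j + 1), ‖χ (q : ZMod p) - χ (q' : ZMod p)‖ ^ 2) /
      ((#(PP j) : ℝ) * #(PP (j + 1))) := by
  unfold VV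
  rw [sum_Ico_succ_top hj, add_assoc]

theorem vin1_mono {p : ℕ} (χ : Ch p) {j J : ℕ} (h : j ≤ J) : VV p χ j ≤ VV p χ J := by
  unfold VV
  refine add_le_add le_rfl (sum_le_sum_of_subset_of_nonneg (Ico_subset_Ico_right h) ?_)
  intro i _ _
  positivity

theorem vin1_chain {p : ℕ} (χ : Ch p) {t : ℝ} (ht : 0 < t) (j : ℕ) :
    (∑ q ∈ PP (j + 1), ‖χ (q : ZMod p) + 1‖) / #(PP (j + 1)) ≤
      (t * VV p χ (j + 1) + (j + 1) / t) / 2 := by
  induction j with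
  | zero =>
    have e : PP 1 = {2} := by decide
    have h := vin1_am (x := ‖χ ((2 : ℕ) : ZMod p) + 1‖) ht
    simp only [zero_add, e, VV, sum_singleton, card_singleton, Ico_self, sum_empty, Nat.cast_one,
      div_one, add_zero, Nat.cast_zero]
    exact h
  | succ j ih =>
    have h := vin1_step (fun q => χ (q : ZMod p)) (PP (j + 1)) (PP (j + 1 + 1))
      (vin1_pos (by omega)) (vin1_pos (by omega)) ht
    rw [vin1_succ χ (show 1 ≤ j + 1 by omega)]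
    refine h.trans ((add_le_add ih le_rfl).trans (le_of_eq ?_))
    push_cast
    ring

theorem vin1_dyad (w : ℕ → ℝ) (hw : ∀ q, 0 ≤ w q) (J : ℕ) :
    ∑ q ∈ PP J, w q / q ≤ ∑ j ∈ range J, (∑ q ∈ PP (j + 1), w q) / 2 ^ j := by
  induction J with
  | zero =>
    have e : PP 0 = ∅ := by decide
    simp [e]
  | succ J ih =>
    have hs : PP J ⊆ PP (J + 1) := fun q hq => by
      have h1 := mem_filter.1 hq
      have h2 := mem_range.1 h1.1
      refine mem_filter.2 ⟨mem_range.2 ?_, h1.2⟩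
      rw [pow_succ]
      omega
    rw [sum_range_succ, ← sum_sdiff hs, add_comm]
    refine add_le_add ih ?_
    rw [sum_div]
    refine (sum_le_sum fun q hq => ?_).trans
      (sum_le_sum_of_subset_of_nonneg sdiff_subset fun q _ _ => div_nonneg (hw q) (by positivity))
    have h1 := Finset.mem_sdiff.1 hq
    have h2 : 2 ^ J ≤ q := by
      by_contra h3
      exact h1.2 (mem_filter.2 ⟨mem_range.2 (by omega), (mem_filter.1 h1.1).2⟩)
    have h3 : (2 : ℝ) ^ J ≤ q := by exact_mod_cast h2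
    exact div_le_div_of_nonneg_left (hw q) (by positivity) h3

theorem vin1_row : VIN1_s := by
  intro p _ χ J hl _ hJ hV
  obtain ⟨L, hL⟩ : ∃ L : ℝ, L = (Nat.log 2 p : ℝ) := ⟨_, rfl⟩
  rw [← hL] at hV ⊢
  have h1 : (1 : ℝ) ≤ L := by rw [hL]; exact_mod_cast hl
  have h0 : (0 : ℝ) < L := by linarith
  have hJ' : (J : ℝ) ≤ L := by rw [hL]; exact_mod_cast hJ
  have key : ∀ j ∈ range J,
      (∑ q ∈ PP (j + 1), ‖χ (q : ZMod p) + 1‖) / 2 ^ j ≤ 2 / L ^ 2 := by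
    intro j hj
    have hj1 : j + 1 ≤ J := mem_range.1 hj
    have hj2 : (j : ℝ) + 1 ≤ L := le_trans (by exact_mod_cast hj1) hJ'
    have h2 := vin1_chain χ (show (0 : ℝ) < L ^ 3 by positivity) j
    have h3 : L ^ 3 * VV p χ (j + 1) ≤ 1 / L ^ 2 := by
      rw [le_div_iff₀ (by positivity)]
      have h4 := mul_le_mul_of_nonneg_right (vin1_mono χ hj1) (show (0 : ℝ) ≤ L ^ 5 by positivity)
      calc L ^ 3 * VV p χ (j + 1) * L ^ 2 = VV p χ (j + 1) * L ^ 5 := by ring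
        _ ≤ 1 := h4.trans hV
    have h4 : ((j : ℝ) + 1) / L ^ 3 ≤ 1 / L ^ 2 := by
      rw [div_le_div_iff₀ (by positivity) (by positivity)]
      have h5 := mul_le_mul_of_nonneg_right hj2 (show (0 : ℝ) ≤ L ^ 2 by positivity)
      calc ((j : ℝ) + 1) * L ^ 2 ≤ L * L ^ 2 := h5
        _ = 1 * L ^ 3 := by ring
    have h5 : (∑ q ∈ PP (j + 1), ‖χ (q : ZMod p) + 1‖) / #(PP (j + 1)) ≤ 1 / L ^ 2 := by linarith
    rw [div_le_iff₀ (vin1_pos (by omega))] at h5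
    have h6 := mul_le_mul_of_nonneg_left (vin1_card (j + 1))
      (show (0 : ℝ) ≤ 1 / L ^ 2 by positivity)
    rw [div_le_iff₀ (by positivity)]
    refine (h5.trans h6).trans (le_of_eq ?_)
    ring
  refine (vin1_dyad (fun q => ‖χ (q : ZMod p) + 1‖) (fun _ => norm_nonneg _) J).trans
    ((sum_le_sum key).trans ?_)
  rw [sum_const, card_range, nsmul_eq_mul]
  calc (J : ℝ) * (2 / L ^ 2) ≤ L * (2 / L ^ 2) := mul_le_mul_of_nonneg_right hJ' (by positivity)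
    _ = 2 / L := by field_simp
    _ ≤ 8 / L := div_le_div_of_nonneg_right (by norm_num) h0.le

end Pool.Agent.G60
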