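import Pool.Agent.MP_b5e119_nt.G60.Defs

namespace Pool.Agent.G60

open Finset

theorem vin2_mul {a b : ℂ} (ha : ‖a‖ ≤ 1) : ‖a * b - 1‖ ≤ ‖a - 1‖ + ‖b - 1‖ := by
  have e : a * b - 1 = (a - 1) + a * (b - 1) := by ring
  rw [e]
  refine (norm_add_le _ _).trans ?_
  rw [norm_mul]
  have := mul_le_mul_of_nonneg_right ha (norm_nonneg (b - 1))
  linarith

theorem vin2_pt {p : ℕ} (ψ : Ch p) (Q : Finset ℕ) (n : ℕ) (hn : n ≠ 0)
    (hQ : ∀ q, q.Prime → q ∣ n → q ∈ Q) :
    ‖ψ (n : ZMod p) - 1‖ ≤ ∑ q ∈ Q, (n.factorization q : ℝ) * ‖ψ (q : ZMod p) - 1‖ := by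
  induction n using Nat.recOnMul with
  | zero => exact absurd rfl hn
  | one => simp
  | prime q hq =>
    have h1 : q ∈ Q := hQ q hq dvd_rfl
    have h2 := single_le_sum (f := fun r : ℕ => (q.factorization r : ℝ) * ‖ψ (r : ZMod p) - 1‖)
      (fun r _ => mul_nonneg (Nat.cast_nonneg _) (norm_nonneg _)) h1
    simp only [hq.factorization_self, Nat.cast_one, one_mul] at h2
    exact h2
  | mul a b iha ihb =>
    have ha : a ≠ 0 := left_ne_zero_of_mul hn
    have hb : b ≠ 0 := right_ne_zero_of_mul hn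
    have h1 := iha ha fun q hq h => hQ q hq (h.mul_right b)
    have h2 := ihb hb fun q hq h => hQ q hq (h.mul_left a)
    rw [Nat.cast_mul, map_mul]
    refine (vin2_mul (ψ.norm_le_one _)).trans ((add_le_add h1 h2).trans (le_of_eq ?_))
    rw [← sum_add_distrib]
    refine sum_congr rfl fun q _ => ?_
    rw [Nat.factorization_mul ha hb, Finsupp.add_apply, Nat.cast_add, add_mul]

theorem vin2_fac (q Y : ℕ) : ∑ n ∈ Icc 1 Y, n.factorization q = (Y.factorial).factorization q := by
  induction Y with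
  | zero => simp
  | succ Y ih =>
    rw [sum_Icc_succ_top (by omega), ih, Nat.factorial_succ,
      Nat.factorization_mul (by omega) (Nat.factorial_ne_zero Y), Finsupp.add_apply, add_comm]

theorem vin2_le {q : ℕ} (hq : q.Prime) (Y : ℕ) :
    ((Y.factorial).factorization q : ℝ) ≤ 2 * Y / q := by
  have : Fact q.Prime := ⟨hq⟩
  have h1 := sub_one_mul_padicValNat_factorial (p := q) Y
  rw [← Nat.factorization_def _ hq] at h1
  have h2 := hq.two_le
  have h3 : (q - 1) * (Y.factorial).factorization q ≤ Y := by omega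
  have h4 : q * (Y.factorial).factorization q ≤ 2 * Y := by
    have h5 : q ≤ 2 * (q - 1) := by omega
    calc q * (Y.factorial).factorization q ≤ 2 * (q - 1) * (Y.factorial).factorization q :=
          Nat.mul_le_mul_right _ h5
      _ = 2 * ((q - 1) * (Y.factorial).factorization q) := by ring
      _ ≤ 2 * Y := Nat.mul_le_mul_left _ h3
  have h0 : (0 : ℝ) < q := by exact_mod_cast hq.pos
  rw [le_div_iff₀ h0, mul_comm]
  exact_mod_cast h4

theorem vin2_row : VIN2_s := by
  intro p _ ψ Y _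
  calc ∑ n ∈ Icc 1 Y, ‖ψ (n : ZMod p) - 1‖
      ≤ ∑ n ∈ Icc 1 Y, ∑ q ∈ Icc 1 Y with q.Prime,
          (n.factorization q : ℝ) * ‖ψ (q : ZMod p) - 1‖ := by
        refine sum_le_sum fun n hn => ?_
        have h := mem_Icc.1 hn
        exact vin2_pt ψ _ n (by omega) fun q hq hd => mem_filter.2
          ⟨mem_Icc.2 ⟨hq.one_le, (Nat.le_of_dvd (by omega) hd).trans h.2⟩, hq⟩
    _ = ∑ q ∈ Icc 1 Y with q.Prime,
          ((Y.factorial).factorization q : ℝ) * ‖ψ (q : ZMod p) - 1‖ := by
        rw [sum_comm]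
        refine sum_congr rfl fun q _ => ?_
        rw [← sum_mul, ← vin2_fac, Nat.cast_sum]
    _ ≤ _ := by
        rw [mul_sum]
        refine sum_le_sum fun q hq => ?_
        have h := mul_le_mul_of_nonneg_right (vin2_le (mem_filter.1 hq).2 Y)
          (norm_nonneg (ψ (q : ZMod p) - 1))
        refine h.trans (le_of_eq ?_)
        ring

end Pool.Agent.G60
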