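import Pool.Agent.MP_b5e119_nt.G60.Defs

namespace Pool.Agent.G60

open Finset Filter Topology

theorem vino_tail (hCHEB : CHEB_s) (J : ℕ) (hJ : 1 ≤ J) (t : ℕ) :
    ∑ q ∈ Ioc (2 ^ J : ℕ) (2 ^ (J + t)) with q.Prime, 1 / ((q : ℕ) : ℝ) ≤ 4 * t / J := by
  induction t with
  | zero => simp
  | succ t ih =>
    have h1 : (2 ^ J : ℕ) ≤ 2 ^ (J + t) := Nat.pow_le_pow_right (by norm_num) (by omega)
    have h2 : (2 ^ (J + t) : ℕ) ≤ 2 ^ (J + t + 1) := Nat.pow_le_pow_right (by norm_num) (by omega)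
    have h3 := hCHEB.2.1 (J + t) (by omega)
    have hJ' : (0 : ℝ) < J := by exact_mod_cast hJ
    have h4 : (4 : ℝ) / ((J + t : ℕ) : ℝ) ≤ 4 / J := by
      apply div_le_div_of_nonneg_left (by norm_num) hJ'
      exact_mod_cast Nat.le_add_right J t
    rw [sum_filter] at ih h3 ⊢
    rw [show J + (t + 1) = J + t + 1 from rfl, ← sum_Ioc_consecutive _ h1 h2]
    have h5 : (4 : ℝ) * ((t + 1 : ℕ) : ℝ) / J = 4 * t / J + 4 / J := by
      push_cast; ring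
    rw [h5]
    linarith

theorem vino_norm (p : ℕ) [Fact p.Prime] (χ : Ch p) (a : ZMod p) :
    ‖(χ ^ 2) a - 1‖ ≤ 2 * ‖χ a + 1‖ ∧ ‖(χ ^ 2) a - 1‖ ≤ 2 := by
  have h1 : ‖χ a‖ ≤ 1 := DirichletCharacter.norm_le_one χ a
  have h2 : (χ ^ 2) a = χ a ^ 2 := MulChar.pow_apply' χ (by norm_num) a
  have h3 : ‖χ a - 1‖ ≤ 2 := by
    have := norm_sub_le (χ a) 1
    rw [norm_one] at this
    linarith
  refine ⟨?_, ?_⟩
  · rw [h2, show χ a ^ 2 - 1 = (χ a - 1) * (χ a + 1) by ring, norm_mul]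
    exact mul_le_mul_of_nonneg_right h3 (norm_nonneg _)
  · have h4 : ‖(χ ^ 2) a‖ ≤ 1 := DirichletCharacter.norm_le_one (χ ^ 2) a
    have := norm_sub_le ((χ ^ 2) a) 1
    rw [norm_one] at this
    linarith

theorem vino_primes (hCHEB : CHEB_s) (p : ℕ) [Fact p.Prime] (χ : Ch p) (J t Y : ℕ) (hJ : 1 ≤ J)
    (hY : Y ≤ 2 ^ (J + t)) :
    ∑ q ∈ Icc 1 Y with q.Prime, ‖(χ ^ 2) (q : ZMod p) - 1‖ / q ≤
      2 * ∑ q ∈ PP J, ‖χ (q : ZMod p) + 1‖ / q + 2 * (4 * t / J) := by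
  have hsub : {q ∈ Icc 1 Y | q.Prime} ⊆
      PP J ∪ {q ∈ Ioc (2 ^ J : ℕ) (2 ^ (J + t)) | q.Prime} := by
    intro q hq
    simp only [mem_filter, mem_Icc, PP, mem_union, mem_range, mem_Ioc] at hq ⊢
    by_cases h : q ≤ 2 ^ J
    · exact Or.inl ⟨by omega, hq.2⟩
    · exact Or.inr ⟨⟨by omega, by omega⟩, hq.2⟩
  have hdis : Disjoint (PP J) {q ∈ Ioc (2 ^ J : ℕ) (2 ^ (J + t)) | q.Prime} := by
    rw [disjoint_left]
    intro q hq hq'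
    simp only [mem_filter, PP, mem_range, mem_Ioc] at hq hq'
    omega
  have h1 := sum_le_sum_of_subset_of_nonneg
    (f := fun q : ℕ => ‖(χ ^ 2) (q : ZMod p) - 1‖ / (q : ℝ)) hsub
    (fun q _ _ => div_nonneg (norm_nonneg _) (Nat.cast_nonneg _))
  rw [sum_union hdis] at h1
  have h2 : ∑ q ∈ PP J, ‖(χ ^ 2) (q : ZMod p) - 1‖ / (q : ℝ) ≤
      2 * ∑ q ∈ PP J, ‖χ (q : ZMod p) + 1‖ / q := by
    rw [mul_sum]
    refine sum_le_sum fun q _ => ?_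
    rw [← mul_div_assoc]
    exact div_le_div_of_nonneg_right (vino_norm p χ _).1 (Nat.cast_nonneg _)
  have h3 : ∑ q ∈ Ioc (2 ^ J : ℕ) (2 ^ (J + t)) with q.Prime,
      ‖(χ ^ 2) (q : ZMod p) - 1‖ / (q : ℝ) ≤
      2 * ∑ q ∈ Ioc (2 ^ J : ℕ) (2 ^ (J + t)) with q.Prime, 1 / ((q : ℕ) : ℝ) := by
    rw [mul_sum]
    refine sum_le_sum fun q _ => ?_
    rw [← mul_div_assoc, mul_one]
    exact div_le_div_of_nonneg_right (vino_norm p χ _).2 (Nat.cast_nonneg _)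
  have h4 := vino_tail hCHEB J hJ t
  linarith

theorem vino_sq (p : ℕ) [Fact p.Prime] (ψ : Ch p) (X : ℕ) :
    (X : ℝ) ^ 2 ≤ ‖∑ x ∈ Icc 1 X, ∑ y ∈ Icc 1 X, ψ ((x + y : ℕ) : ZMod p)‖ +
      X * ∑ n ∈ Icc 1 (2 * X), ‖ψ (n : ZMod p) - 1‖ := by
  have h1 : ((X : ℂ)) ^ 2 = ∑ x ∈ Icc 1 X, ∑ y ∈ Icc 1 X, ψ ((x + y : ℕ) : ZMod p) -
      ∑ x ∈ Icc 1 X, ∑ y ∈ Icc 1 X, (ψ ((x + y : ℕ) : ZMod p) - 1) := by
    simp only [sum_sub_distrib, sum_const, Nat.card_Icc, Nat.add_sub_cancel, nsmul_eq_mul]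
    ring
  have h2 : ‖∑ x ∈ Icc 1 X, ∑ y ∈ Icc 1 X, (ψ ((x + y : ℕ) : ZMod p) - 1)‖ ≤
      X * ∑ n ∈ Icc 1 (2 * X), ‖ψ (n : ZMod p) - 1‖ := by
    refine (norm_sum_le _ _).trans ?_
    have h3 : ∀ x ∈ Icc 1 X, ‖∑ y ∈ Icc 1 X, (ψ ((x + y : ℕ) : ZMod p) - 1)‖ ≤
        ∑ n ∈ Icc 1 (2 * X), ‖ψ (n : ZMod p) - 1‖ := by
      intro x hx
      refine (norm_sum_le _ _).trans ?_
      have hinj : Set.InjOn (fun y => x + y) (Icc 1 X : Finset ℕ) := by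
        intro a _ b _ hab
        simpa using hab
      rw [← sum_image (f := fun n : ℕ => ‖ψ (n : ZMod p) - 1‖) hinj]
      refine sum_le_sum_of_subset_of_nonneg ?_ fun _ _ _ => norm_nonneg _
      intro n hn
      simp only [mem_image, mem_Icc] at hn hx ⊢
      obtain ⟨y, hy, rfl⟩ := hn
      omega
    have h4 := sum_le_card_nsmul _ _ _ h3
    simpa only [Nat.card_Icc, Nat.add_sub_cancel, nsmul_eq_mul] using h4
  have h5 : ‖((X : ℂ)) ^ 2‖ = (X : ℝ) ^ 2 := by simp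
  rw [← h5, h1]
  exact (norm_sub_le _ _).trans (by linarith)

theorem vino_row (hCHEB : CHEB_s) (hBIL : BIL_s) (hVIN1 : VIN1_s) (hVIN2 : VIN2_s) : VINO_s := by
  obtain ⟨e, he⟩ : ∃ e : ℕ, 1024 ≤ e := ⟨1024, le_rfl⟩
  refine ⟨2 ^ e, fun p hp hp0 χ J hJ1 hJ2 hV => ?_⟩
  have hl : 1024 ≤ Nat.log 2 p := he.trans (Nat.le_log_of_pow_le (by norm_num) hp0)
  have hpp : p.Prime := hp.out
  have hlow : 2 ^ Nat.log 2 p ≤ p := Nat.pow_log_le_self 2 hpp.ne_zero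
  have hup : p < 2 ^ (Nat.log 2 p + 1) := Nat.lt_pow_succ_log_self (by norm_num) p
  obtain ⟨l, hldef⟩ : ∃ l, l = Nat.log 2 p := ⟨_, rfl⟩
  have h1 := hVIN1 p χ J (by omega) (by omega) hJ2 hV
  rw [← hldef] at hl hlow hup hJ1 hJ2 hV h1
  have hlR : (1024 : ℝ) ≤ l := by exact_mod_cast hl
  obtain ⟨k, hk1, hk2⟩ : ∃ k : ℕ, l + 1 ≤ 2 * k ∧ 2 * k ≤ l + 2 := ⟨(l + 2) / 2, by omega, by omega⟩
  have hY : 2 * 2 ^ (k + 2) < p := by
    have : 2 * 2 ^ (k + 2) = 2 ^ (k + 3) := by ring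
    rw [this]
    exact lt_of_lt_of_le (Nat.pow_lt_pow_right (by norm_num) (by omega)) hlow
  refine ⟨?_, ?_⟩
  · by_contra hψ
    obtain ⟨t, ht1, ht2⟩ : ∃ t : ℕ, k + 3 ≤ J + t ∧ 1024 * t ≤ l + 4096 :=
      ⟨k + 3 - J, by omega, by omega⟩
    have hYle : 2 * 2 ^ (k + 2) ≤ 2 ^ (J + t) := by
      have : 2 * 2 ^ (k + 2) = 2 ^ (k + 3) := by ring
      rw [this]
      exact Nat.pow_le_pow_right (by norm_num) ht1
    have hX16 : 16 * p ≤ (2 ^ (k + 2)) ^ 2 := by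
      have e1 : (2 ^ (k + 2)) ^ 2 = 16 * 2 ^ (2 * k) := by ring
      have e2 : 2 ^ (l + 1) ≤ 2 ^ (2 * k) := Nat.pow_le_pow_right (by norm_num) hk1
      omega
    have hXpos : 0 < 2 ^ (k + 2) := by positivity
    obtain ⟨X, hX⟩ : ∃ X, X = 2 ^ (k + 2) := ⟨_, rfl⟩
    rw [← hX] at hY hYle hX16 hXpos
    have hb := hBIL p (χ ^ 2) X hψ (by omega)
    have h2 := hVIN2 p (χ ^ 2) (2 * X) hY
    have h3 := vino_primes hCHEB p χ J t (2 * X) (by omega) hYle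
    have h4 := vino_sq p (χ ^ 2) X
    have hXR : (0 : ℝ) < X := by exact_mod_cast hXpos
    have hsq : √(p : ℝ) ≤ X / 4 := by
      apply Real.sqrt_le_iff.2 ⟨by positivity, ?_⟩
      have : (16 : ℝ) * p ≤ (X : ℝ) ^ 2 := by exact_mod_cast hX16
      nlinarith
    have hJR : (511 : ℝ) * l ≤ 1024 * J := by exact_mod_cast hJ1
    have htR : (1024 : ℝ) * t ≤ l + 4096 := by exact_mod_cast ht2
    have hJpos : (0 : ℝ) < J := by linarith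
    have e1 : (8 : ℝ) / l ≤ 1 / 128 := by
      rw [div_le_div_iff₀ (by linarith) (by norm_num)]
      linarith
    have e2 : (4 : ℝ) * t / J ≤ 1 / 20 := by
      rw [div_le_div_iff₀ hJpos (by norm_num)]
      linarith
    obtain ⟨S, hS⟩ : ∃ S : ℝ,
        S = ∑ q ∈ Icc 1 (2 * X) with q.Prime, ‖(χ ^ 2) (q : ZMod p) - 1‖ / (q : ℝ) := ⟨_, rfl⟩
    rw [← hS] at h2 h3
    have e3 : S ≤ 1 / 8 := by linarith
    have e4 : (X : ℝ) * ∑ n ∈ Icc 1 (2 * X), ‖(χ ^ 2) (n : ZMod p) - 1‖ ≤ X * (X / 2) := by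
      refine mul_le_mul_of_nonneg_left (h2.trans ?_) hXR.le
      push_cast
      nlinarith
    have e5 : (X : ℝ) * √(p : ℝ) ≤ X * (X / 4) := mul_le_mul_of_nonneg_left hsq hXR.le
    nlinarith
  · rintro rfl
    have hp2 : 2 < p := by
      have : 0 < 2 ^ (k + 2) := by positivity
      omega
    have hu : IsUnit (((2 : ℕ) : ZMod p)) := by
      rw [ZMod.isUnit_iff_coprime]
      exact (Nat.coprime_primes Nat.prime_two hpp).2 (by omega)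
    have hv : (4 : ℝ) ≤ VV p 1 J := by
      unfold VV
      rw [MulChar.one_apply hu]
      have e1 : ‖(1 : ℂ) + 1‖ ^ 2 = 4 := by
        rw [show (1 : ℂ) + 1 = 2 by norm_num]
        norm_num
      rw [e1]
      refine le_add_of_nonneg_right (sum_nonneg fun j _ => ?_)
      positivity
    have e2 : (1 : ℝ) ≤ (l : ℝ) ^ 5 := one_le_pow₀ (by linarith)
    nlinarith

end Pool.Agent.G60
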