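import Pool.Agent.MP_b5e119_nt.G60.BIL
import Pool.Agent.MP_b5e119_nt.G60.BUR1
import Pool.Agent.MP_b5e119_nt.G60.BUR2
import Pool.Agent.MP_b5e119_nt.G60.BURG
import Pool.Agent.MP_b5e119_nt.G60.CHEB
import Pool.Agent.MP_b5e119_nt.G60.CHN
import Pool.Agent.MP_b5e119_nt.G60.CONC
import Pool.Agent.MP_b5e119_nt.G60.DIR
import Pool.Agent.MP_b5e119_nt.G60.ENE
import Pool.Agent.MP_b5e119_nt.G60.FEJ
import Pool.Agent.MP_b5e119_nt.G60.FEW
import Pool.Agent.MP_b5e119_nt.G60.FIN1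
import Pool.Agent.MP_b5e119_nt.G60.FIN3
import Pool.Agent.MP_b5e119_nt.G60.HYP
import Pool.Agent.MP_b5e119_nt.G60.LIO
import Pool.Agent.MP_b5e119_nt.G60.LIO1
import Pool.Agent.MP_b5e119_nt.G60.LOC
import Pool.Agent.MP_b5e119_nt.G60.MANY
import Pool.Agent.MP_b5e119_nt.G60.MOM
import Pool.Agent.MP_b5e119_nt.G60.MON
import Pool.Agent.MP_b5e119_nt.G60.MU
import Pool.Agent.MP_b5e119_nt.G60.ODD3
import Pool.Agent.MP_b5e119_nt.G60.ODS3
import Pool.Agent.MP_b5e119_nt.G60.PAR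
import Pool.Agent.MP_b5e119_nt.G60.POW
import Pool.Agent.MP_b5e119_nt.G60.PRI3
import Pool.Agent.MP_b5e119_nt.G60.SEC
import Pool.Agent.MP_b5e119_nt.G60.SIEG
import Pool.Agent.MP_b5e119_nt.G60.SMO
import Pool.Agent.MP_b5e119_nt.G60.SPEC
import Pool.Agent.MP_b5e119_nt.G60.SPL
import Pool.Agent.MP_b5e119_nt.G60.SQ
import Pool.Agent.MP_b5e119_nt.G60.ST2
import Pool.Agent.MP_b5e119_nt.G60.STR
import Pool.Agent.MP_b5e119_nt.G60.SUB
import Pool.Agent.MP_b5e119_nt.G60.TAIL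
import Pool.Agent.MP_b5e119_nt.G60.TOP3
import Pool.Agent.MP_b5e119_nt.G60.TR
import Pool.Agent.MP_b5e119_nt.G60.TWO
import Pool.Agent.MP_b5e119_nt.G60.UNIQ
import Pool.Agent.MP_b5e119_nt.G60.VIN1
import Pool.Agent.MP_b5e119_nt.G60.VIN2
import Pool.Agent.MP_b5e119_nt.G60.VINO

/-! Assembly of the rows. -/

namespace Pool.Agent.G60

theorem lio : LIO_s := lio_row sq_row hyp_row lio1_row

theorem bil : BIL_s := bil_row sec_row

theorem bur2 : BUR2_s := bur2_row sec_row uniq_row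

theorem many : MANY_s :=
  many_row sq_row hyp_row (burg_row mom_row (bur1_row ene_row) bur2) bur2 (sieg_row uniq_row) tail_row

theorem pri3 [Sg] : PRI3_s :=
  have hD : DIR_s := dir_row sub_row tr_row
  have hM : MU_s := mu_row par_row
  pri3_row cheb_row (ods3_row lio odd3_row)
    (str_row (con_row (st2_row sub_row tr_row hD fej_row smo_row) hM (few_row cheb_row spec_row)
      (chn_row par_row hM cheb_row (loc_row bil)) (vino_row cheb_row bil vin1_row vin2_row)) uniq_row)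
    (two_row hD) (spl_row cheb_row) many (fin3_row cheb_row (fin1_row sec_row uniq_row))

theorem top3 : TOP3_s := top3_row (fun i => @pri3 i) mon_row (pow_row lio)

end Pool.Agent.G60
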